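import Mathlib

/-!
Non-backtracking walks, closed sets and partial isomorphisms in graphs of large girth.
-/

namespace FOMod384

open Classical

variable {W : Type}

/-- `u 0, u 1, …, u k` is a non-backtracking walk. -/
def NB (Γ : SimpleGraph W) (k : ℕ) (u : ℕ → W) : Prop :=
  (∀ i, i < k → Γ.Adj (u i) (u (i+1))) ∧ (∀ i, i + 2 ≤ k → u i ≠ u (i+2))

/-- no closed non-backtracking walk of length `1 ≤ k ≤ g`. -/
def Gir (Γ : SimpleGraph W) (g : ℕ) : Prop :=
  ∀ k u, 0 < k → k ≤ g → NB Γ k u → u 0 ≠ u k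

theorem Gir.mono {Γ : SimpleGraph W} {g h : ℕ} (hg : Gir Γ g) (h1 : h ≤ g) : Gir Γ h :=
  fun k u h0 hk hu => hg k u h0 (hk.trans h1) hu

theorem NB.sub {Γ : SimpleGraph W} {k : ℕ} {u : ℕ → W} (h : NB Γ k u) (j l : ℕ) (hjl : j + l ≤ k) :
    NB Γ l (fun i => u (j + i)) := by
  refine ⟨fun i hi => ?_, fun i hi => ?_⟩
  · have := h.1 (j+i) (by omega)
    simpa [add_assoc] using this
  · have := h.2 (j+i) (by omega)
    simpa [add_assoc] using this

theorem NB.mono {Γ : SimpleGraph W} {k l : ℕ} {u : ℕ → W} (h : NB Γ k u) (hl : l ≤ k) :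
    NB Γ l u := ⟨fun i hi => h.1 i (by omega), fun i hi => h.2 i (by omega)⟩

theorem NB.rev {Γ : SimpleGraph W} {k : ℕ} {u : ℕ → W} (h : NB Γ k u) :
    NB Γ k (fun i => u (k - i)) := by
  refine ⟨fun i hi => ?_, fun i hi => ?_⟩
  · have := h.1 (k - (i+1)) (by omega)
    have e : k - (i+1) + 1 = k - i := by omega
    rw [e] at this
    exact this.symm
  · have := h.2 (k - (i+2)) (by omega)
    have e : k - (i+2) + 2 = k - i := by omega
    rw [e] at this
    exact this.symm

theorem NB.congr {Γ : SimpleGraph W} {k : ℕ} {u v : ℕ → W} (h : NB Γ k u)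
    (huv : ∀ i, i ≤ k → v i = u i) : NB Γ k v := by
  refine ⟨fun i hi => ?_, fun i hi => ?_⟩
  · rw [huv i (by omega), huv (i+1) (by omega)]; exact h.1 i hi
  · rw [huv i (by omega), huv (i+2) (by omega)]; exact h.2 i hi

theorem NB.inj {Γ : SimpleGraph W} {g k : ℕ} {u : ℕ → W} (hg : Gir Γ g) (hk : k ≤ g)
    (h : NB Γ k u) {i j : ℕ} (hij : i < j) (hj : j ≤ k) : u i ≠ u j := by
  have h1 := hg (j - i) (fun a => u (i + a)) (by omega) (by omega) (h.sub i (j-i) (by omega))
  have e : i + (j - i) = j := by omega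
  simpa [e] using h1

theorem NB.inj' {Γ : SimpleGraph W} {g k : ℕ} {u : ℕ → W} (hg : Gir Γ g) (hk : k ≤ g)
    (h : NB Γ k u) {i j : ℕ} (hi : i ≤ k) (hj : j ≤ k) (he : u i = u j) : i = j := by
  rcases lt_trichotomy i j with h1 | h1 | h1
  · exact absurd he (h.inj hg hk h1 hj)
  · exact h1
  · exact absurd he.symm (h.inj hg hk h1 hi)

/-- concatenation -/
def ccat (k : ℕ) (u v : ℕ → W) : ℕ → W := fun i => if i ≤ k then u i else v (i - k)

theorem ccat_le {k : ℕ} {u v : ℕ → W} {i : ℕ} (h : i ≤ k) : ccat k u v i = u i := by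
  simp [ccat, h]

theorem ccat_ge {k : ℕ} {u v : ℕ → W} (huv : u k = v 0) {i : ℕ} (h : k ≤ i) :
    ccat k u v i = v (i - k) := by
  rcases eq_or_lt_of_le h with rfl | h
  · simp [ccat, huv]
  · simp [ccat, not_le.mpr h]

theorem NB.append {Γ : SimpleGraph W} {k l : ℕ} {u v : ℕ → W} (hu : NB Γ k u) (hv : NB Γ l v)
    (huv : u k = v 0) (hj : ∀ k', k = k' + 1 → 0 < l → u k' ≠ v 1) :
    NB Γ (k + l) (ccat k u v) := by
  refine ⟨fun i hi => ?_, fun i hi => ?_⟩
  · rcases lt_or_ge i k with h | h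
    · rw [ccat_le (by omega), ccat_le (by omega)]; exact hu.1 i h
    · rw [ccat_ge huv h, ccat_ge huv (by omega)]
      have := hv.1 (i - k) (by omega)
      have e : i + 1 - k = i - k + 1 := by omega
      rw [e]; exact this
  · rcases lt_or_ge (i+1) k with h | h
    · rw [ccat_le (by omega), ccat_le (by omega)]; exact hu.2 i (by omega)
    · rcases lt_or_ge i k with h2 | h2
      · have e1 : k = i + 1 := by omega
        rw [ccat_le (by omega), ccat_ge huv (by omega)]
        have e2 : i + 2 - k = 1 := by omega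
        rw [e2]
        exact hj i e1 (by omega)
      · rw [ccat_ge huv h2, ccat_ge huv (by omega)]
        have := hv.2 (i - k) (by omega)
        have e : i + 2 - k = i - k + 2 := by omega
        rw [e]; exact this

theorem NB.unique {Γ : SimpleGraph W} {g : ℕ} (hg : Gir Γ g) :
    ∀ (k l : ℕ) (u v : ℕ → W), k + l ≤ g → NB Γ k u → NB Γ l v → u 0 = v 0 → u k = v l →
      k = l ∧ ∀ i, i ≤ k → u i = v i := by
  intro k
  induction k with
  | zero =>
    intro l u v hkl hu hv h0 h1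
    rcases Nat.eq_zero_or_pos l with rfl | hl
    · refine ⟨rfl, fun i hi => ?_⟩
      have : i = 0 := by omega
      subst this; exact h0
    · exact absurd (h0.symm.trans h1) (hg l v hl (by omega) hv)
  | succ k ih =>
    intro l u v hkl hu hv h0 h1
    rcases l with _ | l
    · exact absurd (h0.trans h1.symm) (hg (k+1) u (by omega) (by omega) hu)
    · by_cases hh : u k = v l
      · obtain ⟨e, he⟩ := ih l u v (by omega) (hu.mono (by omega)) (hv.mono (by omega)) h0 hh
        subst e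
        refine ⟨rfl, fun i hi => ?_⟩
        rcases Nat.lt_or_ge i (k+1) with h2 | h2
        · exact he i (by omega)
        · have : i = k + 1 := by omega
          subst this; exact h1
      · exfalso
        have hc := NB.append hu hv.rev (by simpa using h1) (by
          intro k' hk' _
          have : k' = k := by omega
          subst this
          simpa using hh)
        have := hg _ _ (by omega) (by omega) hc
        apply this
        rw [ccat_le (by omega), ccat_ge (by simpa using h1) (by omega)]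
        simp [h0]

/-- a set of nodes closed under short non-backtracking walks -/
def Cl (Γ : SimpleGraph W) (ρ : ℕ) (H : Set W) : Prop :=
  ∀ k, k ≤ ρ → ∀ u, NB Γ k u → u 0 ∈ H → u k ∈ H → ∀ i, i ≤ k → u i ∈ H

theorem Cl.mono {Γ : SimpleGraph W} {ρ ρ' : ℕ} {H : Set W} (h : Cl Γ ρ H) (hr : ρ' ≤ ρ) :
    Cl Γ ρ' H := fun k hk u hu => h k (hk.trans hr) u hu

/-- extending a walk by one node -/
theorem NB.snoc {Γ : SimpleGraph W} {k : ℕ} {u : ℕ → W} (hu : NB Γ k u) {w : W}
    (hw : Γ.Adj (u k) w) (hb : ∀ k', k = k' + 1 → u k' ≠ w) :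
    NB Γ (k+1) (ccat k u (fun i => if i = 0 then u k else w)) := by
  apply NB.append hu
  · refine ⟨fun i hi => ?_, fun i hi => by omega⟩
    have : i = 0 := by omega
    subst this; simpa using hw
  · simp
  · intro k' hk' _
    simpa using hb k' hk'

theorem Cl.ins {Γ : SimpleGraph W} {ρ : ℕ} {H : Set W} (h : Cl Γ (ρ+1) H) (hg : Gir Γ ρ)
    {p w : W} (hp : p ∈ H) (hpw : Γ.Adj p w) (hw : w ∉ H) : Cl Γ ρ (insert w H) := by
  have key : ∀ k, k ≤ ρ → ∀ u, NB Γ k u → u 0 ∈ H → u k = w →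
      ∀ i, i ≤ k → u i ∈ Insert.insert w H := by
    intro k hk u hu h0 hkw i hi
    rcases Nat.eq_or_lt_of_le hi with rfl | hi
    · left; exact hkw
    right
    obtain ⟨k', rfl⟩ : ∃ k', k = k' + 1 := ⟨k - 1, by omega⟩
    by_cases hh : u k' = p
    · exact h k' (by omega) u (hu.mono (by omega)) h0 (by rw [hh]; exact hp) i (by omega)
    · exfalso
      have h1 := hu.snoc (w := p) (by rw [hkw]; exact hpw.symm) (by
        intro k'' hk''; have : k'' = k' := by omega
        subst this; exact hh)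
      have h2 := h _ (by omega) _ h1 (by rw [ccat_le (by omega)]; exact h0) (by
        rw [ccat_ge (by simp) (by omega)]; simp [hp]) (k'+1) (by omega)
      rw [ccat_le (by omega), hkw] at h2
      exact hw h2
  intro k hk u hu h0 hkk i hi
  rcases h0 with h0 | h0
  · rcases hkk with hkk | hkk
    · rcases Nat.eq_zero_or_pos k with rfl | hk0
      · have : i = 0 := by omega
        subst this; left; exact h0
      · exact absurd (h0.trans hkk.symm) (hg k u hk0 hk hu)
    · have := key k hk _ hu.rev (by simpa using hkk) (by simpa using h0) (k - i) (by omega)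
      have e : k - (k - i) = i := by omega
      simpa [e] using this
  · rcases hkk with hkk | hkk
    · exact key k hk u hu h0 hkk i hi
    · right; exact h k (by omega) u hu h0 hkk i hi

/-- adding a far node -/
theorem Cl.ins_far {Γ : SimpleGraph W} {ρ : ℕ} {H : Set W} (h : Cl Γ ρ H) (hg : Gir Γ ρ)
    {y : W} (hy : ∀ a ∈ H, ∀ k, k ≤ ρ → ∀ u, NB Γ k u → u 0 = a → u k ≠ y) :
    Cl Γ ρ (insert y H) := by
  intro k hk u hu h0 hkk i hi
  rcases h0 with h0 | h0
  · rcases hkk with hkk | hkk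
    · rcases Nat.eq_zero_or_pos k with rfl | hk0
      · have : i = 0 := by omega
        subst this; left; exact h0
      · exact absurd (h0.trans hkk.symm) (hg k u hk0 hk hu)
    · exact absurd (by simpa using h0) (hy _ hkk k hk _ hu.rev (by simp))
  · rcases hkk with hkk | hkk
    · exact absurd hkk (hy _ h0 k hk u hu rfl)
    · right; exact h k hk u hu h0 hkk i hi

variable {L : Type}

/-- A finite set of pairs which is a partial isomorphism between two `ρ`-closed sets of nodes,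
preserving labels. -/
structure PIso (Γ : SimpleGraph W) (lam : W → L) (ρ : ℕ) (S : Finset (W × W)) : Prop where
  inj : ∀ p ∈ S, ∀ q ∈ S, (p.1 = q.1 ↔ p.2 = q.2)
  adj : ∀ p ∈ S, ∀ q ∈ S, (Γ.Adj p.1 q.1 ↔ Γ.Adj p.2 q.2)
  lab : ∀ p ∈ S, lam p.1 = lam p.2
  cl1 : Cl Γ ρ {a | ∃ b, (a, b) ∈ S}
  cl2 : Cl Γ ρ {b | ∃ a, (a, b) ∈ S}

/-- the reversed set of pairs -/
noncomputable def swapS (S : Finset (W × W)) : Finset (W × W) := S.image Prod.swap

theorem mem_swapS {S : Finset (W × W)} {a b : W} : (a, b) ∈ swapS S ↔ (b, a) ∈ S := by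
  simp [swapS, Prod.swap]

theorem card_swapS (S : Finset (W × W)) : (swapS S).card ≤ S.card := Finset.card_image_le

theorem PIso.swap {Γ : SimpleGraph W} {lam : W → L} {ρ : ℕ} {S : Finset (W × W)}
    (h : PIso Γ lam ρ S) : PIso Γ lam ρ (swapS S) := by
  constructor
  · rintro ⟨a, b⟩ hp ⟨c, d⟩ hq
    rw [mem_swapS] at hp hq
    exact (h.inj _ hp _ hq).symm
  · rintro ⟨a, b⟩ hp ⟨c, d⟩ hq
    rw [mem_swapS] at hp hq
    exact (h.adj _ hp _ hq).symm
  · rintro ⟨a, b⟩ hp
    rw [mem_swapS] at hp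
    exact (h.lab _ hp).symm
  · simp only [mem_swapS]; exact h.cl2
  · simp only [mem_swapS]; exact h.cl1

theorem PIso.weaken {Γ : SimpleGraph W} {L' : Type} {lam : W → L} {lam' : W → L'} {ρ ρ' : ℕ}
    {S : Finset (W × W)} (h : PIso Γ lam ρ S) (hl : ∀ w w', lam w = lam w' → lam' w = lam' w')
    (hr : ρ' ≤ ρ) : PIso Γ lam' ρ' S :=
  ⟨h.inj, h.adj, fun p hp => hl _ _ (h.lab p hp), h.cl1.mono hr, h.cl2.mono hr⟩

/-- number of neighbours of `w` with label `ℓ` -/
noncomputable def cnt [Fintype W] (Γ : SimpleGraph W) (lam : W → L) (w : W) (l : L) : ℕ :=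
  (Finset.univ.filter (fun u => Γ.Adj w u ∧ lam u = l)).card

/-- `lam'` refines `lam` and the counts of `lam`-labels up to the threshold `N`. -/
def Thr [Fintype W] {L' : Type} (Γ : SimpleGraph W) (N : ℕ) (lam' : W → L') (lam : W → L) : Prop :=
  ∀ w w', lam' w = lam' w' → lam w = lam w' ∧
    ∀ l, min N (cnt Γ lam w l) = min N (cnt Γ lam w' l)

theorem one_step [Fintype W] {L' : Type} {Γ : SimpleGraph W} {N : ℕ} {lam' : W → L'} {lam : W → L}
    (ht : Thr Γ N lam' lam) {ρ : ℕ} (hρ : 1 ≤ ρ) (hg : Gir Γ (ρ+1)) {S : Finset (W × W)}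
    (hS : PIso Γ lam' (ρ+1) S) (hc : S.card < N) {p p' : W} (hp : (p, p') ∈ S) {w : W}
    (hw : Γ.Adj p w) (hwS : ∀ b, (w, b) ∉ S) :
    ∃ w', Γ.Adj p' w' ∧ (∀ a, (a, w') ∉ S) ∧ lam w = lam w' ∧
      PIso Γ lam ρ (insert (w, w') S) := by
  set l := lam w with hl
  -- the pairs already used
  let T : Finset (W × W) := S.filter (fun q => Γ.Adj p q.1 ∧ lam q.1 = l)
  have hT' : T = S.filter (fun q => Γ.Adj p' q.2 ∧ lam q.2 = l) := by
    apply Finset.filter_congr
    rintro ⟨a, b⟩ hq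
    have h1 := hS.adj _ hp _ hq
    have h2 := (ht _ _ (hS.lab _ hq)).1
    simp only at h1 h2 ⊢
    rw [h1, h2]
  have hTS : T ⊆ S := Finset.filter_subset _ _
  have c1 : (T.image Prod.fst).card = T.card := by
    apply Finset.card_image_of_injOn
    rintro ⟨a, b⟩ h1 ⟨c, d⟩ h2 h3
    have h1' := hTS h1
    have h2' := hTS h2
    have := (hS.inj _ h1' _ h2').1 h3
    simp only at h3 this
    rw [h3, this]
  have c2 : (T.image Prod.snd).card = T.card := by
    apply Finset.card_image_of_injOn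
    rintro ⟨a, b⟩ h1 ⟨c, d⟩ h2 h3
    have h1' := hTS h1
    have h2' := hTS h2
    have := (hS.inj _ h1' _ h2').2 h3
    simp only at h3 this
    rw [h3, this]
  have c3 : T.card + 1 ≤ cnt Γ lam p l := by
    have hnot : w ∉ T.image Prod.fst := by
      intro hmem
      obtain ⟨⟨a, b⟩, hab, rfl⟩ := Finset.mem_image.1 hmem
      exact hwS b (hTS hab)
    rw [← c1, ← Finset.card_insert_of_notMem hnot]
    apply Finset.card_le_card
    intro x hx
    rcases Finset.mem_insert.1 hx with rfl | hx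
    · simp [hw, hl]
    · obtain ⟨⟨a, b⟩, hab, rfl⟩ := Finset.mem_image.1 hx
      have := (Finset.mem_filter.1 hab).2
      simpa using this
  have c4 : T.card + 1 ≤ cnt Γ lam p' l := by
    have h1 := (ht _ _ (hS.lab _ hp)).2 l
    have h2 : T.card + 1 ≤ N := lt_of_le_of_lt (Finset.card_le_card hTS) hc
    simp only at h1
    have h3 : T.card + 1 ≤ min N (cnt Γ lam p l) := le_min h2 c3
    rw [h1] at h3
    exact h3.trans (min_le_right _ _)
  obtain ⟨w', hw', hw'T⟩ : ∃ w' ∈ Finset.univ.filter (fun u => Γ.Adj p' u ∧ lam u = l),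
      w' ∉ T.image Prod.snd := by
    apply Finset.exists_mem_notMem_of_card_lt_card
    rw [c2]; exact c4
  simp only [Finset.mem_filter, Finset.mem_univ, true_and] at hw'
  have hw'S : ∀ a, (a, w') ∉ S := by
    intro a ha
    apply hw'T
    rw [hT']
    exact Finset.mem_image.2 ⟨(a, w'), Finset.mem_filter.2 ⟨ha, hw'⟩, rfl⟩
  refine ⟨w', hw'.1, hw'S, hw'.2.symm, ?_⟩
  -- only one neighbour
  have a1 : ∀ a b, (a, b) ∈ S → Γ.Adj w a → a = p := by
    intro a b hab hwa
    by_contra hne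
    have hn : NB Γ 2 (fun i => if i = 0 then p else if i = 1 then w else a) := by
      refine ⟨fun i hi => ?_, fun i hi => ?_⟩
      · interval_cases i
        · simpa using hw
        · simpa using hwa
      · have : i = 0 := by omega
        subst this; simpa using fun h => hne h.symm
    have := hS.cl1 2 (by omega) _ hn (by exact ⟨p', by simpa using hp⟩) (by exact ⟨b, by simpa using hab⟩) 1 (by omega)
    obtain ⟨c, hc⟩ := this
    exact hwS c (by simpa using hc)
  have a2 : ∀ a b, (a, b) ∈ S → Γ.Adj w' b → b = p' := by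
    intro a b hab hwa
    by_contra hne
    have hn : NB Γ 2 (fun i => if i = 0 then p' else if i = 1 then w' else b) := by
      refine ⟨fun i hi => ?_, fun i hi => ?_⟩
      · interval_cases i
        · simpa using hw'.1
        · simpa using hwa
      · have : i = 0 := by omega
        subst this; simpa using fun h => hne h.symm
    have := hS.cl2 2 (by omega) _ hn (by exact ⟨p, by simpa using hp⟩) (by exact ⟨a, by simpa using hab⟩) 1 (by omega)
    obtain ⟨c, hc⟩ := this
    exact hw'S c (by simpa using hc)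
  have a3 : ∀ a b, (a, b) ∈ S → (Γ.Adj w a ↔ Γ.Adj w' b) := by
    intro a b hab
    constructor
    · intro h
      have e1 := a1 a b hab h
      have e2 := (hS.inj _ hab _ hp).1 e1
      simp only at e2
      rw [e2]; exact hw'.1.symm
    · intro h
      have e1 := a2 a b hab h
      have e2 := (hS.inj _ hab _ hp).2 e1
      simp only at e2
      rw [e2]; exact hw.symm
  constructor
  · rintro ⟨a, b⟩ h1 ⟨c, d⟩ h2
    rcases Finset.mem_insert.1 h1 with k1 | k1 <;> rcases Finset.mem_insert.1 h2 with k2 | k2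
    · rw [k1, k2]; simp
    · obtain ⟨e1, e2⟩ := Prod.mk.inj k1
      simp only
      rw [e1, e2]
      constructor
      · intro h; rw [← h] at k2; exact absurd k2 (hwS _)
      · intro h; rw [← h] at k2; exact absurd k2 (hw'S _)
    · obtain ⟨e1, e2⟩ := Prod.mk.inj k2
      simp only
      rw [e1, e2]
      constructor
      · intro h; rw [h] at k1; exact absurd k1 (hwS _)
      · intro h; rw [h] at k1; exact absurd k1 (hw'S _)
    · exact hS.inj _ k1 _ k2
  · rintro ⟨a, b⟩ h1 ⟨c, d⟩ h2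
    rcases Finset.mem_insert.1 h1 with k1 | k1 <;> rcases Finset.mem_insert.1 h2 with k2 | k2
    · obtain ⟨e1, e2⟩ := Prod.mk.inj k1
      obtain ⟨e3, e4⟩ := Prod.mk.inj k2
      simp only
      rw [e1, e2, e3, e4]; simp
    · obtain ⟨e1, e2⟩ := Prod.mk.inj k1
      simp only
      rw [e1, e2]
      exact a3 _ _ k2
    · obtain ⟨e1, e2⟩ := Prod.mk.inj k2
      simp only
      rw [e1, e2, Γ.adj_comm, a3 _ _ k1, Γ.adj_comm]
    · exact hS.adj _ k1 _ k2
  · rintro ⟨a, b⟩ h1
    rcases Finset.mem_insert.1 h1 with h1 | h1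
    · obtain ⟨rfl, rfl⟩ := Prod.mk.inj h1
      exact hl.symm.trans hw'.2.symm
    · exact (ht _ _ (hS.lab _ h1)).1
  · have : {a | ∃ b, (a, b) ∈ insert (w, w') S} = insert w {a | ∃ b, (a, b) ∈ S} := by
      ext a
      simp only [Finset.mem_insert, Prod.mk.injEq, Set.mem_ofPred_eq, Set.mem_insert_iff]
      constructor
      · rintro ⟨b, h | h⟩
        · exact Or.inl h.1
        · exact Or.inr ⟨b, h⟩
      · rintro (h | ⟨b, h⟩)
        · exact ⟨w', Or.inl ⟨h, rfl⟩⟩
        · exact ⟨b, Or.inr h⟩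
    rw [this]
    exact hS.cl1.ins (hg.mono (by omega)) ⟨p', hp⟩ hw (fun ⟨b, hb⟩ => hwS b hb)
  · have : {b | ∃ a, (a, b) ∈ insert (w, w') S} = insert w' {b | ∃ a, (a, b) ∈ S} := by
      ext b
      simp only [Finset.mem_insert, Prod.mk.injEq, Set.mem_ofPred_eq, Set.mem_insert_iff]
      constructor
      · rintro ⟨a, h | h⟩
        · exact Or.inl h.2
        · exact Or.inr ⟨a, h⟩
      · rintro (h | ⟨a, h⟩)
        · exact ⟨w, Or.inl ⟨rfl, h⟩⟩
        · exact ⟨a, Or.inr h⟩
    rw [this]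
    exact hS.cl2.ins (hg.mono (by omega)) ⟨p, hp⟩ hw'.1 (fun ⟨b, hb⟩ => hw'S b hb)

/-- `a` and `b` are joined by a walk of length at most `k` -/
def Near (Γ : SimpleGraph W) (k : ℕ) (a b : W) : Prop := ∃ p : Γ.Walk a b, p.length ≤ k

theorem Near.symm {Γ : SimpleGraph W} {k : ℕ} {a b : W} (h : Near Γ k a b) : Near Γ k b a := by
  obtain ⟨p, hp⟩ := h
  exact ⟨p.reverse, by simpa using hp⟩

theorem Near.trans {Γ : SimpleGraph W} {k l : ℕ} {a b c : W} (h : Near Γ k a b)
    (h' : Near Γ l b c) : Near Γ (k + l) a c := by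
  obtain ⟨p, hp⟩ := h
  obtain ⟨q, hq⟩ := h'
  exact ⟨p.append q, by rw [SimpleGraph.Walk.length_append]; omega⟩

theorem Near.mono {Γ : SimpleGraph W} {k l : ℕ} {a b : W} (h : Near Γ k a b) (hkl : k ≤ l) :
    Near Γ l a b := by
  obtain ⟨p, hp⟩ := h
  exact ⟨p, hp.trans hkl⟩

theorem Near.refl {Γ : SimpleGraph W} (k : ℕ) (a : W) : Near Γ k a a := ⟨.nil, by simp⟩

theorem Near.cons {Γ : SimpleGraph W} {k : ℕ} {a b c : W} (h : Γ.Adj a b) (h' : Near Γ k b c) :
    Near Γ (k+1) a c := by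
  obtain ⟨q, hq⟩ := h'
  exact ⟨.cons h q, by simpa using hq⟩

theorem NB.near {Γ : SimpleGraph W} : ∀ {k : ℕ} {u : ℕ → W}, NB Γ k u → Near Γ k (u 0) (u k) := by
  intro k
  induction k with
  | zero => intro u _; exact Near.refl 0 _
  | succ k ih =>
    intro u hu
    have h1 := ih (u := fun i => u (1 + i)) (hu.sub 1 k (by omega))
    have h2 := hu.1 0 (by omega)
    have := Near.cons h2 (by simpa using h1)
    simpa [add_comm] using this

/-- The walk-copying property, from level `(lam', ρ')` down to level `(lam, ρ)`. -/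
def NearProp [Fintype W] {L' : Type} (Γ : SimpleGraph W) (N k : ℕ) (lam' : W → L') (ρ' : ℕ)
    (lam : W → L) (ρ : ℕ) : Prop :=
  ∀ S : Finset (W × W), PIso Γ lam' ρ' S → S.card + k ≤ N → ∀ p p', (p, p') ∈ S → ∀ y j, j ≤ k →
    Near Γ j p y → ∃ S' : Finset (W × W), S ⊆ S' ∧ PIso Γ lam ρ S' ∧ S'.card ≤ S.card + k ∧
      ∃ y', (y, y') ∈ S' ∧ Near Γ j p' y'

theorem NearProp.zero [Fintype W] (Γ : SimpleGraph W) (N : ℕ) (lam : W → L) (ρ : ℕ) :
    NearProp Γ N 0 lam ρ lam ρ := by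
  intro S hS hc p p' hp y j hj hy
  obtain ⟨q, hq⟩ := hy
  have : p = y := by
    cases q with
    | nil => rfl
    | cons h q => simp at hq; omega
  subst this
  exact ⟨S, subset_rfl, hS, le_rfl, p', hp, Near.refl j _⟩

theorem NearProp.succ [Fintype W] {L' L'' : Type} {Γ : SimpleGraph W} {N k : ℕ} {lam'' : W → L''}
    {lam' : W → L'} {lam : W → L} {ρ' ρ : ℕ} (hρ : 1 ≤ ρ') (hg : Gir Γ (ρ'+1))
    (ht : Thr Γ N lam'' lam') (h : NearProp Γ N k lam' ρ' lam ρ) :
    NearProp Γ N (k+1) lam'' (ρ'+1) lam ρ := by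
  intro S hS hc p p' hp y j hj hy
  obtain ⟨q, hq⟩ := hy
  have hweak : PIso Γ lam' ρ' S := hS.weaken (fun w w' h => (ht w w' h).1) (by omega)
  cases q with
  | nil =>
    obtain ⟨S', h1, h2, h3, y', h4, h5⟩ := h S hweak (by omega) p p' hp p 0 (by omega)
      (Near.refl 0 _)
    exact ⟨S', h1, h2, by omega, y', h4, h5.mono (by omega)⟩
  | cons hadj q =>
    rename_i c
    obtain ⟨j, rfl⟩ : ∃ j', j = j' + 1 := ⟨j - 1, by simp at hq; omega⟩
    have hnear : Near Γ j c y := ⟨q, by simpa using hq⟩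
    by_cases hcS : ∃ b, (c, b) ∈ S
    · obtain ⟨c', hc'⟩ := hcS
      obtain ⟨S', h1, h2, h3, y', h4, h5⟩ := h S hweak (by omega) c c' hc' y j (by omega) hnear
      have hadj' : Γ.Adj p' c' := (hS.adj _ hp _ hc').1 hadj
      exact ⟨S', h1, h2, by omega, y', h4, Near.cons hadj' h5⟩
    · push Not at hcS
      obtain ⟨c', hc1, hc2, hc3, hc4⟩ := one_step ht hρ hg hS (by omega) hp hadj hcS
      have hcard : (insert (c, c') S).card ≤ S.card + 1 := Finset.card_insert_le _ _
      obtain ⟨S', h1, h2, h3, y', h4, h5⟩ := h (insert (c, c') S) hc4 (by omega) c c'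
        (Finset.mem_insert_self _ _) y j (by omega) hnear
      exact ⟨S', (Finset.subset_insert _ _).trans h1, h2, by omega, y', h4, Near.cons hc1 h5⟩

theorem Near.nb {Γ : SimpleGraph W} {k : ℕ} {a b : W} (h : Near Γ k a b) :
    ∃ j ≤ k, ∃ u, NB Γ j u ∧ u 0 = a ∧ u j = b := by
  obtain ⟨p, hp⟩ := h
  have : ∀ {a b : W} (p : Γ.Walk a b), ∃ j ≤ p.length, ∃ u, NB Γ j u ∧ u 0 = a ∧ u j = b := by
    intro a b p
    induction p with
    | nil =>
      rename_i a
      exact ⟨0, by simp, fun _ => a, ⟨fun i hi => by omega, fun i hi => by omega⟩, rfl, rfl⟩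
    | cons hadj p ih =>
      rename_i a c b
      obtain ⟨j, hj, v, hv, hv0, hvj⟩ := ih
      by_cases h1 : ∃ j', j = j' + 1 ∧ v 1 = a
      · obtain ⟨j', rfl, hv1⟩ := h1
        refine ⟨j', by simp; omega, fun i => v (1 + i), hv.sub 1 j' (by omega), by simpa using hv1, ?_⟩
        simpa [add_comm] using hvj
      · refine ⟨1 + j, by simp; omega, ccat 1 (fun i => if i = 0 then a else c) v, ?_, ?_, ?_⟩
        · apply NB.append _ hv
          · simp [hv0]
          · intro k' hk' hj0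
            have : k' = 0 := by omega
            subst this
            intro h2
            exact h1 ⟨j - 1, by omega, by simpa using h2.symm⟩
          · refine ⟨fun i hi => ?_, fun i hi => by omega⟩
            have : i = 0 := by omega
            subst this; simpa using hadj
        · rw [ccat_le (by omega)]; simp
        · rw [ccat_ge (by simp [hv0]) (by omega)]; simpa using hvj
  obtain ⟨j, hj, hu⟩ := this p
  exact ⟨j, hj.trans hp, hu⟩

theorem PIso.empty (Γ : SimpleGraph W) (lam : W → L) (ρ : ℕ) :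
    PIso Γ lam ρ (∅ : Finset (W × W)) :=
  ⟨by simp, by simp, by simp, fun k _ u _ h => by simp at h, fun k _ u _ h => by simp at h⟩

theorem PIso.insert_far {Γ : SimpleGraph W} {lam : W → L} {ρ : ℕ} (hρ : 1 ≤ ρ) (hg : Gir Γ ρ)
    {S : Finset (W × W)} (hS : PIso Γ lam ρ S) {y y' : W} (hl : lam y = lam y')
    (h1 : ∀ a b, (a, b) ∈ S → ¬ Near Γ ρ a y) (h2 : ∀ a b, (a, b) ∈ S → ¬ Near Γ ρ b y') :
    PIso Γ lam ρ (insert (y, y') S) := by
  have n1 : ∀ a b, (a, b) ∈ S → a ≠ y := fun a b h e => h1 a b h (e ▸ Near.refl _ _)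
  have n2 : ∀ a b, (a, b) ∈ S → b ≠ y' := fun a b h e => h2 a b h (e ▸ Near.refl _ _)
  have m1 : ∀ a b, (a, b) ∈ S → ¬ Γ.Adj a y :=
    fun a b h e => h1 a b h ((Near.cons e (Near.refl 0 _)).mono (by omega))
  have m2 : ∀ a b, (a, b) ∈ S → ¬ Γ.Adj b y' :=
    fun a b h e => h2 a b h ((Near.cons e (Near.refl 0 _)).mono (by omega))
  constructor
  · rintro ⟨a, b⟩ h1 ⟨c, d⟩ h2
    rcases Finset.mem_insert.1 h1 with k1 | k1 <;> rcases Finset.mem_insert.1 h2 with k2 | k2
    · rw [k1, k2]; simp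
    · obtain ⟨e1, e2⟩ := Prod.mk.inj k1
      simp only
      rw [e1, e2]
      exact ⟨fun h => absurd h.symm (n1 _ _ k2), fun h => absurd h.symm (n2 _ _ k2)⟩
    · obtain ⟨e1, e2⟩ := Prod.mk.inj k2
      simp only
      rw [e1, e2]
      exact ⟨fun h => absurd h (n1 _ _ k1), fun h => absurd h (n2 _ _ k1)⟩
    · exact hS.inj _ k1 _ k2
  · rintro ⟨a, b⟩ h1 ⟨c, d⟩ h2
    rcases Finset.mem_insert.1 h1 with k1 | k1 <;> rcases Finset.mem_insert.1 h2 with k2 | k2
    · obtain ⟨e1, e2⟩ := Prod.mk.inj k1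
      obtain ⟨e3, e4⟩ := Prod.mk.inj k2
      simp only
      rw [e1, e2, e3, e4]; simp
    · obtain ⟨e1, e2⟩ := Prod.mk.inj k1
      simp only
      rw [e1, e2]
      exact ⟨fun h => absurd h.symm (m1 _ _ k2), fun h => absurd h.symm (m2 _ _ k2)⟩
    · obtain ⟨e1, e2⟩ := Prod.mk.inj k2
      simp only
      rw [e1, e2]
      exact ⟨fun h => absurd h (m1 _ _ k1), fun h => absurd h (m2 _ _ k1)⟩
    · exact hS.adj _ k1 _ k2
  · rintro ⟨a, b⟩ h1
    rcases Finset.mem_insert.1 h1 with k1 | k1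
    · obtain ⟨e1, e2⟩ := Prod.mk.inj k1
      simp only
      rw [e1, e2]; exact hl
    · exact hS.lab _ k1
  · have : {a | ∃ b, (a, b) ∈ insert (y, y') S} = insert y {a | ∃ b, (a, b) ∈ S} := by
      ext a
      simp only [Finset.mem_insert, Prod.mk.injEq, Set.mem_ofPred_eq, Set.mem_insert_iff]
      constructor
      · rintro ⟨b, h | h⟩
        · exact Or.inl h.1
        · exact Or.inr ⟨b, h⟩
      · rintro (h | ⟨b, h⟩)
        · exact ⟨y', Or.inl ⟨h, rfl⟩⟩
        · exact ⟨b, Or.inr h⟩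
    rw [this]
    apply hS.cl1.ins_far hg
    rintro a ⟨b, hb⟩ k hk u hu h0 hk'
    apply h1 a b hb
    rw [← h0, ← hk']; exact hu.near.mono hk
  · have : {b | ∃ a, (a, b) ∈ insert (y, y') S} = insert y' {b | ∃ a, (a, b) ∈ S} := by
      ext b
      simp only [Finset.mem_insert, Prod.mk.injEq, Set.mem_ofPred_eq, Set.mem_insert_iff]
      constructor
      · rintro ⟨a, h | h⟩
        · exact Or.inl h.2
        · exact Or.inr ⟨a, h⟩
      · rintro (h | ⟨a, h⟩)
        · exact ⟨y, Or.inl ⟨rfl, h⟩⟩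
        · exact ⟨a, Or.inr h⟩
    rw [this]
    apply hS.cl2.ins_far hg
    rintro b ⟨a, hb⟩ k hk u hu h0 hk'
    apply h2 a b hb
    rw [← h0, ← hk']; exact hu.near.mono hk

theorem NB.closed_range {Γ : SimpleGraph W} {ρ k : ℕ} {u : ℕ → W} (hg : Gir Γ (2*ρ)) (hk : k ≤ ρ)
    (hu : NB Γ k u) : Cl Γ ρ {a | ∃ i, i ≤ k ∧ a = u i} := by
  have key : ∀ l, l ≤ ρ → ∀ v, NB Γ l v → ∀ i j, i ≤ j → j ≤ k → v 0 = u i → v l = u j →
      ∀ a, a ≤ l → ∃ i, i ≤ k ∧ v a = u i := by
    intro l hl v hv i j hij hj h0 h1 a ha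
    have h2 := NB.unique hg l (j - i) v (fun a => u (i + a)) (by omega) hv
      (hu.sub i (j-i) (by omega)) (by simpa using h0) (by
        have e : i + (j - i) = j := by omega
        simpa [e] using h1)
    exact ⟨i + a, by omega, h2.2 a ha⟩
  rintro l hl v hv ⟨i, hi, h0⟩ ⟨j, hj, h1⟩ a ha
  rcases le_total i j with hij | hij
  · exact key l hl v hv i j hij hj h0 h1 a ha
  · have := key l hl _ hv.rev j i hij hi (by simpa using h1) (by simpa using h0) (l - a) (by omega)
    have e : l - (l - a) = a := by omega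
    simpa [e] using this

theorem NB.adj_iff {Γ : SimpleGraph W} {g k : ℕ} {u : ℕ → W} (hg : Gir Γ g) (hk : k + 1 ≤ g)
    (hu : NB Γ k u) {i j : ℕ} (hi : i ≤ k) (hj : j ≤ k) :
    Γ.Adj (u i) (u j) ↔ (j = i + 1 ∨ i = j + 1) := by
  have key : ∀ i j, i < j → j ≤ k → Γ.Adj (u i) (u j) → j = i + 1 := by
    intro i j hij hj h
    by_contra hne
    have h1 := (hu.sub i (j - i) (by omega)).snoc (w := u i) (by
      have e : i + (j - i) = j := by omega
      simpa [e] using h.symm) (by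
      intro k' hk' h2
      exact hu.inj hg (by omega) (i := i) (j := i + k') (by omega) (by omega) h2.symm)
    have := hg _ _ (by omega) (by omega) h1
    apply this
    rw [ccat_le (by omega), ccat_ge (by simp) (by omega)]
    simp
  constructor
  · intro h
    rcases lt_trichotomy i j with h1 | h1 | h1
    · exact Or.inl (key i j h1 hj h)
    · subst h1; exact absurd h (Γ.loopless.irrefl _)
    · exact Or.inr (key j i h1 hi h.symm)
  · rintro (rfl | rfl)
    · exact hu.1 i (by omega)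
    · exact (hu.1 j (by omega)).symm

theorem PIso.ofWalks {Γ : SimpleGraph W} {lam : W → L} {ρ : ℕ} (hρ : 1 ≤ ρ) (hg : Gir Γ (2*ρ))
    {k : ℕ} (hk : k ≤ ρ) {u u' : ℕ → W} (hu : NB Γ k u) (hu' : NB Γ k u')
    (hl : ∀ i, i ≤ k → lam (u i) = lam (u' i)) :
    PIso Γ lam ρ ((Finset.range (k+1)).image (fun i => (u i, u' i))) := by
  have hm : ∀ a b, (a, b) ∈ (Finset.range (k+1)).image (fun i => (u i, u' i)) ↔
      ∃ i, i ≤ k ∧ a = u i ∧ b = u' i := by
    intro a b
    simp only [Finset.mem_image, Finset.mem_range, Prod.mk.injEq]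
    constructor
    · rintro ⟨i, hi, h1, h2⟩; exact ⟨i, by omega, h1.symm, h2.symm⟩
    · rintro ⟨i, hi, h1, h2⟩; exact ⟨i, by omega, h1.symm, h2.symm⟩
  constructor
  · rintro ⟨a, b⟩ h1 ⟨c, d⟩ h2
    obtain ⟨i, hi, rfl, rfl⟩ := (hm _ _).1 h1
    obtain ⟨j, hj, rfl, rfl⟩ := (hm _ _).1 h2
    constructor
    · intro h
      have := hu.inj' hg (by omega) hi hj h
      subst this; rfl
    · intro h
      have := hu'.inj' hg (by omega) hi hj h
      subst this; rfl
  · rintro ⟨a, b⟩ h1 ⟨c, d⟩ h2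
    obtain ⟨i, hi, rfl, rfl⟩ := (hm _ _).1 h1
    obtain ⟨j, hj, rfl, rfl⟩ := (hm _ _).1 h2
    simp only
    rw [hu.adj_iff hg (by omega) hi hj, hu'.adj_iff hg (by omega) hi hj]
  · rintro ⟨a, b⟩ h1
    obtain ⟨i, hi, rfl, rfl⟩ := (hm _ _).1 h1
    exact hl i hi
  · have : {a | ∃ b, (a, b) ∈ (Finset.range (k+1)).image (fun i => (u i, u' i))} =
        {a | ∃ i, i ≤ k ∧ a = u i} := by
      ext a
      simp only [hm, Set.mem_ofPred_eq]
      constructor
      · rintro ⟨b, i, hi, h1, h2⟩; exact ⟨i, hi, h1⟩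
      · rintro ⟨i, hi, h1⟩; exact ⟨u' i, i, hi, h1, rfl⟩
    rw [this]; exact hu.closed_range hg hk
  · have : {b | ∃ a, (a, b) ∈ (Finset.range (k+1)).image (fun i => (u i, u' i))} =
        {b | ∃ i, i ≤ k ∧ b = u' i} := by
      ext b
      simp only [hm, Set.mem_ofPred_eq]
      constructor
      · rintro ⟨a, i, hi, h1, h2⟩; exact ⟨i, hi, h2⟩
      · rintro ⟨i, hi, h1⟩; exact ⟨u i, i, hi, rfl, h1⟩
    rw [this]; exact hu'.closed_range hg hk

/-- the extension lemma: any node of `V` can be added to both sides. -/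
theorem ext_lemma [Fintype W] {Γ : SimpleGraph W} {L1 L' : Type} {lam : W → L} {lam1 : W → L1}
    {lam' : W → L'} {ρ N N0 : ℕ} (V : Set W) (hρ : 1 ≤ ρ) (hg : Gir Γ ρ)
    (h10 : ∀ w w', lam1 w = lam1 w' → lam w = lam w')
    (h21 : ∀ w w', lam' w = lam' w' → lam1 w = lam1 w')
    (hside : ∀ w w', lam w = lam w' → w ∈ V → w' ∈ V)
    (hmark : ∀ y ∈ V, (∃ Z : Finset W, Z.card = N0 + 1 ∧ (∀ z ∈ Z, lam z = lam y) ∧
        ∀ z ∈ Z, ∀ z' ∈ Z, z ≠ z' → ¬ Near Γ (2*ρ) z z') ∨
      (∃ p, Near Γ (2*ρ) y p ∧ ∀ q, lam1 q = lam1 p → q = p))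
    (hnear : NearProp Γ N (5*ρ) lam' (6*ρ) lam1 ρ) (hN : N0 + 5*ρ ≤ N)
    {S : Finset (W × W)} (hS : PIso Γ lam' (6*ρ) S) (hc : S.card ≤ N0) {y : W} (hy : y ∈ V) :
    ∃ S' : Finset (W × W), S ⊆ S' ∧ PIso Γ lam ρ S' ∧ S'.card ≤ S.card + 5*ρ ∧
      ∃ y', (y, y') ∈ S' ∧ y' ∈ V := by
  have hSlow : PIso Γ lam ρ S := hS.weaken (fun w w' h => h10 _ _ (h21 _ _ h)) (by omega)
  by_cases hA : ∃ a b, (a, b) ∈ S ∧ Near Γ (5*ρ) a y
  · obtain ⟨a, b, hab, hn⟩ := hA
    obtain ⟨S', h1, h2, h3, y', h4, h5⟩ := hnear S hS (by omega) a b hab y (5*ρ) le_rfl hn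
    have h2' : PIso Γ lam ρ S' := h2.weaken h10 le_rfl
    exact ⟨S', h1, h2', h3, y', h4, hside _ _ (h2'.lab _ h4) hy⟩
  · push Not at hA
    have hA1 : ∀ a b, (a, b) ∈ S → ¬ Near Γ ρ a y := fun a b h h' => hA a b h (h'.mono (by omega))
    -- it is enough to find a far partner
    have fin : ∀ y', lam y = lam y' → (∀ a b, (a, b) ∈ S → ¬ Near Γ ρ b y') →
        ∃ S' : Finset (W × W), S ⊆ S' ∧ PIso Γ lam ρ S' ∧ S'.card ≤ S.card + 5*ρ ∧
          ∃ y', (y, y') ∈ S' ∧ y' ∈ V := by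
      intro y' hl h2
      refine ⟨insert (y, y') S, Finset.subset_insert _ _, hSlow.insert_far hρ hg hl hA1 h2,
        (Finset.card_insert_le _ _).trans (by omega), y', Finset.mem_insert_self _ _,
        hside _ _ hl hy⟩
    rcases hmark y hy with ⟨Z, hZc, hZl, hZ⟩ | ⟨p, hp1, hp2⟩
    · obtain ⟨z, hz, hzf⟩ : ∃ z ∈ Z, ∀ a b, (a, b) ∈ S → ¬ Near Γ ρ b z := by
        by_contra hcon
        push Not at hcon
        choose! fa fb hf using hcon
        obtain ⟨z, hz, z', hz', hne, he⟩ := Finset.exists_ne_map_eq_of_card_lt_of_maps_to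
          (s := Z) (t := S) (f := fun z => (fa z, fb z)) (by omega) (fun z hz => (hf z hz).1)
        obtain ⟨e1, e2⟩ := Prod.mk.inj he
        have n1 := (hf z hz).2
        have n2 := (hf z' hz').2
        rw [← e2] at n2
        exact hZ z hz z' hz' hne ((n1.symm.trans n2).mono (by omega))
      exact fin z (hZl z hz).symm hzf
    · by_cases hb : ∃ a b, (a, b) ∈ S ∧ Near Γ (3*ρ) b p
      · exfalso
        obtain ⟨a, b, hab, hn⟩ := hb
        have hsw := hS.swap
        have hcard : (swapS S).card ≤ S.card := card_swapS S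
        obtain ⟨S', h1, h2, h3, q, h4, h5⟩ := hnear (swapS S) hsw (by omega) b a
          (mem_swapS.2 hab) p (3*ρ) (by omega) hn
        have hq := hp2 q (h2.lab _ h4).symm
        subst hq
        exact hA a b hab ((h5.trans hp1.symm).mono (by omega))
      · push Not at hb
        apply fin y rfl
        intro a b hab hn
        exact hb a b hab ((hn.trans hp1).mono (by omega))

end FOMod384
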