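import Pool.Agent.FOMod384.Logic

/-!
Pairs of nodes with the same code, and the locality theorem for formulas with two free variables.
-/

namespace FOMod384

open Classical

variable {W L : Type}

/-- Two pairs of nodes have the same code: either they are joined by short non-backtracking
walks of the same length and with the same labels, or both are far apart and the end points have
the same labels. -/
def Same (Γ : SimpleGraph W) (lam : W → L) (ρ : ℕ) (x y x' y' : W) : Prop :=
  (∃ k, k ≤ ρ ∧ ∃ u u' : ℕ → W, NB Γ k u ∧ NB Γ k u' ∧ u 0 = x ∧ u k = y ∧ u' 0 = x' ∧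
      u' k = y' ∧ ∀ i, i ≤ k → lam (u i) = lam (u' i)) ∨
    (¬ Near Γ ρ x y ∧ ¬ Near Γ ρ x' y' ∧ lam x = lam x' ∧ lam y = lam y')

theorem Same.rev {Γ : SimpleGraph W} {lam : W → L} {ρ : ℕ} {x y x' y' : W}
    (h : Same Γ lam ρ x y x' y') : Same Γ lam ρ y x y' x' := by
  rcases h with ⟨k, hk, u, u', h1, h2, h3, h4, h5, h6, h7⟩ | ⟨h1, h2, h3, h4⟩
  · left
    refine ⟨k, hk, _, _, h1.rev, h2.rev, by simpa using h4, by simpa using h3, by simpa using h6,
      by simpa using h5, fun i hi => h7 _ (by omega)⟩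
  · right
    exact ⟨fun h => h1 h.symm, fun h => h2 h.symm, h4, h3⟩

theorem Same.mono {L' : Type} {Γ : SimpleGraph W} {lam : W → L} {lam' : W → L'} {p ρ : ℕ}
    (hg : Gir Γ (2*p)) (hp : ρ ≤ p) (hl : ∀ w w', lam' w = lam' w' → lam w = lam w')
    {x y x' y' : W} (h : Same Γ lam' p x y x' y') : Same Γ lam ρ x y x' y' := by
  have far : ∀ {k : ℕ} {u : ℕ → W}, ρ < k → k ≤ p → NB Γ k u → ¬ Near Γ ρ (u 0) (u k) := by
    intro k u hk hkp hu hn
    obtain ⟨j, hj, v, hv, hv0, hvj⟩ := hn.nb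
    have := (NB.unique hg j k v u (by omega) hv hu hv0 hvj).1
    omega
  rcases h with ⟨k, hk, u, u', h1, h2, h3, h4, h5, h6, h7⟩ | ⟨h1, h2, h3, h4⟩
  · rcases Nat.lt_or_ge ρ k with h8 | h8
    · right
      have f1 := far h8 hk h1
      have f2 := far h8 hk h2
      rw [h3, h4] at f1
      rw [h5, h6] at f2
      have l1 := hl _ _ (h7 0 (by omega))
      have l2 := hl _ _ (h7 k le_rfl)
      rw [h3, h5] at l1
      rw [h4, h6] at l2
      exact ⟨f1, f2, l1, l2⟩
    · left
      exact ⟨k, h8, u, u', h1, h2, h3, h4, h5, h6, fun i hi => hl _ _ (h7 i hi)⟩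
  · right
    exact ⟨fun h => h1 (h.mono hp), fun h => h2 (h.mono hp), hl _ _ h3, hl _ _ h4⟩

theorem Same.piso {Γ : SimpleGraph W} {lam : W → L} {ρ : ℕ} (hρ : 2 ≤ ρ) (hg : Gir Γ (2*ρ))
    {x y x' y' : W} (h : Same Γ lam ρ x y x' y') : ∃ S : Finset (W × W), PIso Γ lam ρ S ∧
      S.card ≤ ρ + 1 ∧ (x, x') ∈ S ∧ (y, y') ∈ S := by
  rcases h with ⟨k, hk, u, u', g1, g2, g3, g4, g5, g6, g7⟩ | ⟨g1, g2, g3, g4⟩
  · refine ⟨_, PIso.ofWalks (by omega) hg hk g1 g2 g7, ?_, ?_, ?_⟩
    · refine Finset.card_image_le.trans ?_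
      simp; omega
    · exact Finset.mem_image.2 ⟨0, by simp, by simp [g3, g5]⟩
    · exact Finset.mem_image.2 ⟨k, by simp, by simp [g4, g6]⟩
  · have hg' : Gir Γ ρ := hg.mono (by omega)
    have s0 := PIso.empty Γ lam ρ
    have s1 := s0.insert_far (by omega) hg' g3 (by simp) (by simp)
    have s2 := s1.insert_far (by omega) hg' g4 (by
      intro a b hab
      simp only [insert_empty_eq, Finset.mem_singleton, Prod.mk.injEq] at hab
      rw [hab.1]; exact g1) (by
      intro a b hab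
      simp only [insert_empty_eq, Finset.mem_singleton, Prod.mk.injEq] at hab
      rw [hab.2]; exact g2)
    refine ⟨_, s2, ?_, by simp, by simp⟩
    refine (Finset.card_insert_le _ _).trans ?_
    refine (Nat.succ_le_succ (Finset.card_insert_le _ _)).trans ?_
    simp; omega

theorem loc_two {m : ℕ} (φ : Fml m 2) (hφ : φ.IsFO) :
    ∃ p0 : ℕ, ∀ p, p0 ≤ p → ∀ (V E : Type) [Fintype V] [Fintype E] (I : V → E → Prop),
      Gir (incG I) (2*p) → ∀ U : Fin m → Set V, ∃ lam : V ⊕ E → Fin p, DET I lam p ∧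
        ∀ x y x' y' : V, Same (incG I) lam p (.inl x) (.inl y) (.inl x') (.inl y') →
          (φ.Holds (gG I) U ![x, y] ↔ φ.Holds (gG I) U ![x', y']) := by
  obtain ⟨ρ, g, hρ, h⟩ := loc_all φ hφ
  obtain ⟨L, _, N, h⟩ := h (ρ + 1)
  refine ⟨max (max ρ g) (max (Fintype.card L) N), fun p hp V E _ _ I hg U => ?_⟩
  obtain ⟨lam, h1, h2, h3⟩ := h V E I (hg.mono (by omega)) U
  obtain ⟨emb⟩ : Nonempty (L ↪ Fin p) :=
    Function.Embedding.nonempty_of_card_le (by simpa using by omega)
  refine ⟨fun w => emb (lam w), ?_, ?_⟩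
  · intro e e' hc
    apply congrArg emb
    apply h1 e e'
    intro l
    have h4 := hc (emb l)
    have h5 : ∀ w, cnt (incG I) (fun w => emb (lam w)) w (emb l) = cnt (incG I) lam w l := by
      intro w
      unfold cnt
      congr 1
      ext u
      simp
    rw [h5, h5] at h4
    have hNp : N ≤ p := by omega
    omega
  · intro x y x' y' hs
    have hs' : Same (incG I) lam ρ (.inl x) (.inl y) (.inl x') (.inl y') :=
      hs.mono hg (by omega) (fun w w' h => emb.injective h)
    obtain ⟨S, g1, g2, g3, g4⟩ := hs'.piso hρ (hg.mono (by omega))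
    apply h3 S g1 g2
    intro i
    fin_cases i
    · exact g3
    · exact g4

end FOMod384
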