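import Pool.Agent.FOMod384.Code

/-!
The code of a pair as a function, and the set of nodes on the short walk between two nodes.
-/

namespace FOMod384

open Classical

variable {W : Type}

/-- there is a short non-backtracking walk -/
def HasW (Γ : SimpleGraph W) (p : ℕ) (x y : W) : Prop :=
  ∃ (k : ℕ) (u : ℕ → W), k ≤ p ∧ NB Γ k u ∧ u 0 = x ∧ u k = y

theorem not_near_of_not_hasW {Γ : SimpleGraph W} {p : ℕ} {x y : W} (h : ¬ HasW Γ p x y) :
    ¬ Near Γ p x y := by
  intro hn
  obtain ⟨j, hj, u, h1, h2, h3⟩ := hn.nb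
  exact h ⟨j, u, hj, h1, h2, h3⟩

/-- the type of codes -/
abbrev Cd (p : ℕ) : Type := (Fin (p+1) × (Fin (p+1) → Fin p)) ⊕ (Fin p × Fin p)

/-- the code of a pair of nodes -/
noncomputable def codeF (Γ : SimpleGraph W) {p : ℕ} (lam : W → Fin p) (x y : W) : Cd p :=
  if h : HasW Γ p x y then
    .inl (⟨h.choose, by have := h.choose_spec.choose_spec.1; omega⟩,
      fun i => lam (h.choose_spec.choose (min (i : ℕ) h.choose)))
  else .inr (lam x, lam y)

theorem codeF_near {Γ : SimpleGraph W} {p : ℕ} (hg : Gir Γ (2*p)) (lam : W → Fin p) {x y : W}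
    {k : ℕ} (hk : k ≤ p) {u : ℕ → W} (hu : NB Γ k u) (hx : u 0 = x) (hy : u k = y) :
    codeF Γ lam x y = .inl (⟨k, by omega⟩, fun i => lam (u (min (i : ℕ) k))) := by
  have h : HasW Γ p x y := ⟨k, u, hk, hu, hx, hy⟩
  obtain ⟨h1, h2, h3, h4⟩ := h.choose_spec.choose_spec
  obtain ⟨e1, e2⟩ := NB.unique hg _ k _ u (by omega) h2 hu (by rw [h3, hx]) (by rw [h4, hy])
  unfold codeF
  rw [dif_pos h]
  congr 1
  refine Prod.ext (Fin.ext e1) ?_
  funext i
  simp only
  rw [e2 _ (Nat.min_le_right _ _)]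
  congr 2
  rw [e1]

theorem codeF_far {Γ : SimpleGraph W} {p : ℕ} (lam : W → Fin p) {x y : W}
    (h : ¬ HasW Γ p x y) : codeF Γ lam x y = .inr (lam x, lam y) := by
  unfold codeF; rw [dif_neg h]

theorem same_of_codeF {Γ : SimpleGraph W} {p : ℕ} (hg : Gir Γ (2*p)) (lam : W → Fin p)
    {x y x' y' : W} (h : codeF Γ lam x y = codeF Γ lam x' y') : Same Γ lam p x y x' y' := by
  by_cases h1 : HasW Γ p x y
  · obtain ⟨k, u, hk, hu, hx, hy⟩ := h1
    rw [codeF_near hg lam hk hu hx hy] at h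
    by_cases h2 : HasW Γ p x' y'
    · obtain ⟨k', u', hk', hu', hx', hy'⟩ := h2
      rw [codeF_near hg lam hk' hu' hx' hy'] at h
      simp only [Sum.inl.injEq, Prod.mk.injEq, Fin.mk.injEq] at h
      obtain ⟨rfl, h4⟩ := h
      left
      refine ⟨k, hk, u, u', hu, hu', hx, hy, hx', hy', fun i hi => ?_⟩
      have := congrFun h4 ⟨i, by omega⟩
      simpa [min_eq_left hi] using this
    · rw [codeF_far lam h2] at h
      simp at h
  · rw [codeF_far lam h1] at h
    by_cases h2 : HasW Γ p x' y'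
    · obtain ⟨k', u', hk', hu', hx', hy'⟩ := h2
      rw [codeF_near hg lam hk' hu' hx' hy'] at h
      simp at h
    · rw [codeF_far lam h2] at h
      simp only [Sum.inr.injEq, Prod.mk.injEq] at h
      exact Or.inr ⟨not_near_of_not_hasW h1, not_near_of_not_hasW h2, h.1, h.2⟩

/-- nodes on the short walk -/
noncomputable def nodesOn (Γ : SimpleGraph W) (p : ℕ) (x y : W) : Finset W :=
  if h : HasW Γ p x y then
    (Finset.range (h.choose + 1)).image h.choose_spec.choose
  else ∅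

theorem card_nodesOn (Γ : SimpleGraph W) (p : ℕ) (x y : W) : (nodesOn Γ p x y).card ≤ p + 1 := by
  unfold nodesOn
  split_ifs with h
  · refine Finset.card_image_le.trans ?_
    have := h.choose_spec.choose_spec.1
    simp only [Finset.card_range]
    omega
  · simp

theorem mem_nodesOn {Γ : SimpleGraph W} {p : ℕ} (hg : Gir Γ (2*p)) {x y : W} {k : ℕ} (hk : k ≤ p)
    {u : ℕ → W} (hu : NB Γ k u) (hx : u 0 = x) (hy : u k = y) {i : ℕ} (hi : i ≤ k) :
    u i ∈ nodesOn Γ p x y := by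
  have h : HasW Γ p x y := ⟨k, u, hk, hu, hx, hy⟩
  obtain ⟨h1, h2, h3, h4⟩ := h.choose_spec.choose_spec
  obtain ⟨e1, e2⟩ := NB.unique hg _ k _ u (by omega) h2 hu (by rw [h3, hx]) (by rw [h4, hy])
  unfold nodesOn
  rw [dif_pos h]
  refine Finset.mem_image.2 ⟨i, ?_, e2 i (by omega)⟩
  simp only [Finset.mem_range]
  omega

end FOMod384
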