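import Mathlib

/-!
Two counting lemmas: a transversal avoiding many small sets, and independent sets in digraphs of
bounded out-degree.
-/

namespace FOMod384

open Classical

theorem exists_transversal {V E ι : Type} [Fintype V] [Fintype E] [Fintype ι]
    (inc : E → Finset V) (t β a : ℕ) (ht : 0 < t) (hinc : ∀ e, (inc e).card = t)
    (B : ι → E → Finset V) (hB : ∀ i e, (B i e).card ≤ β)
    (hcount : Fintype.card ι * 2^(Fintype.card E) * β^a < t^a) :
    ∃ z : E → V, (∀ e, z e ∈ inc e) ∧
      ∀ i, (Finset.univ.filter (fun e => z e ∈ B i e)).card < a := by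
  by_contra hcon
  push Not at hcon
  rcases Nat.lt_or_ge (Fintype.card E) a with haE | haE
  · -- no bad sets at all
    have : ∀ e, (inc e).Nonempty := fun e => Finset.card_pos.1 (by rw [hinc]; exact ht)
    choose z hz using this
    obtain ⟨i, hi⟩ := hcon z hz
    have := Finset.card_le_univ (Finset.univ.filter (fun e => z e ∈ B i e))
    omega
  · have hsub : Fintype.piFinset inc ⊆
        ((Finset.univ : Finset ι) ×ˢ (Finset.powersetCard a (Finset.univ : Finset E))).biUnion
          (fun q => Fintype.piFinset (fun e => if e ∈ q.2 then B q.1 e else inc e)) := by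
      intro z hz
      rw [Fintype.mem_piFinset] at hz
      obtain ⟨i, hi⟩ := hcon z hz
      obtain ⟨J, hJ1, hJ2⟩ := Finset.exists_subset_card_eq hi
      refine Finset.mem_biUnion.2 ⟨(i, J), ?_, ?_⟩
      · simp [hJ2]
      · rw [Fintype.mem_piFinset]
        intro e
        simp only
        split_ifs with he
        · exact (Finset.mem_filter.1 (hJ1 he)).2
        · exact hz e
    have h1 := Finset.card_le_card hsub
    have h2 := h1.trans (Finset.card_biUnion_le_card_mul _ _ (β^a * t^(Fintype.card E - a)) (by
      rintro ⟨i, J⟩ hq
      have hJ : J.card = a := by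
        have := (Finset.mem_product.1 hq).2
        exact (Finset.mem_powersetCard.1 this).2
      rw [Fintype.card_piFinset]
      have e1 : ∀ e, (if e ∈ J then B i e else inc e).card ≤ (if e ∈ J then β else t) := by
        intro e
        split_ifs
        · exact hB i e
        · exact (hinc e).le
      refine (Finset.prod_le_prod' (fun e _ => e1 e)).trans ?_
      rw [Finset.prod_ite, Finset.prod_const, Finset.prod_const]
      have e2 : (Finset.univ.filter (fun e => e ∈ J)).card = a := by
        rw [Finset.filter_mem_eq_inter, Finset.univ_inter, hJ]
      have e3 : (Finset.univ.filter (fun e => e ∉ J)).card = Fintype.card E - a := by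
        have := Finset.card_filter_add_card_filter_not (s := (Finset.univ : Finset E)) (fun e => e ∈ J)
        rw [Finset.card_univ, e2] at this
        omega
      rw [e2, e3]))
    rw [Fintype.card_piFinset] at h2
    simp only [hinc, Finset.prod_const, Finset.card_univ, Finset.card_product,
      Finset.card_powersetCard] at h2
    have h3 : (Fintype.card E).choose a ≤ 2^(Fintype.card E) := Nat.choose_le_two_pow _ _
    have h4 : t^(Fintype.card E) = t^a * t^(Fintype.card E - a) := by
      rw [← pow_add]; congr 1; omega
    rw [h4] at h2
    have hpos : 0 < t^(Fintype.card E - a) := pow_pos ht _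
    have h5 : t^a * t^(Fintype.card E - a) ≤
        (Fintype.card ι * 2^(Fintype.card E) * β^a) * t^(Fintype.card E - a) := by
      refine h2.trans ?_
      calc Fintype.card ι * (Fintype.card E).choose a * (β^a * t^(Fintype.card E - a))
          ≤ Fintype.card ι * 2^(Fintype.card E) * (β^a * t^(Fintype.card E - a)) :=
            Nat.mul_le_mul_right _ (Nat.mul_le_mul_left _ h3)
        _ = _ := by ring
    have h6 := Nat.le_of_mul_le_mul_right h5 hpos
    omega

theorem exists_indep {E : Type} (Nb : E → Finset E) (d : ℕ) (hd : ∀ e, (Nb e).card ≤ d) :
    ∀ (n : ℕ) (X : Finset E), X.card = n → (∀ e ∈ X, e ∉ Nb e) →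
      ∃ I : Finset E, I ⊆ X ∧ X.card ≤ (2*d+1) * I.card ∧ ∀ e ∈ I, ∀ f ∈ I, f ∉ Nb e := by
  intro n
  induction n using Nat.strong_induction_on with
  | _ n ih =>
    intro X hX hself
    rcases X.eq_empty_or_nonempty with rfl | hne
    · exact ⟨∅, by simp, by simp, by simp⟩
    · -- a vertex of small in-degree
      obtain ⟨f, hf, hfd⟩ : ∃ f ∈ X, (X.filter (fun e => f ∈ Nb e)).card ≤ d := by
        apply Finset.exists_le_of_sum_le hne
        have h1 : ∑ f ∈ X, (X.filter (fun e => f ∈ Nb e)).card =
            ∑ e ∈ X, (X.filter (fun f => f ∈ Nb e)).card := by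
          simp only [Finset.card_filter]
          exact Finset.sum_comm
        rw [h1]
        apply Finset.sum_le_sum
        intro e _
        refine le_trans (Finset.card_le_card ?_) (hd e)
        intro f hf
        exact (Finset.mem_filter.1 hf).2
      let X' := X.filter (fun e => e ≠ f ∧ e ∉ Nb f ∧ f ∉ Nb e)
      have hX'X : X' ⊆ X := Finset.filter_subset _ _
      have hcard : X.card ≤ X'.card + (2*d+1) := by
        have hsub : X ⊆ X' ∪ (insert f (Nb f ∪ X.filter (fun e => f ∈ Nb e))) := by
          intro e he
          by_cases h1 : e = f
          · simp [h1]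
          · by_cases h2 : e ∈ Nb f
            · simp [h2]
            · by_cases h3 : f ∈ Nb e
              · simp [h3, he]
              · simp [X', h1, h2, h3, he]
        have c1 := Finset.card_le_card hsub
        have c2 := Finset.card_union_le X' (insert f (Nb f ∪ X.filter (fun e => f ∈ Nb e)))
        have c3 := Finset.card_insert_le f (Nb f ∪ X.filter (fun e => f ∈ Nb e))
        have c4 := Finset.card_union_le (Nb f) (X.filter (fun e => f ∈ Nb e))
        have c5 := hd f
        omega
      have hlt : X'.card < n := by
        rw [← hX]
        apply Finset.card_lt_card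
        refine ⟨hX'X, fun h => ?_⟩
        have := h hf
        simp [X'] at this
      obtain ⟨I, hI1, hI2, hI3⟩ := ih X'.card hlt X' rfl (fun e he => hself e (hX'X he))
      have hfI : f ∉ I := by
        intro h
        have := hI1 h
        simp [X'] at this
      refine ⟨insert f I, Finset.insert_subset hf (hI1.trans hX'X), ?_, ?_⟩
      · rw [Finset.card_insert_of_notMem hfI]
        have : (2*d+1) * (I.card + 1) = (2*d+1) * I.card + (2*d+1) := by ring
        omega
      · intro e he g hg
        rcases Finset.mem_insert.1 he with he | he <;> rcases Finset.mem_insert.1 hg with hg | hg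
        · rw [he, hg]; exact hself f hf
        · rw [he]
          have := hI1 hg
          simp only [X', Finset.mem_filter] at this
          exact this.2.2.1
        · rw [hg]
          have := hI1 he
          simp only [X', Finset.mem_filter] at this
          exact this.2.2.2
        · exact hI3 e he g hg

end FOMod384
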