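import Mathlib

/-!
# FO+MOD transductions of graph classes: definitions
-/

namespace FOMod384

/-- Formulas of FO+MOD over graphs expanded by `m` unary predicates, with free variables
`0, …, n-1`.  A quantifier binds the last variable. -/
inductive Fml (m : ℕ) : ℕ → Type
  /-- equality of two variables -/
  | eq {n : ℕ} (i j : Fin n) : Fml m n
  /-- adjacency of two variables -/
  | adj {n : ℕ} (i j : Fin n) : Fml m n
  /-- the unary predicate `U a` -/
  | col {n : ℕ} (a : Fin m) (i : Fin n) : Fml m n
  /-- negation -/
  | neg {n : ℕ} (φ : Fml m n) : Fml m n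
  /-- conjunction -/
  | and {n : ℕ} (φ ψ : Fml m n) : Fml m n
  /-- existential quantifier -/
  | ex {n : ℕ} (φ : Fml m (n + 1)) : Fml m n
  /-- modulo-counting quantifier: the number of witnesses is congruent to `a` modulo `b` -/
  | exMod {n : ℕ} (a b : ℕ) (h : a < b) (φ : Fml m (n + 1)) : Fml m n

/-- The formula is first-order: it has no modulo-counting quantifier.  (Defined by recursion on
the formula; the cases are those of `eq`, `adj`, `col`, `neg`, `and`, `ex`, `exMod`.) -/
noncomputable def Fml.IsFO {m n : ℕ} (φ : Fml m n) : Prop :=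
  Fml.rec (motive := fun _ _ => Prop)
    (fun _ _ => True)
    (fun _ _ => True)
    (fun _ _ => True)
    (fun _ hφ => hφ)
    (fun _ _ hφ hψ => hφ ∧ hψ)
    (fun _ hφ => hφ)
    (fun _ _ _ _ _ => False) φ

/-- Truth of a formula in the graph `G` with the unary predicates `U`, at the tuple `x`.
(Defined by recursion on the formula; the cases are those of `eq`, `adj`, `col`, `neg`, `and`,
`ex`, `exMod`.) -/
noncomputable def Fml.Holds {m : ℕ} {V : Type} (G : SimpleGraph V) (U : Fin m → Set V) {n : ℕ}
    (φ : Fml m n) : (Fin n → V) → Prop :=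
  Fml.rec (motive := fun n _ => (Fin n → V) → Prop)
    (fun i j x => x i = x j)
    (fun i j x => G.Adj (x i) (x j))
    (fun a i x => x i ∈ U a)
    (fun _ holds x => ¬ holds x)
    (fun _ _ holds holds' x => holds x ∧ holds' x)
    (fun _ holds x => ∃ v : V, holds (Fin.snoc (α := fun _ => V) x v))
    (fun a b _ _ holds x =>
      Nat.card {v : V // holds (Fin.snoc (α := fun _ => V) x v)} % b = a) φ

/-- An FO+MOD-transduction: `m` unary predicates, a formula `nu(x)` and a formula `eta(x,y)`. -/
structure Transduction where
  /-- the number of unary predicates -/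
  m : ℕ
  /-- the formula selecting the vertices of the output -/
  nu : Fml m 1
  /-- the formula defining the edges of the output -/
  eta : Fml m 2

/-- An FO-transduction is one whose two formulas are first-order. -/
def Transduction.IsFO (T : Transduction) : Prop := T.nu.IsFO ∧ T.eta.IsFO

/-- The output graph for a given colouring `U` of `G`. -/
def Transduction.out (T : Transduction) {V : Type} (G : SimpleGraph V) (U : Fin T.m → Set V) :
    SimpleGraph {v : V // T.nu.Holds G U ![v]} where
  Adj u v := u ≠ v ∧ T.eta.Holds G U ![u.1, v.1] ∧ T.eta.Holds G U ![v.1, u.1]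
  symm := ⟨fun _ _ h => ⟨h.1.symm, h.2.2, h.2.1⟩⟩
  loopless := ⟨fun _ h => h.1 rfl⟩

/-- Finite graphs (up to isomorphism every finite graph is one of these). -/
abbrev FinGraph : Type := Σ n : ℕ, SimpleGraph (Fin n)

/-- The class of all finite graphs isomorphic to an output of `T` on a coloured graph of `C`. -/
def Transduction.Image (T : Transduction) (C : Set FinGraph) : Set FinGraph :=
  {H | ∃ G ∈ C, ∃ U : Fin T.m → Set (Fin G.1), Nonempty (H.2 ≃g T.out G.2 U)}

/-- `D` is an FO+MOD-transduction of `C`. -/
def IsFOMODTransductionOf (D C : Set FinGraph) : Prop :=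
  ∃ T : Transduction, D ⊆ T.Image C

/-- `D` is an FO-transduction of `C`. -/
def IsFOTransductionOf (D C : Set FinGraph) : Prop :=
  ∃ T : Transduction, T.IsFO ∧ D ⊆ T.Image C

end FOMod384
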