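import Mathlib

/-!
Counting graphs in which every large set of vertices contains near-twins.
-/

namespace FOMod384

open Classical

variable {V : Type} [Fintype V]

/-- every set of at least `M` vertices contains two vertices which are `K`-near-twins in it -/
def TW (M K : ℕ) (h : V → V → Bool) : Prop :=
  ∀ X : Finset V, M ≤ X.card → ∃ x ∈ X, ∃ x' ∈ X, x ≠ x' ∧
    (X.filter (fun y => h x y ≠ h x' y)).card ≤ K

/-- the symmetric irreflexive relations with near-twins -/
noncomputable def GG (V : Type) [Fintype V] (M K : ℕ) : Finset (V → V → Bool) :=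
  Finset.univ.filter (fun h => (∀ a b, h a b = h b a) ∧ (∀ a, h a a = false) ∧ TW M K h)

/-- restriction -/
noncomputable def resY (Y : Finset V) (h : V → V → Bool) : V → V → Bool :=
  fun a b => if a ∈ Y ∧ b ∈ Y then h a b else false

theorem exists_enum (K : ℕ) (D : Finset V) (hD : D.card ≤ K) :
    ∃ f : Fin K → Option V, ∀ v, v ∈ D ↔ ∃ i, f i = some v := by
  refine ⟨fun i => if h : (i : ℕ) < D.card then some (D.equivFin.symm ⟨i, h⟩).1 else none,
    fun v => ⟨fun hv => ?_, ?_⟩⟩
  · have hlt := (D.equivFin ⟨v, hv⟩).2
    refine ⟨⟨D.equivFin ⟨v, hv⟩, by omega⟩, ?_⟩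
    simp
  · rintro ⟨i, hi⟩
    by_cases h : (i : ℕ) < D.card
    · simp only [h, dite_true, Option.some.injEq] at hi
      rw [← hi]; exact (D.equivFin.symm ⟨i, h⟩).2
    · simp [h] at hi

/-- row -/
def ob (o : Option V) (r : V → V → Bool) (b : V) : Bool :=
  match o with
  | none => false
  | some x' => r x' b

/-- decoding -/
noncomputable def dec {K : ℕ} (Y : Finset V) (x : V) (o : Option V) (f : Fin K → Option V)
    (r : V → V → Bool) : V → V → Bool :=
  fun a b => if a = x ∧ b ∈ Y.erase x then xor (ob o r b) (decide (∃ i, f i = some b))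
    else if b = x ∧ a ∈ Y.erase x then xor (ob o r a) (decide (∃ i, f i = some a))
    else r a b

theorem enc_bound (M K : ℕ) (hMK : M ≤ K) : ∀ (n : ℕ) (Y : Finset V), Y.card = n →
    ((GG V M K).image (resY Y)).card ≤ ((Fintype.card V + 1)^(K+2))^n := by
  intro n
  induction n with
  | zero =>
    intro Y hY
    have hY0 : Y = ∅ := Finset.card_eq_zero.1 hY
    subst hY0
    have : (GG V M K).image (resY ∅) ⊆ {fun _ _ => false} := by
      intro g hg
      obtain ⟨h, _, rfl⟩ := Finset.mem_image.1 hg
      simp only [Finset.mem_singleton]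
      funext a b
      simp [resY]
    simpa using Finset.card_le_card this
  | succ n ih =>
    intro Y hY
    have hsub : (GG V M K).image (resY Y) ⊆
        (Y ×ˢ (Finset.univ : Finset (Option V × (Fin K → Option V)))).biUnion
          (fun t => ((GG V M K).image (resY (Y.erase t.1))).image (dec Y t.1 t.2.1 t.2.2)) := by
      intro g hg
      obtain ⟨h, hh, rfl⟩ := Finset.mem_image.1 hg
      obtain ⟨_, hsym, hirr, htw⟩ := Finset.mem_filter.1 hh
      have key : ∃ x ∈ Y, ∃ o : Option V, ∃ D : Finset V, D.card ≤ K ∧
          ∀ y ∈ Y.erase x, h x y = xor (ob o (resY (Y.erase x) h) y) (decide (y ∈ D)) := by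
        rcases Nat.lt_or_ge Y.card M with hM | hM
        · obtain ⟨x, hx⟩ : Y.Nonempty := Finset.card_pos.1 (by omega)
          refine ⟨x, hx, none, Y.filter (fun y => h x y = true), ?_, ?_⟩
          · exact (Finset.card_filter_le _ _).trans (by omega)
          · intro y hy
            have hyY := (Finset.mem_erase.1 hy).2
            simp only [ob, Finset.mem_filter, hyY, true_and, Bool.false_xor]
            rcases hxy : h x y <;> simp
        · obtain ⟨x, hx, x', hx', hne, hc⟩ := htw Y hM
          refine ⟨x, hx, some x', Y.filter (fun y => h x y ≠ h x' y), hc, ?_⟩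
          intro y hy
          have hyY := (Finset.mem_erase.1 hy).2
          have hx'e : x' ∈ Y.erase x := Finset.mem_erase.2 ⟨hne.symm, hx'⟩
          simp only [ob, resY, hx'e, hy, and_self, if_true, Finset.mem_filter, hyY, true_and]
          rcases h x y <;> rcases h x' y <;> simp
      obtain ⟨x, hx, o, D, hD, hrow⟩ := key
      obtain ⟨f, hf⟩ := exists_enum K D hD
      refine Finset.mem_biUnion.2 ⟨(x, o, f), by simp [hx], ?_⟩
      refine Finset.mem_image.2 ⟨resY (Y.erase x) h, Finset.mem_image.2 ⟨h, hh, rfl⟩, ?_⟩
      have hrow' : ∀ y ∈ Y.erase x, h x y = xor (ob o (resY (Y.erase x) h) y)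
          (decide (∃ i, f i = some y)) := by
        intro y hy
        rw [hrow y hy]
        congr 1
        exact decide_eq_decide.2 (hf y)
      funext a b
      simp only [dec]
      by_cases h1 : a = x ∧ b ∈ Y.erase x
      · rw [if_pos h1, ← hrow' b h1.2]
        have hbY := (Finset.mem_erase.1 h1.2).2
        simp [resY, h1.1, hx, hbY]
      · rw [if_neg h1]
        by_cases h2 : b = x ∧ a ∈ Y.erase x
        · rw [if_pos h2, ← hrow' a h2.2]
          have haY := (Finset.mem_erase.1 h2.2).2
          simp only [resY, h2.1, hx, haY, and_self, if_true]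
          exact hsym _ _
        · rw [if_neg h2]
          simp only [resY, Finset.mem_erase]
          by_cases ha : a = x
          · by_cases hb : b = x
            · subst ha; subst hb; simp [hirr]
            · have : b ∉ Y := fun hb' => h1 ⟨ha, Finset.mem_erase.2 ⟨hb, hb'⟩⟩
              simp [this]
          · by_cases hb : b = x
            · have : a ∉ Y := fun ha' => h2 ⟨hb, Finset.mem_erase.2 ⟨ha, ha'⟩⟩
              simp [this]
            · simp [ha, hb]
    refine (Finset.card_le_card hsub).trans ?_
    refine (Finset.card_biUnion_le_card_mul _ _ (((Fintype.card V + 1)^(K+2))^n) ?_).trans ?_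
    · rintro ⟨x, o, f⟩ ht
      have hx : x ∈ Y := by simpa using ht
      exact Finset.card_image_le.trans (ih _ (by rw [Finset.card_erase_of_mem hx]; omega))
    · rw [Finset.card_product, pow_succ, mul_comm]
      apply Nat.mul_le_mul_left
      simp only [Finset.card_univ, Fintype.card_prod, Fintype.card_option, Fintype.card_fun,
        Fintype.card_fin]
      have hYle : Y.card ≤ Fintype.card V + 1 := (Finset.card_le_univ Y).trans (by omega)
      calc Y.card * ((Fintype.card V + 1) * (Fintype.card V + 1) ^ K)
          ≤ (Fintype.card V + 1) * ((Fintype.card V + 1) * (Fintype.card V + 1) ^ K) :=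
            Nat.mul_le_mul_right _ hYle
        _ = (Fintype.card V + 1)^(K+2) := by ring

theorem card_GG (M K : ℕ) (hMK : M ≤ K) :
    (GG V M K).card ≤ (Fintype.card V + 1)^((K+2) * Fintype.card V) := by
  have h := enc_bound (V := V) M K hMK (Fintype.card V) Finset.univ (by simp)
  have h2 : (GG V M K).image (resY Finset.univ) = GG V M K := by
    have : (resY (Finset.univ : Finset V)) = id := by
      funext h a b; simp [resY]
    rw [this, Finset.image_id]
  rw [h2, ← pow_mul] at h
  exact h

end FOMod384
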