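import Pool.Agent.FOMod384.Logic

/-!
Existence of uniform hypergraphs of large girth with many hyperedges.
-/

namespace FOMod384

open Classical

theorem Gir.comap {W W' : Type} {Γ : SimpleGraph W} {Γ' : SimpleGraph W'} (f : W → W')
    (hf : Function.Injective f) (hadj : ∀ a b, Γ.Adj a b → Γ'.Adj (f a) (f b)) {g : ℕ}
    (hg : Gir Γ' g) : Gir Γ g := by
  intro k u hk hkg hu h
  refine hg k (fun i => f (u i)) hk hkg ⟨fun i hi => hadj _ _ (hu.1 i hi), fun i hi h' => ?_⟩
    (congrArg f h)
  exact hu.2 i hi (hf h')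

/-- ball sizes -/
theorem card_ball {W : Type} [Fintype W] (Γ : SimpleGraph W) (D : ℕ)
    (hD : ∀ w, (Finset.univ.filter (fun b => Γ.Adj w b)).card ≤ D) :
    ∀ (i : ℕ) (a : W), (Finset.univ.filter (fun b => Near Γ i a b)).card ≤ (D+1)^i := by
  intro i
  induction i with
  | zero =>
    intro a
    have : Finset.univ.filter (fun b => Near Γ 0 a b) ⊆ {a} := by
      intro b hb
      obtain ⟨p, hp⟩ := (Finset.mem_filter.1 hb).2
      cases p with
      | nil => simp
      | cons h p => simp at hp
    simpa using Finset.card_le_card this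
  | succ i ih =>
    intro a
    have hsub : Finset.univ.filter (fun b => Near Γ (i+1) a b) ⊆
        insert a ((Finset.univ.filter (fun b => Γ.Adj a b)).biUnion
          (fun b => Finset.univ.filter (fun c => Near Γ i b c))) := by
      intro c hc
      obtain ⟨p, hp⟩ := (Finset.mem_filter.1 hc).2
      cases p with
      | nil => simp
      | cons h p =>
        rename_i b
        refine Finset.mem_insert_of_mem (Finset.mem_biUnion.2 ⟨b, by simpa using h, ?_⟩)
        simp only [Finset.mem_filter, Finset.mem_univ, true_and]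
        exact ⟨p, by simpa using hp⟩
    refine (Finset.card_le_card hsub).trans ((Finset.card_insert_le _ _).trans ?_)
    have h1 := Finset.card_biUnion_le_card_mul (Finset.univ.filter (fun b => Γ.Adj a b))
      (fun b => Finset.univ.filter (fun c => Near Γ i b c)) ((D+1)^i) (fun b _ => ih b)
    have h2 := Nat.mul_le_mul_right ((D+1)^i) (hD a)
    have h3 : 1 ≤ (D+1)^i := Nat.one_le_pow _ _ (by omega)
    have h4 : (D+1)^(i+1) = D * (D+1)^i + (D+1)^i := by ring
    omega

/-- choosing pairwise far elements -/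
theorem exists_far {A : Type} (near : A → A → Prop) (hr : ∀ a, near a a)
    (hs : ∀ a b, near a b → near b a)
    (B : ℕ) (X : Finset A) (hB : ∀ a, (X.filter (fun b => near a b)).card ≤ B)
    (m : ℕ) (hm : m * B ≤ X.card) (hB0 : 0 < B) : ∃ Y : Finset A, Y ⊆ X ∧ Y.card = m ∧
      ∀ a ∈ Y, ∀ b ∈ Y, a ≠ b → ¬ near a b := by
  have key : ∀ j, j ≤ m → ∃ Y : Finset A, Y ⊆ X ∧ Y.card = j ∧
      ∀ a ∈ Y, ∀ b ∈ Y, a ≠ b → ¬ near a b := by
    intro j
    induction j with
    | zero => intro _; exact ⟨∅, by simp, rfl, by simp⟩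
    | succ j ih =>
      intro hj
      obtain ⟨Y, h1, h2, h3⟩ := ih (by omega)
      by_cases hex : ∃ x ∈ X, ∀ a ∈ Y, ¬ near a x
      · obtain ⟨x, hx, hfar⟩ := hex
        have hxY : x ∉ Y := fun h => hfar x h (hr x)
        refine ⟨insert x Y, Finset.insert_subset hx h1,
          by rw [Finset.card_insert_of_notMem hxY, h2], ?_⟩
        intro a ha b hb hab
        rcases Finset.mem_insert.1 ha with ha | ha <;> rcases Finset.mem_insert.1 hb with hb | hb
        · exact absurd (ha.trans hb.symm) hab
        · rw [ha]; exact fun h => hfar b hb (hs _ _ h)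
        · rw [hb]; exact hfar a ha
        · exact h3 a ha b hb hab
      · exfalso
        push Not at hex
        have hsub : X ⊆ Y.biUnion (fun a => X.filter (fun b => near a b)) := by
          intro x hx
          obtain ⟨a, ha, hn⟩ := hex x hx
          exact Finset.mem_biUnion.2 ⟨a, ha, Finset.mem_filter.2 ⟨hx, hn⟩⟩
        have h4 := (Finset.card_le_card hsub).trans
          (Finset.card_biUnion_le_card_mul _ _ B (fun a _ => hB a))
        rw [h2] at h4
        have h5 : (j+1) * B ≤ m * B := Nat.mul_le_mul_right _ hj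
        have h6 : (j+1) * B = j * B + B := by ring
        omega
  exact key m le_rfl

/-- incidence graph of a set of hyperedges -/
abbrev incH {V : Type} (H : Finset (Finset V)) : SimpleGraph (V ⊕ Finset V) :=
  incG (fun v e => e ∈ H ∧ v ∈ e)

theorem incH_old {V : Type} {H : Finset (Finset V)} {e0 : Finset V} {a b : V ⊕ Finset V}
    (h : (incH (insert e0 H)).Adj a b) (ha : a ≠ .inr e0) (hb : b ≠ .inr e0) :
    (incH H).Adj a b := by
  rcases a with v | e <;> rcases b with w | f
  · simp at h
  · simp only [incG_lr, Finset.mem_insert] at h ⊢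
    refine ⟨h.1.resolve_left fun hh => hb (by rw [hh]), h.2⟩
  · simp only [incG_rl, Finset.mem_insert] at h ⊢
    refine ⟨h.1.resolve_left fun hh => ha (by rw [hh]), h.2⟩
  · simp at h

theorem incH_nbr {V : Type} {H : Finset (Finset V)} {e0 : Finset V} {a : V ⊕ Finset V}
    (h : (incH H).Adj a (.inr e0)) : ∃ v ∈ e0, a = .inl v := by
  rcases a with v | e
  · exact ⟨v, h.2, rfl⟩
  · simp at h

theorem gir_insert {V : Type} {H : Finset (Finset V)} {g : ℕ} (hg : Gir (incH H) g)
    {e0 : Finset V}
    (hfar : ∀ x ∈ e0, ∀ y ∈ e0, x ≠ y → ¬ Near (incH H) g (.inl x) (.inl y)) :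
    Gir (incH (insert e0 H)) g := by
  intro k u hk hkg hu h0k
  set c : V ⊕ Finset V := .inr e0 with hc
  -- segments avoiding `c` are walks of the old graph
  have seg : ∀ a l, a + l ≤ k → (∀ i, i ≤ l → u (a + i) ≠ c) → NB (incH H) l (fun i => u (a + i)) := by
    intro a l hal hav
    have h1 := hu.sub a l hal
    refine ⟨fun i hi => ?_, h1.2⟩
    exact incH_old (h1.1 i hi) (hav i (by omega)) (hav (i+1) (by omega))
  by_cases hvis : ∃ a, a ≤ k ∧ u a = c
  · -- least visit
    let a := Nat.find hvis
    have ha := Nat.find_spec hvis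
    have hmin : ∀ i, i < a → u i ≠ c := fun i hi h =>
      Nat.find_min hvis hi ⟨by have := ha.1; omega, h⟩
    change a ≤ k ∧ u a = c at ha
    by_cases hvis2 : ∃ b, a < b ∧ b ≤ k ∧ u b = c
    · let b := Nat.find hvis2
      have hb := Nat.find_spec hvis2
      change a < b ∧ b ≤ k ∧ u b = c at hb
      have hmin2 : ∀ i, a < i → i < b → u i ≠ c := fun i h1 h2 h =>
        Nat.find_min hvis2 h2 ⟨h1, by omega, h⟩
      have hb2 : b ≠ a + 1 := by
        intro h
        have := hu.1 a (by omega)
        rw [← h, ha.2, hb.2.2] at this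
        exact (SimpleGraph.irrefl _) this
      have hb3 : b ≠ a + 2 := by
        intro h
        apply hu.2 a (by omega)
        rw [ha.2, ← h, hb.2.2]
      have hs := seg (a+1) (b - a - 2) (by omega) (fun i hi => hmin2 _ (by omega) (by omega))
      obtain ⟨x, hx, hxu⟩ := incH_nbr (H := insert e0 H) (a := u (a+1))
        (by have := (hu.1 a (by omega)).symm; rw [ha.2] at this; exact this)
      obtain ⟨y, hy, hyu⟩ := incH_nbr (H := insert e0 H) (a := u (b-1))
        (by
          have := hu.1 (b-1) (by omega)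
          have e : b - 1 + 1 = b := by omega
          rw [e, hb.2.2] at this; exact this)
      have e1 : a + 1 + (b - a - 2) = b - 1 := by omega
      by_cases hxy : x = y
      · refine hg _ _ (by omega) (by omega) hs ?_
        simp only [add_zero, e1]
        rw [hxu, hyu, hxy]
      · apply hfar x hx y hy hxy
        have := hs.near.mono (l := g) (by omega)
        simp only [add_zero, e1] at this
        rw [hxu, hyu] at this
        exact this
    · push Not at hvis2
      have ha0 : a ≠ 0 := by
        intro h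
        apply hvis2 k (by omega) le_rfl
        rw [← h0k, ← h]; exact ha.2
      have hak : a ≠ k := by
        intro h
        apply hmin 0 (by omega)
        rw [h0k, ← h]; exact ha.2
      obtain ⟨x, hx, hxu⟩ := incH_nbr (H := insert e0 H) (a := u (a+1))
        (by have := (hu.1 a (by omega)).symm; rw [ha.2] at this; exact this)
      obtain ⟨y, hy, hyu⟩ := incH_nbr (H := insert e0 H) (a := u (a-1))
        (by
          have := hu.1 (a-1) (by omega)
          have e : a - 1 + 1 = a := by omega
          rw [e, ha.2] at this; exact this)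
      have hxy : x ≠ y := by
        intro h
        apply hu.2 (a-1) (by omega)
        have e : a - 1 + 2 = a + 1 := by omega
        rw [e, hxu, hyu, h]
      have s1 := seg (a+1) (k - (a+1)) (by omega) (fun i hi => hvis2 _ (by omega) (by omega))
      have s2 := seg 0 (a-1) (by omega) (fun i hi => hmin _ (by omega))
      have n1 := s1.near
      have n2 := s2.near
      have e1 : a + 1 + (k - (a+1)) = k := by omega
      simp only [add_zero, e1, zero_add] at n1 n2
      rw [h0k] at n2
      have n3 := (n1.trans n2).mono (l := g) (by omega)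
      rw [hxu, hyu] at n3
      exact hfar x hx y hy hxy n3
  · push Not at hvis
    have := seg 0 k (by omega) (fun i hi => hvis _ (by omega))
    simp only [zero_add] at this
    exact hg k u hk hkg this h0k

theorem gir_empty {V : Type} (g : ℕ) : Gir (incH (∅ : Finset (Finset V))) g := by
  intro k u hk _ hu _
  have h := hu.1 0 hk
  rcases h0 : u 0 with v | e <;> rcases h1 : u 1 with w | f <;> simp [h0, h1] at h

/-- degree of a point -/
noncomputable def hdeg {V : Type} (H : Finset (Finset V)) (v : V) : ℕ :=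
  (H.filter (fun e => v ∈ e)).card

theorem exists_hyper0 (V : Type) [Fintype V] (t s g : ℕ) (ht : 2 ≤ t) (hts : t ≤ s) (hg2 : 2 ≤ g)
    (hN : Fintype.card V = 2 * (t * (s+1)^g)) :
    ∃ H : Finset (Finset V), (∀ e ∈ H, e.card = t) ∧ Gir (incH H) g ∧
      s * (s+1)^g ≤ H.card := by
  let Valid : Finset (Finset V) → Prop := fun H =>
    (∀ e ∈ H, e.card = t) ∧ (∀ v, hdeg H v ≤ s) ∧ Gir (incH H) g
  obtain ⟨H, hH, hmax⟩ := Finset.exists_max_image
    (Finset.univ.filter (fun H : Finset (Finset V) => Valid H)) Finset.card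
    ⟨∅, Finset.mem_filter.2 ⟨Finset.mem_univ _, by simp, by simp [hdeg], gir_empty g⟩⟩
  replace hH : Valid H := (Finset.mem_filter.1 hH).2
  replace hmax : ∀ H', Valid H' → H'.card ≤ H.card := fun H' h =>
    hmax H' (Finset.mem_filter.2 ⟨Finset.mem_univ _, h⟩)
  obtain ⟨hcard, hdeg_le, hgir⟩ := hH
  refine ⟨H, hcard, hgir, ?_⟩
  set B := (s+1)^g with hB
  have hBpos : 0 < B := by positivity
  let Lw : Finset V := Finset.univ.filter (fun v => hdeg H v < s)
  -- degrees in the incidence graph
  have hD : ∀ w : V ⊕ Finset V,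
      (Finset.univ.filter (fun b => (incH H).Adj w b)).card ≤ s := by
    rintro (v | e)
    · have : (Finset.univ.filter (fun b => (incH H).Adj (.inl v) b)) ⊆
          (H.filter (fun e => v ∈ e)).image Sum.inr := by
        rintro (w | f) hb
        · simp at hb
        · simp only [Finset.mem_filter, Finset.mem_univ, true_and, incG_lr] at hb
          exact Finset.mem_image.2 ⟨f, Finset.mem_filter.2 hb, rfl⟩
      exact (Finset.card_le_card this).trans (Finset.card_image_le.trans (hdeg_le v))
    · by_cases he : e ∈ H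
      · have : (Finset.univ.filter (fun b => (incH H).Adj (.inr e) b)) ⊆ e.image Sum.inl := by
          rintro (w | f) hb
          · simp only [Finset.mem_filter, Finset.mem_univ, true_and, incG_rl] at hb
            exact Finset.mem_image.2 ⟨w, hb.2, rfl⟩
          · simp at hb
        exact (Finset.card_le_card this).trans (Finset.card_image_le.trans
          (by rw [hcard e he]; exact hts))
      · have : (Finset.univ.filter (fun b => (incH H).Adj (.inr e) b)) = ∅ := by
          apply Finset.filter_eq_empty_iff.2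
          rintro (w | f) _ hb
          · exact he hb.1
          · simp at hb
        rw [this]; simp
  have hball : ∀ v : V,
      (Lw.filter (fun w => Near (incH H) g (.inl v) (.inl w))).card ≤ B := by
    intro v
    refine le_trans ?_ (card_ball (incH H) s hD g (.inl v))
    refine Finset.card_le_card_of_injOn Sum.inl ?_ (fun a _ b _ h => Sum.inl_injective h)
    intro w hw
    have := (Finset.mem_filter.1 hw).2
    simp [this]
  have hLw : Lw.card < t * B := by
    by_contra hcon
    push Not at hcon
    obtain ⟨Y, hY1, hY2, hY3⟩ := exists_far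
      (fun v w : V => Near (incH H) g (.inl v) (.inl w)) (fun a => Near.refl _ _)
      (fun a b h => h.symm) B Lw hball t hcon hBpos
    have hYH : Y ∉ H := by
      intro hYH
      obtain ⟨x, hx, y, hy, hxy⟩ := Finset.one_lt_card.1 (by omega : 1 < Y.card)
      apply hY3 x hx y hy hxy
      have h1 : (incH H).Adj (.inl x) (.inr Y) := ⟨hYH, hx⟩
      have h2 : (incH H).Adj (.inr Y) (.inl y) := ⟨hYH, hy⟩
      exact (Near.cons h1 (Near.cons h2 (Near.refl 0 _))).mono hg2
    have hval : Valid (insert Y H) := by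
      refine ⟨?_, ?_, gir_insert hgir hY3⟩
      · intro e he
        rcases Finset.mem_insert.1 he with rfl | he
        · exact hY2
        · exact hcard e he
      · intro v
        unfold hdeg
        rw [Finset.filter_insert]
        split_ifs with hv
        · have h1 := (Finset.mem_filter.1 (hY1 hv)).2
          refine (Finset.card_insert_le _ _).trans ?_
          unfold hdeg at h1
          omega
        · exact hdeg_le v
    have := hmax _ hval
    rw [Finset.card_insert_of_notMem hYH] at this
    omega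
  -- double counting
  have hsum : ∑ v, hdeg H v = t * H.card := by
    have h1 : ∀ v, hdeg H v = ∑ e ∈ H, if v ∈ e then 1 else 0 := by
      intro v; unfold hdeg; rw [Finset.card_filter]
    simp only [h1]
    rw [Finset.sum_comm]
    have h2 : ∀ e ∈ H, (∑ v : V, if v ∈ e then 1 else 0) = t := by
      intro e he
      rw [Finset.sum_boole, Finset.filter_mem_eq_inter, Finset.univ_inter, Nat.cast_id, hcard e he]
    rw [Finset.sum_congr rfl h2, Finset.sum_const, smul_eq_mul, mul_comm]
  have hlow : s * (Fintype.card V - Lw.card) ≤ ∑ v, hdeg H v := by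
    have h1 : ∑ v ∈ Finset.univ \ Lw, s ≤ ∑ v ∈ Finset.univ \ Lw, hdeg H v := by
      apply Finset.sum_le_sum
      intro v hv
      have : v ∉ Lw := (Finset.mem_sdiff.1 hv).2
      simp only [Lw, Finset.mem_filter, Finset.mem_univ, true_and] at this
      omega
    have h2 : ∑ v ∈ Finset.univ \ Lw, hdeg H v ≤ ∑ v, hdeg H v :=
      Finset.sum_le_sum_of_subset (Finset.subset_univ _)
    rw [Finset.sum_const, smul_eq_mul, Finset.card_sdiff_of_subset (Finset.subset_univ _),
      Finset.card_univ, mul_comm] at h1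
    exact h1.trans h2
  have h3 : t * B ≤ Fintype.card V - Lw.card := by omega
  have h4 : s * (t * B) ≤ t * H.card := by
    rw [← hsum]; exact (Nat.mul_le_mul_left s h3).trans hlow
  have h5 : t * (s * B) ≤ t * H.card := by
    calc t * (s * B) = s * (t * B) := by ring
      _ ≤ _ := h4
  exact Nat.le_of_mul_le_mul_left h5 (by omega)

theorem exists_pow_ge (a b : ℕ) : ∃ k, 1 ≤ k ∧ a + b * k ≤ 2^k := by
  have h : ∀ k : ℕ, 1 ≤ k → 2 * k ≤ 2^k := by
    intro k hk
    induction k, hk using Nat.le_induction with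
    | base => norm_num
    | succ k hk ih => rw [pow_succ]; omega
  set m := a + b + 1 with hm
  refine ⟨2 * m, by omega, ?_⟩
  have h1 := h m (by omega)
  have h2 : 2^(2*m) = 2^m * 2^m := by rw [two_mul, pow_add]
  rw [h2]
  calc a + b * (2 * m) ≤ (2 * m) * (2 * m) := by
        have : b * (2*m) ≤ (m-1) * (2*m) := Nat.mul_le_mul_right _ (by omega)
        have e : m - 1 + 1 = m := by omega
        have h3 : (2*m) * (2*m) = (m-1)*(2*m) + (m+1)*(2*m) := by
          rw [← add_mul]; congr 1; omega
        have h4 : a ≤ (m+1)*(2*m) := by nlinarith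
        omega
    _ ≤ 2^m * 2^m := Nat.mul_le_mul h1 h1

/-- uniform hypergraphs with large girth and many hyperedges -/
theorem exists_hyper (t g R N0 : ℕ) (ht : 2 ≤ t) (hg2 : 2 ≤ g) :
    ∃ N : ℕ, N0 < N ∧ ∃ H : Finset (Finset (Fin N)), (∀ e ∈ H, e.card = t) ∧ Gir (incH H) g ∧
      R * (N+1)^(R*N) ≤ 2^H.card ∧ N ≤ H.card := by
  obtain ⟨A, hA⟩ : ∃ A, A = 2 ^ (1 + t) := ⟨_, rfl⟩
  obtain ⟨k, hk1, hk⟩ := exists_pow_ge (2 * ((2 + t) * R * A + R + t + N0 + A) + 2) (2 * (g * R * A))
  obtain ⟨s, hs1⟩ : ∃ s, s + 1 = 2^k := ⟨2^k - 1, by have : 1 ≤ 2^k := Nat.one_le_two_pow; omega⟩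
  have hk' : 2 * ((2 + t) * R * A) + 2 * R + 2 * t + 2 * N0 + 2 * A + 2 + 2 * (g * R * A * k) ≤
      s + 1 := by
    rw [hs1]
    refine le_trans (le_of_eq ?_) hk
    ring
  obtain ⟨N, hN⟩ : ∃ N, N = 2 * (t * (s+1)^g) := ⟨_, rfl⟩
  have hkg : (s+1)^g = 2^(k*g) := by rw [hs1, ← pow_mul]
  obtain ⟨P, hP⟩ : ∃ P, P = 2^(k*g) := ⟨_, rfl⟩
  rw [← hP] at hkg
  obtain ⟨H, h1, h2, h3⟩ := exists_hyper0 (Fin N) t s g ht (by omega) hg2 (by simp [hN])
  rw [hkg] at hN h3
  have ht2 : t < 2^t := Nat.lt_two_pow_self
  have hA2 : A = 2 * 2^t := by rw [hA, pow_add, pow_one]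
  have hNle : N ≤ A * P := by
    rw [hN, hA2]
    have : t * P ≤ 2^t * P := Nat.mul_le_mul_right _ ht2.le
    nlinarith
  have hP1 : 1 ≤ P := by rw [hP]; exact Nat.one_le_two_pow
  have hA1 : 1 ≤ A := by rw [hA]; exact Nat.one_le_two_pow
  have hN1 : N + 1 ≤ 2^(2+t+k*g) := by
    have e1 : 2^(2+t+k*g) = 2 * (A * P) := by
      rw [hA, hP, ← pow_add, ← pow_succ']; congr 1; ring
    have : 1 ≤ A * P := Nat.mul_le_mul hA1 hP1
    omega
  refine ⟨N, ?_, H, h1, h2, ?_, ?_⟩
  · have hk2 : s + 1 ≤ P := by
      rw [hs1, hP]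
      exact Nat.pow_le_pow_right (by norm_num) (by nlinarith)
    have : P ≤ N := by rw [hN]; nlinarith
    omega
  · have e1 : R * (N+1)^(R*N) ≤ 2^(R + (2+t+k*g)*(R*N)) := by
      rw [pow_add]
      apply Nat.mul_le_mul Nat.lt_two_pow_self.le
      rw [pow_mul 2]
      exact Nat.pow_le_pow_left hN1 (R*N)
    refine e1.trans (Nat.pow_le_pow_right (by norm_num) ?_)
    refine le_trans ?_ h3
    have e2 : (2+t+k*g)*(R*N) ≤ ((2+t+k*g)*R*A) * P := by
      calc (2+t+k*g)*(R*N) ≤ (2+t+k*g)*(R*(A * P)) :=
            Nat.mul_le_mul_left _ (Nat.mul_le_mul_left _ hNle)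
        _ = _ := by ring
    have e3 : R ≤ R * P := Nat.le_mul_of_pos_right _ hP1
    have e4 : (R + (2+t+k*g)*R*A) * P ≤ s * P := by
      apply Nat.mul_le_mul_right
      have e5 : (2+t+k*g)*R*A = (2+t)*R*A + g*R*A*k := by ring
      omega
    have e7 : (R + (2+t+k*g)*R*A) * P = R * P + ((2+t+k*g)*R*A) * P := by ring
    omega
  · refine le_trans (hNle.trans ?_) h3
    apply Nat.mul_le_mul_right
    omega

end FOMod384
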