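import Pool.Agent.FOMod384.Code

/-!
Near-twins in graphs transduced from graphs of very large girth.
-/

namespace FOMod384

open Classical

variable {W L : Type}

theorem exists_leaf {Γ : SimpleGraph W} {G : ℕ} (hg : Gir Γ G) (Y : Finset W)
    (hY : Y.Nonempty) (hc : Y.card ≤ G) :
    ∃ w ∈ Y, ∀ a ∈ Y, ∀ b ∈ Y, Γ.Adj w a → Γ.Adj w b → a = b := by
  by_contra hcon
  push Not at hcon
  have h1 : ∀ c w, w ∈ Y → ∃ d ∈ Y, Γ.Adj w d ∧ d ≠ c := by
    intro c w hw
    obtain ⟨a, ha, b, hb, h1, h2, h3⟩ := hcon w hw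
    by_cases hac : a = c
    · exact ⟨b, hb, h2, fun h => h3 (hac.trans h.symm)⟩
    · exact ⟨a, ha, h1, hac⟩
  choose! nx hnx using h1
  obtain ⟨w0, hw0⟩ := hY
  let sq : ℕ → W × W := fun n => Nat.rec (w0, w0) (fun _ s => (s.2, nx s.1 s.2)) n
  have hsq : ∀ i, sq (i+1) = ((sq i).2, nx (sq i).1 (sq i).2) := fun i => rfl
  have hmem : ∀ i, (sq i).2 ∈ Y := by
    intro i
    induction i with
    | zero => exact hw0
    | succ i ih => rw [hsq]; exact (hnx _ _ ih).1
  have hNB : ∀ k, NB Γ k (fun i => (sq i).2) := by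
    intro k
    refine ⟨fun i _ => ?_, fun i _ => ?_⟩
    · simp only
      rw [hsq i]; exact (hnx _ _ (hmem i)).2.1
    · simp only
      have e : (sq (i+2)).2 = nx (sq i).2 (sq (i+1)).2 := by
        rw [hsq (i+1), hsq i]
      rw [e]
      exact (hnx _ _ (hmem (i+1))).2.2.symm
  obtain ⟨i, hi, j, hj, hij, he⟩ := Finset.exists_ne_map_eq_of_card_lt_of_maps_to
    (s := Finset.range (Y.card + 1)) (t := Y) (f := fun i => (sq i).2) (by simp)
    (fun i _ => hmem i)
  simp only [Finset.mem_range] at hi hj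
  exact hij ((hNB Y.card).inj' hg hc (by omega) (by omega) he)

theorem exists_parent {Γ : SimpleGraph W} {G : ℕ} (hg : Gir Γ G) :
    ∀ (n : ℕ) (Y : Finset W), Y.card = n → n ≤ G →
    ∃ (rk : W → ℕ) (par : W → Option W),
      (∀ a ∈ Y, ∀ b, par a = some b → b ∈ Y ∧ Γ.Adj a b ∧ rk a < rk b) ∧
      (∀ a ∈ Y, ∀ b ∈ Y, Γ.Adj a b → par a = some b ∨ par b = some a) := by
  intro n
  induction n with
  | zero =>
    intro Y hY _
    have : Y = ∅ := Finset.card_eq_zero.1 hY
    subst this
    exact ⟨fun _ => 0, fun _ => none, by simp, by simp⟩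
  | succ n ih =>
    intro Y hY hn
    obtain ⟨w, hw, hleaf⟩ := exists_leaf hg Y (Finset.card_pos.1 (by omega)) (by omega)
    obtain ⟨rk, par, h1, h2⟩ := ih (Y.erase w) (by rw [Finset.card_erase_of_mem hw]; omega)
      (by omega)
    by_cases hb : ∃ b ∈ Y, Γ.Adj w b
    · obtain ⟨b, hbY, hwb⟩ := hb
      refine ⟨fun a => if a = w then 0 else rk a + 1, fun a => if a = w then some b else par a,
        ?_, ?_⟩
      · intro a ha c hc
        by_cases haw : a = w
        · simp only [haw, if_true, Option.some.injEq] at hc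
          subst hc
          have hne : b ≠ w := hwb.ne'
          refine ⟨hbY, haw ▸ hwb, ?_⟩
          simp [haw, hne]
        · simp only [haw, if_false] at hc
          obtain ⟨g1, g2, g3⟩ := h1 a (Finset.mem_erase.2 ⟨haw, ha⟩) c hc
          have hcw := (Finset.mem_erase.1 g1).1
          refine ⟨(Finset.mem_erase.1 g1).2, g2, ?_⟩
          simp [haw, hcw, g3]
      · intro a ha c hc hac
        by_cases haw : a = w
        · left
          subst haw
          simp only [if_true, Option.some.injEq]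
          exact hleaf b hbY c hc hwb hac
        · by_cases hcw : c = w
          · right
            subst hcw
            simp only [if_true, Option.some.injEq]
            exact hleaf b hbY a ha hwb hac.symm
          · have := h2 a (Finset.mem_erase.2 ⟨haw, ha⟩) c (Finset.mem_erase.2 ⟨hcw, hc⟩) hac
            simpa [haw, hcw] using this
    · push Not at hb
      refine ⟨fun a => if a = w then 0 else rk a + 1, fun a => if a = w then none else par a,
        ?_, ?_⟩
      · intro a ha c hc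
        by_cases haw : a = w
        · simp [haw] at hc
        · simp only [haw, if_false] at hc
          obtain ⟨g1, g2, g3⟩ := h1 a (Finset.mem_erase.2 ⟨haw, ha⟩) c hc
          have hcw := (Finset.mem_erase.1 g1).1
          refine ⟨(Finset.mem_erase.1 g1).2, g2, ?_⟩
          simp [haw, hcw, g3]
      · intro a ha c hc hac
        by_cases haw : a = w
        · subst haw; exact absurd hac (hb c hc)
        · by_cases hcw : c = w
          · subst hcw; exact absurd hac.symm (hb a ha)
          · have := h2 a (Finset.mem_erase.2 ⟨haw, ha⟩) c (Finset.mem_erase.2 ⟨hcw, hc⟩) hac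
            simpa [haw, hcw] using this

/-- a chain of parents -/
def Chain (par : W → Option W) (j : ℕ) (v : ℕ → W) : Prop := ∀ i, i < j → par (v i) = some (v (i+1))

/-- `w` is an ancestor of `a` -/
def Anc (par : W → Option W) (a w : W) : Prop := ∃ j v, Chain par j v ∧ v 0 = a ∧ v j = w

theorem Anc.refl (par : W → Option W) (a : W) : Anc par a a :=
  ⟨0, fun _ => a, fun i hi => by omega, rfl, rfl⟩

theorem Anc.tail {par : W → Option W} {a w p : W} (h : Anc par a w) (hp : par w = some p) :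
    Anc par a p := by
  obtain ⟨j, v, h1, h2, h3⟩ := h
  refine ⟨j+1, fun i => if i ≤ j then v i else p, ?_, by simp [h2], by simp⟩
  intro i hi
  rcases Nat.lt_or_ge i j with h4 | h4
  · have e1 : i ≤ j := by omega
    have e2 : i + 1 ≤ j := by omega
    simp only [e1, e2, if_true]; exact h1 i h4
  · have : i = j := by omega
    subst this
    simp [h3, hp]

theorem Anc.head {par : W → Option W} {a b w : W} (h : Anc par b w) (hp : par a = some b) :
    Anc par a w := by
  obtain ⟨j, v, h1, h2, h3⟩ := h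
  refine ⟨j+1, fun i => if i = 0 then a else v (i-1), ?_, by simp, by simp [h3]⟩
  intro i hi
  rcases Nat.eq_zero_or_pos i with rfl | h4
  · simp [hp, h2]
  · have e1 : i ≠ 0 := by omega
    have e2 : i - 1 + 1 = i := by omega
    have := h1 (i-1) (by omega)
    rw [e2] at this
    simp [e1, this]

theorem Anc.of_head {par : W → Option W} {a b w : W} (h : Anc par a w) (hp : par a = some b)
    (hne : a ≠ w) : Anc par b w := by
  obtain ⟨j, v, h1, h2, h3⟩ := h
  rcases Nat.eq_zero_or_pos j with rfl | hj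
  · exact absurd (h2.symm.trans h3) hne
  · have h4 := h1 0 hj
    rw [h2, hp] at h4
    simp only [zero_add, Option.some.injEq] at h4
    refine ⟨j - 1, fun i => v (i+1), fun i hi => h1 (i+1) (by omega), h4.symm, ?_⟩
    have e : j - 1 + 1 = j := by omega
    simp only [e]; exact h3

/-- crossing lemma -/
theorem exists_exit (P : ℕ → Prop) (k : ℕ) (h0 : P 0) (hk : ¬ P k) :
    ∃ i, i < k ∧ P i ∧ ¬ P (i+1) := by
  by_contra hcon
  push Not at hcon
  have : ∀ i, i ≤ k → P i := by
    intro i
    induction i with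
    | zero => intro _; exact h0
    | succ i ih => intro hi; exact hcon i (by omega) (ih (by omega))
  exact hk (this k le_rfl)

section tree

variable {Γ : SimpleGraph W} {U : Finset W} {rk : W → ℕ} {par : W → Option W}

theorem Chain.mem (h1 : ∀ a ∈ U, ∀ b, par a = some b → b ∈ U ∧ Γ.Adj a b ∧ rk a < rk b) {j : ℕ}
    {v : ℕ → W} (hv : Chain par j v) (h0 : v 0 ∈ U) : ∀ i, i ≤ j → v i ∈ U := by
  intro i
  induction i with
  | zero => intro _; exact h0
  | succ i ih => intro hi; exact (h1 _ (ih (by omega)) _ (hv i (by omega))).1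

theorem Chain.rk_lt (h1 : ∀ a ∈ U, ∀ b, par a = some b → b ∈ U ∧ Γ.Adj a b ∧ rk a < rk b) {j : ℕ}
    {v : ℕ → W} (hv : Chain par j v) (h0 : v 0 ∈ U) : ∀ i i', i < i' → i' ≤ j →
      rk (v i) < rk (v i') := by
  intro i i' hii
  induction i' with
  | zero => omega
  | succ i' ih =>
    intro hi'
    have := (h1 _ (hv.mem h1 h0 i' (by omega)) _ (hv i' (by omega))).2.2
    rcases Nat.lt_or_ge i i' with h2 | h2
    · exact (ih h2 (by omega)).trans this
    · have : i = i' := by omega
      subst this; assumption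

theorem Chain.nb (h1 : ∀ a ∈ U, ∀ b, par a = some b → b ∈ U ∧ Γ.Adj a b ∧ rk a < rk b) {j : ℕ}
    {v : ℕ → W} (hv : Chain par j v) (h0 : v 0 ∈ U) : NB Γ j v := by
  refine ⟨fun i hi => (h1 _ (hv.mem h1 h0 i hi.le) _ (hv i hi)).2.1, fun i hi he => ?_⟩
  have := hv.rk_lt h1 h0 i (i+2) (by omega) hi
  rw [he] at this
  omega

theorem Chain.lt_card (h1 : ∀ a ∈ U, ∀ b, par a = some b → b ∈ U ∧ Γ.Adj a b ∧ rk a < rk b)
    {j : ℕ} {v : ℕ → W} (hv : Chain par j v) (h0 : v 0 ∈ U) : j < U.card := by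
  by_contra hcon
  push Not at hcon
  obtain ⟨i, hi, i', hi', hii, he⟩ := Finset.exists_ne_map_eq_of_card_lt_of_maps_to
    (s := Finset.range (j + 1)) (t := U) (f := v) (by simp; omega)
    (fun i hi => hv.mem h1 h0 i (by simp at hi; omega))
  simp only [Finset.mem_range] at hi hi'
  rcases lt_or_gt_of_ne hii with h | h
  · have := hv.rk_lt h1 h0 i i' h (by omega)
    rw [he] at this; omega
  · have := hv.rk_lt h1 h0 i' i h (by omega)
    rw [he] at this; omega

theorem Anc.rk_le (h1 : ∀ a ∈ U, ∀ b, par a = some b → b ∈ U ∧ Γ.Adj a b ∧ rk a < rk b)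
    {a w : W} (ha : a ∈ U) (h : Anc par a w) : w ∈ U ∧ (a = w ∨ rk a < rk w) := by
  obtain ⟨j, v, g1, rfl, rfl⟩ := h
  refine ⟨g1.mem h1 ha j le_rfl, ?_⟩
  rcases Nat.eq_zero_or_pos j with rfl | hj
  · left; rfl
  · right; exact g1.rk_lt h1 ha 0 j hj le_rfl

/-- a walk inside `U` which leaves the subtree of `w` does so from `w` to its parent -/
theorem exit_parent (h2 : ∀ a ∈ U, ∀ b ∈ U, Γ.Adj a b → par a = some b ∨ par b = some a)
    {w : W} {k : ℕ} {u : ℕ → W} (hu : NB Γ k u) (hU : ∀ i, i ≤ k → u i ∈ U)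
    (h0 : Anc par (u 0) w) (hk : ¬ Anc par (u k) w) :
    ∃ i, i < k ∧ u i = w ∧ par w = some (u (i+1)) := by
  obtain ⟨i, hi, hA, hB⟩ := exists_exit (fun i => Anc par (u i) w) k h0 hk
  rcases h2 _ (hU i (by omega)) _ (hU (i+1) (by omega)) (hu.1 i hi) with h | h
  · by_cases hne : u i = w
    · exact ⟨i, hi, hne, hne ▸ h⟩
    · exact absurd (hA.of_head h hne) hB
  · exact absurd (hA.head h) hB

/-- transfer of a short walk from `x` to `x'` when both have the same code towards the hub `p` -/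
theorem transfer {G ρ : ℕ} (hg : Gir Γ G) (hG : ρ + U.card ≤ G) {lam : W → L}
    (h1 : ∀ a ∈ U, ∀ b, par a = some b → b ∈ U ∧ Γ.Adj a b ∧ rk a < rk b)
    (h2 : ∀ a ∈ U, ∀ b ∈ U, Γ.Adj a b → par a = some b ∨ par b = some a)
    {p x x' : W} (hx : x ∈ U) (hx' : x' ∈ U) {j j' : ℕ} {v v' : ℕ → W}
    (hv : Chain par (j+1) v) (hv0 : v 0 = x) (hvj : v (j+1) = p)
    (hv' : Chain par (j'+1) v') (hv0' : v' 0 = x') (hvj' : v' (j'+1) = p)
    (hcode : j + 1 ≤ ρ → j = j' ∧ ∀ i, i ≤ j + 1 → lam (v i) = lam (v' i))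
    {k : ℕ} {u : ℕ → W} (hk : k ≤ ρ) (hu : NB Γ k u) (hU : ∀ i, i ≤ k → u i ∈ U)
    (hu0 : u 0 = x) (hy : ¬ Anc par (u k) (v j)) (hy' : ¬ Anc par (u k) (v' j')) :
    ∃ u', NB Γ k u' ∧ u' 0 = x' ∧ u' k = u k ∧ ∀ i, i ≤ k → lam (u i) = lam (u' i) := by
  have hpar : par (v j) = some p := by rw [hv j (by omega), hvj]
  have hpar' : par (v' j') = some p := by rw [hv' j' (by omega), hvj']
  have hanc : Anc par (u 0) (v j) := ⟨j, v, fun i hi => hv i (by omega), by rw [hv0, hu0], rfl⟩
  obtain ⟨i, hi, hiw, hip⟩ := exit_parent h2 hu hU hanc hy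
  have hip' : u (i+1) = p := by
    rw [hpar] at hip
    exact (Option.some.inj hip).symm
  have hnbv := hv.nb h1 (by rw [hv0]; exact hx)
  have hnbv' := hv'.nb h1 (by rw [hv0']; exact hx')
  have hlt := hv.lt_card h1 (by rw [hv0]; exact hx)
  obtain ⟨e1, e2⟩ := NB.unique hg (i+1) (j+1) u v (by omega) (hu.mono (by omega)) hnbv
    (by rw [hu0, hv0]) (by rw [hip', hvj])
  have hij : i = j := by omega
  subst hij
  obtain ⟨rfl, hlab⟩ := hcode (by omega)
  have hsub : NB Γ (k - (i+1)) (fun a => u (i + 1 + a)) := hu.sub (i+1) _ (by omega)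
  have hjun : ∀ k', i + 1 = k' + 1 → 0 < k - (i+1) → v' k' ≠ (fun a => u (i + 1 + a)) 1 := by
    intro k' hk' hpos he
    have : k' = i := by omega
    subst this
    simp only at he
    have hnb3 : NB Γ (k - (k'+1+1)) (fun a => u (k' + 1 + 1 + a)) := hu.sub (k'+1+1) _ (by omega)
    obtain ⟨a, ha, ha1, ha2⟩ := exit_parent h2 (w := v' k') hnb3 (fun a ha => hU _ (by omega))
      (by simp only [add_zero]; rw [← he]; exact Anc.refl _ _) (by
        have e : k' + 1 + 1 + (k - (k' + 1 + 1)) = k := by omega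
        simp only [e]; exact hy')
    rw [hpar'] at ha2
    have ha3 := (Option.some.inj ha2)
    rw [← hip'] at ha3
    have := hu.inj' hg (by omega) (i := k'+1) (j := k' + 1 + 1 + (a+1)) (by omega) (by omega) ha3
    omega
  have hcat := NB.append hnbv' hsub (by simp only [add_zero]; rw [hvj', hip']) hjun
  have hlen : i + 1 + (k - (i+1)) = k := by omega
  rw [hlen] at hcat
  have hglue : v' (i+1) = (fun a => u (i + 1 + a)) 0 := by simp only [add_zero]; rw [hvj', hip']
  refine ⟨_, hcat, ?_, ?_, ?_⟩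
  · rw [ccat_le (by omega), hv0']
  · rw [ccat_ge hglue (by omega)]
    simp only [hlen]
  · intro a ha
    rcases Nat.lt_or_ge (i+1) a with h3 | h3
    · rw [ccat_ge hglue (by omega)]
      have e : i + 1 + (a - (i+1)) = a := by omega
      simp only [e]
    · rw [ccat_le h3, e2 a h3]
      exact hlab a h3

end tree

theorem near_twins [Fintype L] {Γ : SimpleGraph W} (lam : W → L) (ρ : ℕ) (X : Finset W) (M : ℕ)
    (hM : (ρ+2) * (Fintype.card L)^(ρ+2) + Fintype.card L + 2 ≤ M) (hX : M ≤ X.card)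
    (hg : Gir Γ (2*ρ + X.card^2*(ρ+1))) :
    ∃ x ∈ X, ∃ x' ∈ X, x ≠ x' ∧
      (X.filter (fun y => ¬ Same Γ lam ρ x y x' y)).card ≤ 2*M := by
  -- the closure `U`
  have hwk : ∀ x y : W, ∃ (u : ℕ → W) (k : ℕ), k ≤ ρ ∧ u 0 = x ∧
      ((∃ k' v, k' ≤ ρ ∧ NB Γ k' v ∧ v 0 = x ∧ v k' = y) → NB Γ k u ∧ u k = y) := by
    intro x y
    by_cases h : ∃ k' v, k' ≤ ρ ∧ NB Γ k' v ∧ v 0 = x ∧ v k' = y
    · obtain ⟨k', v, h1, h2, h3, h4⟩ := h
      exact ⟨v, k', h1, h3, fun _ => ⟨h2, h4⟩⟩
    · exact ⟨fun _ => x, 0, by omega, rfl, fun h' => absurd h' h⟩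
  choose wk kk hkk hwk0 hwk using hwk
  let U : Finset W := ((X ×ˢ X) ×ˢ Finset.range (ρ+1)).image
    (fun t => wk t.1.1 t.1.2 (min t.2 (kk t.1.1 t.1.2)))
  have hUcard : U.card ≤ X.card^2*(ρ+1) := by
    refine Finset.card_image_le.trans ?_
    simp [Finset.card_product, sq]
  have hXU : ∀ x ∈ X, x ∈ U := by
    intro x hx
    refine Finset.mem_image.2 ⟨((x, x), 0), ?_, ?_⟩
    · simp [hx]
    · simp [hwk0]
  have hUc : ∀ x ∈ X, ∀ y ∈ X, ∀ k, k ≤ ρ → ∀ u, NB Γ k u → u 0 = x → u k = y →
      ∀ i, i ≤ k → u i ∈ U := by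
    intro x hx y hy k hk u hu h0 h1 i hi
    obtain ⟨g1, g2⟩ := hwk x y ⟨k, u, hk, hu, h0, h1⟩
    obtain ⟨e1, e2⟩ := NB.unique hg k (kk x y) u (wk x y) (by have := hkk x y; omega) hu g1
      (by rw [h0, hwk0]) (by rw [h1, g2])
    refine Finset.mem_image.2 ⟨((x, y), i), ?_, ?_⟩
    · simp [hx, hy]; omega
    · have : min i (kk x y) = i := by omega
      simp only [this]
      exact (e2 i hi).symm
  obtain ⟨rk, par, h1, h2⟩ := exists_parent hg U.card U rfl (by omega)
  -- the hub
  let ct : W → ℕ := fun p => (X.filter (fun x => Anc par x p)).card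
  -- from the hub on, everything is proved by the following claim
  have claim : ∀ (R : Finset W) (top : W → ℕ → (ℕ → W) → Prop), R ⊆ X → M ≤ R.card + 1 →
      (∀ x ∈ R, ∃ j v, Chain par j v ∧ v 0 = x ∧ top x j v) →
      (∀ x ∈ R, ∀ x' ∈ R, ∀ j v j' v', Chain par j v → v 0 = x → Chain par j' v' → v' 0 = x' →
        top x j v → top x' j' v' →
        (j + 1 ≤ ρ → j = j' ∧ ∀ i, i ≤ j + 1 → lam (v i) = lam (v' i)) →
        ∀ k u, k ≤ ρ → NB Γ k u → (∀ i, i ≤ k → u i ∈ U) → u 0 = x → ¬ Anc par (u k) (v j) →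
        ¬ Anc par (u k) (v' j') → ∃ u', NB Γ k u' ∧ u' 0 = x' ∧ u' k = u k ∧
          ∀ i, i ≤ k → lam (u i) = lam (u' i)) →
      (∀ x ∈ R, ∀ j v, Chain par j v → v 0 = x → top x j v → ct (v j) < M) →
      ∃ x ∈ X, ∃ x' ∈ X, x ≠ x' ∧
        (X.filter (fun y => ¬ Same Γ lam ρ x y x' y)).card ≤ 2*M := by
    intro R top hR hRM htop htr hct
    choose! jj vv hc hv0 ht using htop
    let code : W → (Fin (ρ+2) × (Fin (ρ+2) → L)) ⊕ L := fun x =>
      if h : jj x + 1 ≤ ρ then .inl (⟨jj x, by omega⟩, fun i => lam (vv x i)) else .inr (lam x)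
    obtain ⟨x, hx, x', hx', hne, hcode⟩ := Finset.exists_ne_map_eq_of_card_lt_of_maps_to
      (s := R) (t := Finset.univ) (f := code) (by
        rw [Finset.card_univ]
        simp only [Fintype.card_sum, Fintype.card_prod, Fintype.card_fin, Fintype.card_fun]
        omega) (fun _ _ => Finset.mem_univ _)
    have cpos : ∀ x (h : jj x + 1 ≤ ρ), code x =
        .inl (⟨jj x, by omega⟩, fun i => lam (vv x i)) := fun x h => dif_pos h
    have cneg : ∀ x, ¬ (jj x + 1 ≤ ρ) → code x = .inr (lam x) := fun x h => dif_neg h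
    have hcd : ∀ x x', code x = code x' → jj x + 1 ≤ ρ →
        jj x = jj x' ∧ ∀ i, i ≤ jj x + 1 → lam (vv x i) = lam (vv x' i) := by
      intro x x' hcode hj
      by_cases hj' : jj x' + 1 ≤ ρ
      · rw [cpos x hj, cpos x' hj'] at hcode
        simp only [Sum.inl.injEq, Prod.mk.injEq, Fin.mk.injEq] at hcode
        refine ⟨hcode.1, fun i hi => ?_⟩
        exact congrFun hcode.2 ⟨i, by omega⟩
      · rw [cpos x hj, cneg x' hj'] at hcode
        simp at hcode
    have hlabx : lam x = lam x' := by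
      by_cases hj : jj x + 1 ≤ ρ
      · have := (hcd x x' hcode hj).2 0 (by omega)
        rwa [hv0 x hx, hv0 x' hx'] at this
      · by_cases hj' : jj x' + 1 ≤ ρ
        · rw [cneg x hj, cpos x' hj'] at hcode
          simp at hcode
        · rw [cneg x hj, cneg x' hj'] at hcode
          simpa using hcode
    refine ⟨x, hR hx, x', hR hx', hne, ?_⟩
    have hsub : X.filter (fun y => ¬ Same Γ lam ρ x y x' y) ⊆
        X.filter (fun y => Anc par y (vv x (jj x))) ∪
        X.filter (fun y => Anc par y (vv x' (jj x'))) := by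
      intro y hy
      simp only [Finset.mem_filter, Finset.mem_union] at hy ⊢
      by_contra hcon
      push Not at hcon
      have hn1 := hcon.1 hy.1
      have hn2 := hcon.2 hy.1
      apply hy.2
      by_cases hnear : Near Γ ρ x y
      · left
        obtain ⟨k, hk, u, hu, hu0, huk⟩ := hnear.nb
        obtain ⟨u', g1, g2, g3, g4⟩ := htr x hx x' hx' (jj x) (vv x) (jj x') (vv x') (hc x hx)
          (hv0 x hx) (hc x' hx') (hv0 x' hx') (ht x hx) (ht x' hx') (hcd x x' hcode) k u hk hu
          (hUc x (hR hx) y hy.1 k hk u hu hu0 huk) hu0 (by rw [huk]; exact hn1)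
          (by rw [huk]; exact hn2)
        exact ⟨k, hk, u, u', hu, g1, hu0, huk, g2, by rw [g3, huk], g4⟩
      · right
        refine ⟨hnear, ?_, hlabx, rfl⟩
        intro hnear'
        obtain ⟨k, hk, u, hu, hu0, huk⟩ := hnear'.nb
        obtain ⟨u', g1, g2, g3, g4⟩ := htr x' hx' x hx (jj x') (vv x') (jj x) (vv x) (hc x' hx')
          (hv0 x' hx') (hc x hx) (hv0 x hx) (ht x' hx') (ht x hx) (hcd x' x hcode.symm) k u hk hu
          (hUc x' (hR hx') y hy.1 k hk u hu hu0 huk) hu0 (by rw [huk]; exact hn2)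
          (by rw [huk]; exact hn1)
        apply hnear
        have := g1.near.mono hk
        rw [g2, g3, huk] at this
        exact this
    refine (Finset.card_le_card hsub).trans ((Finset.card_union_le _ _).trans ?_)
    have c1 := hct x hx _ _ (hc x hx) (hv0 x hx) (ht x hx)
    have c2 := hct x' hx' _ _ (hc x' hx') (hv0 x' hx') (ht x' hx')
    simp only [ct] at c1 c2
    omega
  by_cases hhub : ∃ p ∈ U, M ≤ ct p
  · -- hub `p` of minimal rank
    obtain ⟨p, hp, hpmin⟩ := Finset.exists_min_image (U.filter (fun p => M ≤ ct p)) rk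
      (by obtain ⟨p, hp, hpM⟩ := hhub; exact ⟨p, by simp [hp, hpM]⟩)
    simp only [Finset.mem_filter] at hp hpmin
    refine claim ((X.filter (fun x => Anc par x p)).erase p)
      (fun x j v => par (v j) = some p) ?_ ?_ ?_ ?_ ?_
    · exact (Finset.erase_subset _ _).trans (Finset.filter_subset _ _)
    · have := hp.2
      have h3 := Finset.pred_card_le_card_erase (s := X.filter (fun x => Anc par x p)) (a := p)
      simp only [ct] at this
      omega
    · intro x hx
      simp only [Finset.mem_erase, Finset.mem_filter] at hx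
      obtain ⟨j, v, g1, g2, g3⟩ := hx.2.2
      rcases Nat.eq_zero_or_pos j with rfl | hj
      · exact absurd (g2.symm.trans g3) hx.1
      · refine ⟨j - 1, v, fun i hi => g1 i (by omega), g2, ?_⟩
        have e : j - 1 + 1 = j := by omega
        rw [g1 (j-1) (by omega), e, g3]
    · intro x hx x' hx' j v j' v' g1 g2 g3 g4 g5 g6 g7 k u hk hu hU hu0 hn hn'
      simp only [Finset.mem_erase, Finset.mem_filter] at hx hx'
      let w : ℕ → W := fun i => if i ≤ j then v i else p
      let w' : ℕ → W := fun i => if i ≤ j' then v' i else p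
      have hw : ∀ i, i ≤ j → w i = v i := fun i hi => by simp [w, hi]
      have hw' : ∀ i, i ≤ j' → w' i = v' i := fun i hi => by simp [w', hi]
      have hwp : w (j+1) = p := by simp [w]
      have hwp' : w' (j'+1) = p := by simp [w']
      have hcw : Chain par (j+1) w := by
        intro i hi
        rcases Nat.lt_or_ge i j with h | h
        · rw [hw i h.le, hw (i+1) h]; exact g1 i h
        · have : i = j := by omega
          subst this; rw [hwp, hw i le_rfl]; exact g5
      have hcw' : Chain par (j'+1) w' := by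
        intro i hi
        rcases Nat.lt_or_ge i j' with h | h
        · rw [hw' i h.le, hw' (i+1) h]; exact g3 i h
        · have : i = j' := by omega
          subst this; rw [hwp', hw' i le_rfl]; exact g6
      refine transfer hg (by omega) h1 h2 (p := p) (x := x) (x' := x') (hXU x hx.2.1)
        (hXU x' hx'.2.1) hcw (by rw [hw 0 (by omega), g2]) hwp hcw'
        (by rw [hw' 0 (by omega), g4]) hwp' ?_ hk hu hU hu0 (by rw [hw j le_rfl]; exact hn)
        (by rw [hw' j' le_rfl]; exact hn')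
      intro hj
      obtain ⟨e1, e2⟩ := g7 hj
      subst e1
      refine ⟨rfl, fun i hi => ?_⟩
      rcases Nat.lt_or_ge j i with h | h
      · have : i = j + 1 := by omega
        subst this; rw [hwp, hwp']
      · rw [hw i h, hw' i h]; exact e2 i hi
    · intro x hx j v g1 g2 g3
      simp only [Finset.mem_erase, Finset.mem_filter] at hx
      by_contra hcon
      push Not at hcon
      have hvU : v j ∈ U := g1.mem h1 (by rw [g2]; exact hXU x hx.2.1) j le_rfl
      have := hpmin (v j) ⟨hvU, hcon⟩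
      have h3 := (h1 _ hvU _ g3).2.2
      omega
  · push Not at hhub
    refine claim X (fun x j v => par (v j) = none) subset_rfl (by omega) ?_ ?_ ?_
    · intro x hx
      obtain ⟨w, hw, hwmax⟩ := Finset.exists_max_image (U.filter (fun w => Anc par x w)) rk
        ⟨x, by simp [hXU x hx, Anc.refl]⟩
      simp only [Finset.mem_filter] at hw hwmax
      obtain ⟨j, v, g1, g2, g3⟩ := hw.2
      refine ⟨j, v, g1, g2, ?_⟩
      rw [g3]
      rcases hpw : par w with _ | b
      · rfl
      · exfalso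
        have h3 := h1 w hw.1 b hpw
        have := hwmax b ⟨h3.1, hw.2.tail hpw⟩
        omega
    · intro x hx x' hx' j v j' v' g1 g2 g3 g4 g5 g6 g7 k u hk hu hU hu0 hn hn'
      exfalso
      obtain ⟨i, hi, e1, e2⟩ := exit_parent h2 hu hU
        (w := v j) ⟨j, v, g1, by rw [g2, hu0], rfl⟩ hn
      rw [g5] at e2
      simp at e2
    · intro x hx j v g1 g2 g3
      exact hhub _ (g1.mem h1 (by rw [g2]; exact hXU x hx) j le_rfl)

end FOMod384
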