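import Pool.Agent.FOMod384.Main
import Pool.Agent.FOMod384.Twins
import Pool.Agent.FOMod384.Enc

/-!
Existence of one level of the counterexample.
-/

namespace FOMod384

open Classical

variable {V E : Type} [Fintype V] [Fintype E]

/-- numbers used for the near-twin property -/
def Mtw (p : ℕ) : ℕ := (p+2) * p^(p+2) + p + 2

/-- `2 * Mtw p + 2` -/
def Ktw (p : ℕ) : ℕ := 2 * Mtw p + 2

/-- a constant -/
noncomputable def cst (p : ℕ) : ℕ :=
  Fintype.card ((Fin p → Fin (p+1)) → Fin p) * Fintype.card (Cd p → Bool)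

/-- a constant -/
noncomputable def Rcst (p : ℕ) : ℕ := (2 * cst p)^(4*(2*p+3)) + 8*(2*p+3) + Ktw p + 2

/-- the size of the hyperedges -/
def tsz (p : ℕ) : ℕ := 2 * (2^(16*(2*p+3)) * (p*p+p+1))

theorem card_Dat (p : ℕ) : Fintype.card (Dat V p) =
    (p^(Fintype.card V) * (Fintype.card V)^(Fintype.card V)) * cst p := by
  simp only [Dat, Fintype.card_prod, Fintype.card_fun, Fintype.card_fin, cst]
  ring

theorem card_fiber_le {p : ℕ} (S : Finset V) (La : V → Fin p) :
    (S.filter (fun v => (S.filter (fun v' => v' ≠ v ∧ La v' = La v)).card < p)).card ≤ p * p := by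
  have h := Finset.card_le_mul_card_image_of_maps_to
    (s := S.filter (fun v => (S.filter (fun v' => v' ≠ v ∧ La v' = La v)).card < p))
    (t := (Finset.univ : Finset (Fin p))) (f := La) (fun _ _ => Finset.mem_univ _) p ?_
  · simpa using h
  intro l _
  rcases Finset.eq_empty_or_nonempty ((S.filter (fun v =>
    (S.filter (fun v' => v' ≠ v ∧ La v' = La v)).card < p)).filter (fun v => La v = l)) with h0 | ⟨v0, h0⟩
  · rw [h0]; simp
  · simp only [Finset.mem_filter] at h0
    have hsub : (S.filter (fun v =>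
        (S.filter (fun v' => v' ≠ v ∧ La v' = La v)).card < p)).filter (fun v => La v = l) ⊆
        insert v0 (S.filter (fun v' => v' ≠ v0 ∧ La v' = La v0)) := by
      intro v hv
      simp only [Finset.mem_filter, Finset.mem_insert] at hv ⊢
      by_cases hvv : v = v0
      · exact Or.inl hvv
      · exact Or.inr ⟨hv.1.1, hvv, by rw [hv.2, h0.2]⟩
    have := (Finset.card_le_card hsub).trans (Finset.card_insert_le _ _)
    omega

theorem level_aux (inc : E → Finset V) (p : ℕ) (hp : 1 ≤ p)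
    (hinc : ∀ e, (inc e).card = tsz p) (hg : Gir (incG (Ip inc)) (2*p+4))
    (hR : Rcst p * (Fintype.card V + 1)^(Rcst p * Fintype.card V) ≤ 2^(Fintype.card E))
    (hVE : Fintype.card V ≤ Fintype.card E) (hV1 : 4*(2*p+3) ≤ Fintype.card V) :
    ∃ (z : E → V) (b : E → Bool), (∀ e, z e ∈ inc e) ∧ ¬ Succ inc z p b ∧
      ¬ TW (Mtw p) (Ktw p) (fun x y => decide ((HB inc b).Adj x y)) := by
  set N := Fintype.card V with hN
  set cE := Fintype.card E with hcE
  obtain ⟨D, hD⟩ : ∃ D, D = 2*p+3 := ⟨_, rfl⟩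
  obtain ⟨R, hRdef⟩ : ∃ R, R = Rcst p := ⟨_, rfl⟩
  obtain ⟨a, ha⟩ : ∃ a, a = cE / (4*D) := ⟨_, rfl⟩
  have ha1 : 4*D*a ≤ cE := by rw [ha]; exact Nat.mul_div_le _ _
  have ha2 : cE < 4*D*(a+1) := by
    rw [ha]; exact Nat.lt_mul_div_succ cE (by omega)
  have ha3 : 1 ≤ a := by
    rw [ha]
    exact (Nat.one_le_div_iff (by omega)).2 (by rw [hD]; exact hV1.trans hVE)
  have ha4 : cE < 8*D*a := by
    have h1 : 4*D*(a+1) = 4*D*a + 4*D := by ring
    have h2 : 4*D ≤ 4*D*a := Nat.le_mul_of_pos_right _ ha3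
    have h3 : 8*D*a = 4*D*a + 4*D*a := by ring
    omega
  have hpN : p ≤ N := by omega
  rw [← hRdef] at hR
  have hR1 : (2 * cst p)^(4*D) ≤ R := by rw [hRdef, Rcst, ← hD]; omega
  have hR2 : 8*D ≤ R := by rw [hRdef, Rcst, ← hD]; omega
  have hR3 : Ktw p + 2 ≤ R := by rw [hRdef, Rcst, ← hD]; omega
  have hR4 : 2 ≤ R := by omega
  have hN1 : 1 ≤ N + 1 := by omega
  -- the transversal
  have ht2 : 2 ≤ tsz p := by
    unfold tsz
    have : 0 < 2^(16*(2*p+3)) * (p*p+p+1) := by positivity
    omega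
  have hXY : ∀ e, ∃ x y, x ∈ inc e ∧ y ∈ inc e ∧ x ≠ y := by
    intro e
    obtain ⟨x, hx, y, hy, hxy⟩ := Finset.one_lt_card.1 (by rw [hinc]; omega : 1 < (inc e).card)
    exact ⟨x, y, hx, hy, hxy⟩
  choose X Y hX hY hXY using hXY
  let B : (V → Fin p) ⊕ (V → V) → E → Finset V := fun i e => match i with
    | .inl La => (inc e).filter (fun v => ((inc e).filter (fun v' => v' ≠ v ∧ La v' = La v)).card < p)
    | .inr π => Finset.univ.filter (fun v => (Sum.inl v : V ⊕ E) ∈
      nodesOn (incG (Ip inc)) p (.inl (π (X e))) (.inl (π (Y e))))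
  have hB : ∀ i e, (B i e).card ≤ p*p+p+1 := by
    rintro (La | π) e
    · refine (card_fiber_le (inc e) La).trans (by omega)
    · have h1 : (B (.inr π) e).card ≤ p + 1 := by
        refine le_trans ?_ (card_nodesOn (incG (Ip inc)) p (.inl (π (X e))) (.inl (π (Y e))))
        refine Finset.card_le_card_of_injOn Sum.inl ?_ (fun a _ b _ h => Sum.inl_injective h)
        intro v hv
        exact (Finset.mem_filter.1 hv).2
      exact h1.trans (by omega)
  have hιle : p^N + N^N ≤ 2^cE := by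
    refine le_trans ?_ hR
    have h1 : p^N ≤ (N+1)^N := Nat.pow_le_pow_left (by omega) _
    have h2 : N^N ≤ (N+1)^N := Nat.pow_le_pow_left (by omega) _
    have h3 : (N+1)^N ≤ (N+1)^(R*N) := Nat.pow_le_pow_right hN1 (Nat.le_mul_of_pos_left _ (by omega))
    have h4 : 2 * (N+1)^(R*N) ≤ R * (N+1)^(R*N) := Nat.mul_le_mul_right _ hR4
    omega
  have hcount : Fintype.card ((V → Fin p) ⊕ (V → V)) * 2^cE * (p*p+p+1)^a < (tsz p)^a := by
    have e1 : Fintype.card ((V → Fin p) ⊕ (V → V)) = p^N + N^N := by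
      simp [Fintype.card_sum, Fintype.card_fun, hN]
    rw [e1]
    calc (p^N + N^N) * 2^cE * (p*p+p+1)^a ≤ 2^cE * 2^cE * (p*p+p+1)^a :=
          Nat.mul_le_mul_right _ (Nat.mul_le_mul_right _ hιle)
      _ ≤ 2^(8*D*a) * 2^(8*D*a) * (p*p+p+1)^a := by
          have : 2^cE ≤ 2^(8*D*a) := Nat.pow_le_pow_right (by norm_num) ha4.le
          exact Nat.mul_le_mul_right _ (Nat.mul_le_mul this this)
      _ = (2^(16*D) * (p*p+p+1))^a := by
          rw [mul_pow, ← pow_add, ← pow_mul]
          congr 2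
          ring
      _ < (tsz p)^a := by
          apply Nat.pow_lt_pow_left _ (by omega)
          unfold tsz
          rw [← hD]
          have : 0 < 2^(16*D) * (p*p+p+1) := by positivity
          omega
  obtain ⟨z, hz, hzB⟩ := exists_transversal inc (tsz p) (p*p+p+1) a (by omega) hinc B hB hcount
  have hU1 : ∀ La : V → Fin p, (Finset.univ.filter (fun e =>
      ((inc e).filter (fun v => v ≠ z e ∧ La v = La (z e))).card < p)).card < a := by
    intro La
    refine lt_of_le_of_lt (Finset.card_le_card ?_) (hzB (.inl La))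
    intro e he
    have he' := (Finset.mem_filter.1 he).2
    exact Finset.mem_filter.2 ⟨Finset.mem_univ _, Finset.mem_filter.2 ⟨hz e, he'⟩⟩
  have hU2 : ∀ π : V → V, (Finset.univ.filter (fun e => (Sum.inl (z e) : V ⊕ E) ∈
      nodesOn (incG (Ip inc)) p (.inl (π (X e))) (.inl (π (Y e))))).card < a := by
    intro π
    refine lt_of_le_of_lt (Finset.card_le_card ?_) (hzB (.inr π))
    intro e he
    have he' := (Finset.mem_filter.1 he).2
    exact Finset.mem_filter.2 ⟨Finset.mem_univ _, Finset.mem_filter.2 ⟨Finset.mem_univ _, he'⟩⟩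
  have hs := count_succ hp hg X Y hXY hX hY hU1 hU2 (by rw [← hD]; exact ha1)
  -- the second bad set
  have hs2 : (Finset.univ.filter (fun b : E → Bool =>
      TW (Mtw p) (Ktw p) (fun x y => decide ((HB inc b).Adj x y)))).card ≤
      (N + 1)^((Ktw p + 2) * N) := by
    refine le_trans ?_ (card_GG (V := V) (Mtw p) (Ktw p) (by unfold Ktw; omega))
    refine Finset.card_le_card_of_injOn (fun b x y => decide ((HB inc b).Adj x y)) ?_ ?_
    · intro b hb
      have hb' := (Finset.mem_filter.1 (Finset.mem_coe.1 hb)).2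
      refine Finset.mem_coe.2 (Finset.mem_filter.2 ⟨Finset.mem_univ _, ?_, ?_, hb'⟩)
      · intro x y
        exact decide_eq_decide.2 ((HB inc b).adj_comm x y)
      · intro x
        simp
    · intro b _ b' _ h
      funext e
      have h1 := congrFun (congrFun h (X e)) (Y e)
      simp only [decide_eq_decide] at h1
      have hg4 : Gir (incG (Ip inc)) 4 := hg.mono (by omega)
      rw [HB_iff hg4 (hXY e) (hX e) (hY e), HB_iff hg4 (hXY e) (hX e) (hY e)] at h1
      exact Bool.eq_iff_iff.2 h1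
  -- numerics
  have hnum2 : 2 * (N + 1)^((Ktw p + 2) * N) ≤ 2^cE := by
    refine le_trans ?_ hR
    apply Nat.mul_le_mul hR4
    exact Nat.pow_le_pow_right hN1 (Nat.mul_le_mul_right _ hR3)
  have hDat : 2 * Fintype.card (Dat V p) < 2^(2*a) := by
    by_contra hcon
    push Not at hcon
    have h1 : (2^(2*a))^(4*D) ≤ (2 * Fintype.card (Dat V p))^(4*D) := Nat.pow_le_pow_left hcon _
    have h2 : (2^(2*a))^(4*D) = 2^(8*D*a) := by rw [← pow_mul]; congr 1; ring
    have h3 : 2^cE < 2^(8*D*a) := Nat.pow_lt_pow_right (by norm_num) ha4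
    have h4 : (2 * Fintype.card (Dat V p))^(4*D) ≤ R * (N+1)^(R*N) := by
      have h5 : 2 * Fintype.card (Dat V p) = (2 * cst p) * (p^N * N^N) := by
        rw [card_Dat]; ring
      rw [h5, mul_pow]
      apply Nat.mul_le_mul hR1
      have h6 : p^N * N^N ≤ (N+1)^(2*N) := by
        rw [two_mul, pow_add]
        exact Nat.mul_le_mul (Nat.pow_le_pow_left (by omega) _) (Nat.pow_le_pow_left (by omega) _)
      refine (Nat.pow_le_pow_left h6 _).trans ?_
      rw [← pow_mul]
      apply Nat.pow_le_pow_right hN1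
      calc 2*N*(4*D) = (8*D)*N := by ring
        _ ≤ R*N := Nat.mul_le_mul_right _ hR2
    omega
  have hnum1 : 2 * (Fintype.card (Dat V p) * 2^(cE - 2*a)) < 2^cE := by
    have h1 : 2*a ≤ cE := by
      have : 2*a ≤ 4*D*a := Nat.mul_le_mul_right _ (by omega)
      omega
    have h2 : 2^cE = 2^(2*a) * 2^(cE - 2*a) := by rw [← pow_add]; congr 1; omega
    rw [h2, ← mul_assoc]
    exact Nat.mul_lt_mul_of_pos_right hDat (by positivity)
  by_contra hcon
  push Not at hcon
  have hcov : (Finset.univ : Finset (E → Bool)) ⊆ (Finset.univ.filter (fun b => Succ inc z p b)) ∪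
      (Finset.univ.filter (fun b : E → Bool =>
        TW (Mtw p) (Ktw p) (fun x y => decide ((HB inc b).Adj x y)))) := by
    intro b _
    by_cases h1 : Succ inc z p b
    · exact Finset.mem_union_left _ (Finset.mem_filter.2 ⟨Finset.mem_univ _, h1⟩)
    · exact Finset.mem_union_right _ (Finset.mem_filter.2 ⟨Finset.mem_univ _, hcon z b hz h1⟩)
  have h1 := (Finset.card_le_card hcov).trans (Finset.card_union_le _ _)
  rw [Finset.card_univ, Fintype.card_fun, Fintype.card_bool, ← hcE] at h1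
  rw [← hcE] at hs
  omega

end FOMod384
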