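import Pool.Agent.FOMod384.Basic
import Pool.Agent.FOMod384.Defs

/-!
Locality of first-order formulas in incidence graphs of large girth.
-/

namespace FOMod384

open Classical

/-- incidence graph -/
def incG {V E : Type} (I : V → E → Prop) : SimpleGraph (V ⊕ E) where
  Adj a b := match a, b with
    | .inl v, .inr e => I v e
    | .inr e, .inl v => I v e
    | _, _ => False
  symm := ⟨by rintro (v | e) (w | f) h <;> exact h⟩
  loopless := ⟨by rintro (v | e) h <;> simp at h⟩

@[simp] theorem incG_lr {V E : Type} (I : V → E → Prop) (v : V) (e : E) :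
    (incG I).Adj (.inl v) (.inr e) ↔ I v e := Iff.rfl

@[simp] theorem incG_rl {V E : Type} (I : V → E → Prop) (v : V) (e : E) :
    (incG I).Adj (.inr e) (.inl v) ↔ I v e := Iff.rfl

@[simp] theorem incG_ll {V E : Type} (I : V → E → Prop) (v w : V) :
    (incG I).Adj (.inl v) (.inl w) ↔ False := Iff.rfl

@[simp] theorem incG_rr {V E : Type} (I : V → E → Prop) (e f : E) :
    (incG I).Adj (.inr e) (.inr f) ↔ False := Iff.rfl

/-- the collinearity graph: two points are adjacent if they lie in a common hyperedge -/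
def gG {V E : Type} (I : V → E → Prop) : SimpleGraph V where
  Adj x y := x ≠ y ∧ ∃ e, I x e ∧ I y e
  symm := ⟨fun _ _ h => ⟨h.1.symm, h.2.imp fun _ h => ⟨h.2, h.1⟩⟩⟩
  loopless := ⟨fun _ h => h.1 rfl⟩

/-- labels of hyperedges are determined by the thresholded label counts of their points -/
def DET {V E L : Type} [Fintype V] [Fintype E] (I : V → E → Prop) (lam : V ⊕ E → L) (N : ℕ) :
    Prop :=
  ∀ e e' : E, (∀ l, min N (cnt (incG I) lam (.inr e) l) = min N (cnt (incG I) lam (.inr e') l)) →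
    lam (.inr e) = lam (.inr e')

/-- labels distinguish points from hyperedges -/
def Side {V E L : Type} (lam : V ⊕ E → L) : Prop :=
  ∀ w w', lam w = lam w' → w.isLeft = w'.isLeft

theorem min_sum_eq {ι : Type} (s : Finset ι) (a b : ι → ℕ) {N N' : ℕ} (hN : N ≤ N')
    (h : ∀ i ∈ s, min N' (a i) = min N' (b i)) : min N (∑ i ∈ s, a i) = min N (∑ i ∈ s, b i) := by
  by_cases hh : ∃ i ∈ s, N' ≤ a i
  · obtain ⟨i, hi, ha⟩ := hh
    have h1 := h i hi
    have hb : N' ≤ b i := by
      rw [min_eq_left ha] at h1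
      rw [h1]; exact min_le_right _ _
    have s1 : a i ≤ ∑ i ∈ s, a i := Finset.single_le_sum (fun _ _ => Nat.zero_le _) hi
    have s2 : b i ≤ ∑ i ∈ s, b i := Finset.single_le_sum (fun _ _ => Nat.zero_le _) hi
    rw [min_eq_left (by omega), min_eq_left (by omega)]
  · push Not at hh
    congr 1
    apply Finset.sum_congr rfl
    intro i hi
    have h1 := h i hi
    have h2 := hh i hi
    rw [min_eq_right h2.le] at h1
    have : b i < N' := by
      by_contra hcon
      push Not at hcon
      rw [min_eq_left hcon] at h1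
      omega
    rw [min_eq_right this.le] at h1
    exact h1

theorem cnt_comp {W L L' : Type} [Fintype W] [Fintype L'] (Γ : SimpleGraph W) (lam : W → L)
    (lam' : W → L') (f : L' → L) (hf : ∀ w, f (lam' w) = lam w) (w : W) (l : L) :
    cnt Γ lam w l = ∑ l' ∈ Finset.univ.filter (fun l' => f l' = l), cnt Γ lam' w l' := by
  unfold cnt
  rw [← Finset.card_biUnion]
  · congr 1
    ext u
    simp only [Finset.mem_filter, Finset.mem_univ, true_and, Finset.mem_biUnion]
    constructor
    · rintro ⟨h1, h2⟩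
      exact ⟨lam' u, by rw [hf, h2], h1, rfl⟩
    · rintro ⟨l', h1, h2, h3⟩
      refine ⟨h2, ?_⟩
      rw [← hf, h3, h1]
  · intro a _ b _ hab
    rw [Function.onFun, Finset.disjoint_left]
    intro u hu hu'
    simp only [Finset.mem_filter, Finset.mem_univ, true_and] at hu hu'
    exact hab (hu.2.symm.trans hu'.2)

theorem min_cnt_comp {W L L' : Type} [Fintype W] [Fintype L'] (Γ : SimpleGraph W) (lam : W → L)
    (lam' : W → L') (f : L' → L) (hf : ∀ w, f (lam' w) = lam w) {N N' : ℕ} (hN : N ≤ N')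
    {w w' : W} (h : ∀ l', min N' (cnt Γ lam' w l') = min N' (cnt Γ lam' w' l')) (l : L) :
    min N (cnt Γ lam w l) = min N (cnt Γ lam w' l) := by
  rw [cnt_comp Γ lam lam' f hf, cnt_comp Γ lam lam' f hf]
  exact min_sum_eq _ _ _ hN (fun i _ => h i)

theorem DET.of_refine {V E L L' : Type} [Fintype V] [Fintype E] [Fintype L'] {I : V → E → Prop}
    {lam : V ⊕ E → L} {lam' : V ⊕ E → L'} {N N' : ℕ} (hdet : DET I lam N) (hN : N ≤ N')
    (f : L' → L) (hf : ∀ w, f (lam' w) = lam w)
    (hE : ∀ e e', lam (.inr e) = lam (.inr e') →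
      (∀ l, min N' (cnt (incG I) lam' (.inr e) l) = min N' (cnt (incG I) lam' (.inr e') l)) →
      lam' (.inr e) = lam' (.inr e')) : DET I lam' N' := by
  intro e e' h
  exact hE e e' (hdet e e' (min_cnt_comp _ lam lam' f hf hN h)) h

/-- one refinement step -/
noncomputable def refine1 {W L : Type} [Fintype W] (Γ : SimpleGraph W) (N : ℕ) (lam : W → L) :
    W → L × (L → Fin (N+1)) :=
  fun w => (lam w, fun l => ⟨min N (cnt Γ lam w l), by omega⟩)

theorem refine1_thr {W L : Type} [Fintype W] (Γ : SimpleGraph W) (N : ℕ) (lam : W → L) :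
    Thr Γ N (refine1 Γ N lam) lam := by
  intro w w' h
  have h1 : lam w = lam w' := congrArg Prod.fst h
  refine ⟨h1, fun l => ?_⟩
  have h2 := congrFun (congrArg Prod.snd h) l
  simpa [refine1] using h2

theorem refine_steps (L : Type) [Fintype L] (N k ρ : ℕ) (hρ : 1 ≤ ρ) :
    ∃ (L' : Type) (_ : Fintype L'), ∀ (V E : Type) [Fintype V] [Fintype E] (I : V → E → Prop),
      Gir (incG I) (ρ + k) → ∀ lam : V ⊕ E → L, DET I lam N →
      ∃ lam' : V ⊕ E → L', DET I lam' N ∧ NearProp (incG I) N k lam' (ρ + k) lam ρ ∧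
        ∀ w w', lam' w = lam' w' → lam w = lam w' := by
  induction k with
  | zero =>
    refine ⟨L, inferInstance, fun V E _ _ I hg lam hdet => ⟨lam, hdet, ?_, fun _ _ h => h⟩⟩
    exact NearProp.zero _ _ _ _
  | succ k ih =>
    obtain ⟨L', _, ih⟩ := ih
    refine ⟨L' × (L' → Fin (N+1)), inferInstance, fun V E _ _ I hg lam hdet => ?_⟩
    obtain ⟨lam', h1, h2, h3⟩ := ih V E I (hg.mono (by omega)) lam hdet
    have hthr := refine1_thr (incG I) N lam'
    refine ⟨refine1 (incG I) N lam', ?_, NearProp.succ (ρ' := ρ + k) (by omega) hg hthr h2,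
      fun w w' h => h3 _ _ (hthr w w' h).1⟩
    apply h1.of_refine le_rfl Prod.fst (fun w => rfl)
    intro e e' he hc
    refine Prod.ext he ?_
    funext l
    apply Fin.ext
    exact min_cnt_comp (incG I) lam' (refine1 (incG I) N lam') Prod.fst (fun w => rfl) le_rfl hc l

/-- existence of marks -/
theorem exists_marks {W L : Type} [Fintype W] (Γ : SimpleGraph W) (lam : W → L) (V : Set W)
    (R N0 : ℕ) :
    ∃ mk : W → Option (Fin (N0+1)), (∀ w, w ∉ V → mk w = none) ∧
      ∀ y ∈ V, (∃ Z : Finset W, Z.card = N0 + 1 ∧ (∀ z ∈ Z, lam z = lam y) ∧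
        ∀ z ∈ Z, ∀ z' ∈ Z, z ≠ z' → ¬ Near Γ R z z') ∨
      (∃ p, Near Γ R y p ∧ ∀ q, lam q = lam p → mk q = mk p → q = p) := by
  -- for each label choose a scattered set of maximal size `≤ N0 + 1`
  let Sc : L → Finset W → Prop := fun l Z => (∀ z ∈ Z, z ∈ V ∧ lam z = l) ∧
    (∀ z ∈ Z, ∀ z' ∈ Z, z ≠ z' → ¬ Near Γ R z z') ∧ Z.card ≤ N0 + 1
  have hex : ∀ l, ∃ Z, Sc l Z ∧ ∀ Z', Sc l Z' → Z'.card ≤ Z.card := by
    intro l
    have hne : (Finset.univ.filter (fun Z : Finset W => Sc l Z)).Nonempty :=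
      ⟨∅, by simp [Sc]⟩
    obtain ⟨Z, hZ, hmax⟩ := Finset.exists_max_image _ Finset.card hne
    exact ⟨Z, (Finset.mem_filter.1 hZ).2, fun Z' hZ' =>
      hmax Z' (Finset.mem_filter.2 ⟨Finset.mem_univ _, hZ'⟩)⟩
  choose Z hZ hmax using hex
  have henc : ∀ l, ∃ enc : W → Fin (N0+1), ∀ p ∈ Z l, ∀ q ∈ Z l, enc q = enc p → q = p := by
    intro l
    have hc : Fintype.card {z // z ∈ Z l} ≤ Fintype.card (Fin (N0+1)) := by
      simpa using (hZ l).2.2
    obtain ⟨emb⟩ := Function.Embedding.nonempty_of_card_le hc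
    refine ⟨fun w => if h : w ∈ Z l then emb ⟨w, h⟩ else 0, fun p hp q hq h => ?_⟩
    simp only [hp, hq, dite_true] at h
    exact congrArg Subtype.val (emb.injective h)
  choose enc henc using henc
  refine ⟨fun w => if w ∈ Z (lam w) then some (enc (lam w) w) else none, ?_, ?_⟩
  · intro w hw
    have : w ∉ Z (lam w) := fun h => hw ((hZ _).1 w h).1
    simp [this]
  · intro y hy
    rcases Nat.lt_or_ge N0 (Z (lam y)).card with h | h
    · left
      exact ⟨Z (lam y), le_antisymm (hZ _).2.2 h, fun z hz => ((hZ _).1 z hz).2, (hZ _).2.1⟩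
    · right
      obtain ⟨p, hp, hn⟩ : ∃ p ∈ Z (lam y), Near Γ R y p := by
        by_cases hyZ : y ∈ Z (lam y)
        · exact ⟨y, hyZ, Near.refl _ _⟩
        · by_contra hcon
          push Not at hcon
          have hsc : Sc (lam y) (insert y (Z (lam y))) := by
            refine ⟨?_, ?_, ?_⟩
            · intro z hz
              rcases Finset.mem_insert.1 hz with rfl | hz
              · exact ⟨hy, rfl⟩
              · exact (hZ _).1 z hz
            · intro z hz z' hz' hne
              rcases Finset.mem_insert.1 hz with h1 | h1 <;>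
                rcases Finset.mem_insert.1 hz' with h2 | h2
              · exact absurd (h1.trans h2.symm) hne
              · rw [h1]; exact hcon z' h2
              · rw [h2]; exact fun h => hcon z h1 h.symm
              · exact (hZ _).2.1 z h1 z' h2 hne
            · rw [Finset.card_insert_of_notMem hyZ]; omega
          have := hmax _ _ hsc
          rw [Finset.card_insert_of_notMem hyZ] at this
          omega
      have hpl : lam p = lam y := ((hZ _).1 p hp).2
      refine ⟨p, hn, fun q hq hmk => ?_⟩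
      have hp' : p ∈ Z (lam p) := by rw [hpl]; exact hp
      simp only [hp', if_true] at hmk
      by_cases hqZ : q ∈ Z (lam q)
      · simp only [hqZ, if_true, Option.some.injEq] at hmk
        rw [hq] at hmk hqZ
        exact henc (lam p) p hp' q hqZ hmk
      · simp [hqZ] at hmk

/-- the locality property of a formula -/
def Loc {m n : ℕ} (φ : Fml m n) : Prop :=
  ∃ ρ g : ℕ, 2 ≤ ρ ∧ ∀ N0 : ℕ, ∃ (L : Type) (_ : Fintype L) (N : ℕ),
    ∀ (V E : Type) [Fintype V] [Fintype E] (I : V → E → Prop), Gir (incG I) g →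
    ∀ U : Fin m → Set V, ∃ lam : V ⊕ E → L, DET I lam N ∧ Side lam ∧
      ∀ S : Finset ((V ⊕ E) × (V ⊕ E)), PIso (incG I) lam ρ S → S.card ≤ N0 →
        ∀ x x' : Fin n → V, (∀ i, ((Sum.inl (x i) : V ⊕ E), (Sum.inl (x' i) : V ⊕ E)) ∈ S) →
          (φ.Holds (gG I) U x ↔ φ.Holds (gG I) U x')

theorem loc_all {m : ℕ} : ∀ {n : ℕ} (φ : Fml m n), φ.IsFO → Loc φ := by
  intro n φ
  induction φ with
  | eq i j =>
    intro _
    refine ⟨2, 0, le_rfl, fun N0 => ⟨Bool, inferInstance, 0, fun V E _ _ I hg U =>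
      ⟨Sum.isLeft, fun e e' _ => rfl, fun w w' h => h, fun S hS hc x x' hx => ?_⟩⟩⟩
    have := hS.inj _ (hx i) _ (hx j)
    simp only [Sum.inl.injEq] at this
    exact this
  | adj i j =>
    intro _
    refine ⟨2, 0, le_rfl, fun N0 => ⟨Bool, inferInstance, 0, fun V E _ _ I hg U =>
      ⟨Sum.isLeft, fun e e' _ => rfl, fun w w' h => h, ?_⟩⟩⟩
    have key : ∀ S : Finset ((V ⊕ E) × (V ⊕ E)), PIso (incG I) Sum.isLeft 2 S →
        ∀ x y x' y' : V, ((Sum.inl x : V ⊕ E), (Sum.inl x' : V ⊕ E)) ∈ S →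
          ((Sum.inl y : V ⊕ E), (Sum.inl y' : V ⊕ E)) ∈ S → (gG I).Adj x y → (gG I).Adj x' y' := by
      rintro S hS x y x' y' hx hy ⟨hne, e, h1, h2⟩
      have hn : NB (incG I) 2 (fun i => if i = 0 then (Sum.inl x : V ⊕ E) else
          if i = 1 then Sum.inr e else Sum.inl y) := by
        refine ⟨fun i hi => ?_, fun i hi => ?_⟩
        · interval_cases i
          · simpa using h1
          · simpa using h2
        · have : i = 0 := by omega
          subst this; simpa using hne
      obtain ⟨e', he'⟩ := hS.cl1 2 le_rfl _ hn ⟨Sum.inl x', by simpa using hx⟩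
        ⟨Sum.inl y', by simpa using hy⟩ 1 (by omega)
      simp only [one_ne_zero, if_false, if_true] at he'
      have hl := hS.lab _ he'
      rcases e' with v | e'
      · simp at hl
      · refine ⟨?_, e', ?_, ?_⟩
        · intro h
          have := (hS.inj _ hx _ hy).2 (by simpa using h)
          simp at this
          exact hne this
        · have := (hS.adj _ hx _ he').1 (by simpa using h1)
          simpa using this
        · have := (hS.adj _ hy _ he').1 (by simpa using h2)
          simpa using this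
    intro S hS hc x x' hx
    constructor
    · exact key S hS _ _ _ _ (hx i) (hx j)
    · refine key _ hS.swap _ _ _ _ ?_ ?_
      · exact mem_swapS.2 (hx i)
      · exact mem_swapS.2 (hx j)
  | col a i =>
    intro _
    refine ⟨2, 0, le_rfl, fun N0 => ⟨Option (Fin m → Prop), inferInstance, 0,
      fun V E _ _ I hg U => ⟨fun w => match w with
        | .inl v => some (fun a => v ∈ U a)
        | .inr _ => none, fun e e' _ => rfl, ?_, fun S hS hc x x' hx => ?_⟩⟩⟩
    · rintro (v | e) (w | f) h <;> simp at h ⊢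
    · have := hS.lab _ (hx i)
      simp only [Option.some.injEq] at this
      exact iff_of_eq (congrFun this a)
  | neg φ ih =>
    intro hfo
    obtain ⟨ρ, g, hρ, h⟩ := ih hfo
    refine ⟨ρ, g, hρ, fun N0 => ?_⟩
    obtain ⟨L, _, N, h⟩ := h N0
    refine ⟨L, inferInstance, N, fun V E _ _ I hg U => ?_⟩
    obtain ⟨lam, h1, h2, h3⟩ := h V E I hg U
    exact ⟨lam, h1, h2, fun S hS hc x x' hx => not_congr (h3 S hS hc x x' hx)⟩
  | and φ ψ ih1 ih2 =>
    intro hfo
    obtain ⟨ρ, g, hρ, h⟩ := ih1 hfo.1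
    obtain ⟨ρ', g', hρ', h'⟩ := ih2 hfo.2
    refine ⟨max ρ ρ', max g g', by omega, fun N0 => ?_⟩
    obtain ⟨L, _, N, h⟩ := h N0
    obtain ⟨L', _, N', h'⟩ := h' N0
    refine ⟨L × L', inferInstance, max N N', fun V E _ _ I hg U => ?_⟩
    obtain ⟨lam, h1, h2, h3⟩ := h V E I (hg.mono (by omega)) U
    obtain ⟨lam', h1', h2', h3'⟩ := h' V E I (hg.mono (by omega)) U
    refine ⟨fun w => (lam w, lam' w), ?_, fun w w' h => h2 _ _ (congrArg Prod.fst h), ?_⟩
    · intro e e' hc
      refine Prod.ext (h1 e e' ?_) (h1' e e' ?_)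
      · exact min_cnt_comp _ lam (fun w => (lam w, lam' w)) Prod.fst (fun w => rfl) (by omega) hc
      · exact min_cnt_comp _ lam' (fun w => (lam w, lam' w)) Prod.snd (fun w => rfl) (by omega) hc
    · intro S hS hc x x' hx
      exact and_congr (h3 S (hS.weaken (fun w w' h => congrArg Prod.fst h) (by omega)) hc x x' hx)
        (h3' S (hS.weaken (fun w w' h => congrArg Prod.snd h) (by omega)) hc x x' hx)
  | ex φ ih =>
    rename_i n
    intro hfo
    obtain ⟨ρ, g, hρ, h⟩ := ih hfo
    refine ⟨6*ρ, max g (6*ρ), by omega, fun N0 => ?_⟩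
    obtain ⟨L, _, N, h⟩ := h (N0 + 5*ρ)
    set N1 := max N (N0 + 5*ρ) with hN1
    obtain ⟨L', _, href⟩ := refine_steps (L × Option (Fin (N0+1))) N1 (5*ρ) ρ (by omega)
    refine ⟨L', inferInstance, N1, fun V E _ _ I hg U => ?_⟩
    have e6 : ρ + 5*ρ = 6*ρ := by ring
    rw [e6] at href
    obtain ⟨lam, h1, h2, h3⟩ := h V E I (hg.mono (by omega)) U
    let VV : Set (V ⊕ E) := {w | w.isLeft = true}
    have hside : ∀ w w', lam w = lam w' → w ∈ VV → w' ∈ VV := by
      intro w w' hh hw
      have := h2 _ _ hh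
      simp only [VV, Set.mem_ofPred_eq] at hw ⊢
      rw [← this]; exact hw
    obtain ⟨mk, hmk1, hmk2⟩ := exists_marks (incG I) lam VV (2*ρ) N0
    let lam1 : V ⊕ E → L × Option (Fin (N0+1)) := fun w => (lam w, mk w)
    have hdet1 : DET I lam1 N1 := by
      apply h1.of_refine (by omega) Prod.fst (fun w => rfl)
      intro e e' he _
      refine Prod.ext he ?_
      simp only [lam1]
      rw [hmk1 (.inr e) (by simp [VV]), hmk1 (.inr e') (by simp [VV])]
    obtain ⟨lam', g1, g2, g3⟩ := href V E I (hg.mono (by omega)) lam1 hdet1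
    refine ⟨lam', g1, fun w w' hh => h2 _ _ (congrArg Prod.fst (g3 _ _ hh)), ?_⟩
    have key : ∀ S : Finset ((V ⊕ E) × (V ⊕ E)), PIso (incG I) lam' (6*ρ) S → S.card ≤ N0 →
        ∀ x x' : Fin n → V, (∀ i, ((Sum.inl (x i) : V ⊕ E), (Sum.inl (x' i) : V ⊕ E)) ∈ S) →
          (φ.ex.Holds (gG I) U x → φ.ex.Holds (gG I) U x') := by
      rintro S hS hc x x' hx ⟨v, hv⟩
      obtain ⟨S', s1, s2, s3, y', s4, s5⟩ := ext_lemma (lam := lam) (lam1 := lam1) (lam' := lam')
        (N := N1) (N0 := N0) VV (ρ := ρ) (by omega) (hg.mono (by omega))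
        (fun w w' h => congrArg Prod.fst h) g3 hside (by
          intro y hy
          rcases hmk2 y hy with h | ⟨p, hp1, hp2⟩
          · exact Or.inl h
          · exact Or.inr ⟨p, hp1, fun q hq => hp2 q (congrArg Prod.fst hq) (congrArg Prod.snd hq)⟩)
        g2 (by omega) hS hc (y := Sum.inl v) (by simp [VV])
      rcases y' with v' | e'
      · refine ⟨v', ?_⟩
        refine (h3 S' s2 (by omega) _ _ ?_).1 hv
        intro i
        refine Fin.lastCases ?_ (fun i => ?_) i
        · simpa using s4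
        · simpa using s1 (hx i)
      · simp [VV] at s5
    intro S hS hc x x' hx
    refine ⟨key S hS hc x x' hx, key _ hS.swap ((card_swapS S).trans hc) x' x fun i => ?_⟩
    exact mem_swapS.2 (hx i)
  | exMod a b h φ ih => intro hfo; exact absurd hfo (by simp [Fml.IsFO])

end FOMod384
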