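import Pool.Agent.FOMod384.CodeFun
import Pool.Agent.FOMod384.Comb
import Pool.Agent.FOMod384.Hyper

/-!
Counting the parity patterns that a first-order transduction can follow.
-/

namespace FOMod384

open Classical

variable {V E : Type} [Fintype V] [Fintype E]

/-- full incidence relation -/
abbrev Ip (inc : E → Finset V) : V → E → Prop := fun v e => v ∈ inc e

/-- incidence relation where `z e` is removed from `e` when `b e = false` -/
abbrev Ib (inc : E → Finset V) (z : E → V) (b : E → Bool) : V → E → Prop :=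
  fun v e => v ∈ inc e ∧ (v = z e → b e = true)

/-- the union of the cliques on the hyperedges `e` with `b e = true` -/
def HB (inc : E → Finset V) (b : E → Bool) : SimpleGraph V where
  Adj x y := x ≠ y ∧ ∃ e, b e = true ∧ x ∈ inc e ∧ y ∈ inc e
  symm := ⟨fun _ _ h => ⟨h.1.symm, h.2.imp fun _ h => ⟨h.1, h.2.2, h.2.1⟩⟩⟩
  loopless := ⟨fun _ h => h.1 rfl⟩

/-- the graph `HB` can be represented with complexity `p` in the incidence structure -/
def Succ (inc : E → Finset V) (z : E → V) (p : ℕ) (b : E → Bool) : Prop :=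
  ∃ (π : V → V) (lam : V ⊕ E → Fin p) (Q : V → V → Prop), DET (Ib inc z b) lam p ∧
    (∀ x y x' y', Same (incG (Ib inc z b)) lam p (.inl x) (.inl y) (.inl x') (.inl y') →
      (Q x y ↔ Q x' y')) ∧
    ∀ x y, x ≠ y → ((HB inc b).Adj x y ↔ Q (π x) (π y) ∧ Q (π y) (π x))

theorem gir_Ib {inc : E → Finset V} {z : E → V} {b : E → Bool} {g : ℕ}
    (hg : Gir (incG (Ip inc)) g) : Gir (incG (Ib inc z b)) g := by
  refine Gir.comap id Function.injective_id ?_ hg
  rintro (v | e) (w | f) h
  · exact h
  · exact h.1
  · exact h.1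
  · exact h

theorem lin {inc : E → Finset V} (hg : Gir (incG (Ip inc)) 4) {x y : V} (hxy : x ≠ y) {e f : E}
    (hxe : x ∈ inc e) (hye : y ∈ inc e) (hxf : x ∈ inc f) (hyf : y ∈ inc f) : e = f := by
  by_contra hne
  have hn : NB (incG (Ip inc)) 4 (fun i => if i = 0 then (.inl x : V ⊕ E) else
      if i = 1 then .inr e else if i = 2 then .inl y else if i = 3 then .inr f else .inl x) := by
    refine ⟨fun i hi => ?_, fun i hi => ?_⟩
    · interval_cases i <;> simp [hxe, hye, hxf, hyf]
    · have : i ≤ 2 := by omega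
      interval_cases i
      · simpa using hxy
      · simpa using hne
      · simpa using hxy.symm
  exact hg 4 _ (by omega) le_rfl hn (by simp)

theorem HB_iff {inc : E → Finset V} {b : E → Bool} (hg : Gir (incG (Ip inc)) 4) {x y : V}
    (hxy : x ≠ y) {e : E} (hxe : x ∈ inc e) (hye : y ∈ inc e) :
    (HB inc b).Adj x y ↔ b e = true := by
  constructor
  · rintro ⟨_, f, h1, h2, h3⟩
    rw [lin hg hxy hxe hye h2 h3]; exact h1
  · intro h
    exact ⟨hxy, e, h, hxe, hye⟩

theorem cnt_inr (I : V → E → Prop) {L : Type} (lam : V ⊕ E → L) (e : E) (l : L) :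
    cnt (incG I) lam (.inr e) l =
      (Finset.univ.filter (fun v : V => I v e ∧ lam (.inl v) = l)).card := by
  unfold cnt
  rw [← Finset.card_image_of_injective _ (Sum.inl_injective (α := V) (β := E))]
  congr 1
  ext w
  rcases w with v | f
  · simp
  · simp

/-- thresholded counts -/
noncomputable def thrc (inc : E → Finset V) (z : E → V) {p : ℕ} (La : V → Fin p) (b : E → Bool)
    (e : E) : Fin p → Fin (p+1) := fun l =>
  ⟨min p (Finset.univ.filter (fun v : V => Ib inc z b v e ∧ La v = l)).card, by omega⟩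

/-- the labelling reconstructed from the data -/
noncomputable def labF (inc : E → Finset V) (z : E → V) {p : ℕ} (La : V → Fin p)
    (F : (Fin p → Fin (p+1)) → Fin p) (b : E → Bool) : V ⊕ E → Fin p :=
  Sum.elim La (fun e => F (thrc inc z La b e))

/-- the data of a representation -/
abbrev Dat (V : Type) (p : ℕ) : Type :=
  (V → Fin p) × (V → V) × ((Fin p → Fin (p+1)) → Fin p) × (Cd p → Bool)

/-- `b` is represented by the data `d` -/
def PD (inc : E → Finset V) (z : E → V) {p : ℕ} (d : Dat V p) (b : E → Bool) : Prop :=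
  ∀ x y, x ≠ y → ((HB inc b).Adj x y ↔
    d.2.2.2 (codeF (incG (Ib inc z b)) (labF inc z d.1 d.2.2.1 b) (.inl (d.2.1 x))
      (.inl (d.2.1 y))) = true ∧
    d.2.2.2 (codeF (incG (Ib inc z b)) (labF inc z d.1 d.2.2.1 b) (.inl (d.2.1 y))
      (.inl (d.2.1 x))) = true)

theorem succ_PD {inc : E → Finset V} {z : E → V} {p : ℕ} (hp : 1 ≤ p) {b : E → Bool}
    (hg : Gir (incG (Ip inc)) (2*p)) (h : Succ inc z p b) : ∃ d : Dat V p, PD inc z d b := by
  obtain ⟨π, lam, Q, h1, h2, h3⟩ := h
  let La : V → Fin p := fun v => lam (.inl v)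
  have hF : ∃ F : (Fin p → Fin (p+1)) → Fin p, ∀ e, lam (.inr e) = F (thrc inc z La b e) := by
    refine ⟨fun a => if h : ∃ e, thrc inc z La b e = a then lam (.inr h.choose) else ⟨0, hp⟩, ?_⟩
    intro e
    have hex : ∃ e', thrc inc z La b e' = thrc inc z La b e := ⟨e, rfl⟩
    simp only [hex, dite_true]
    apply h1
    intro l
    rw [cnt_inr, cnt_inr]
    have := congrArg Fin.val (congrFun hex.choose_spec l)
    simp only [thrc] at this
    convert this.symm
  obtain ⟨F, hF⟩ := hF
  have hlab : labF inc z La F b = lam := by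
    funext w
    rcases w with v | e
    · rfl
    · exact (hF e).symm
  let Ψ : Cd p → Bool := fun c => decide (∃ x y, codeF (incG (Ib inc z b)) lam (.inl x) (.inl y) = c ∧ Q x y)
  have hΨ : ∀ x y, Ψ (codeF (incG (Ib inc z b)) lam (.inl x) (.inl y)) = true ↔ Q x y := by
    intro x y
    simp only [Ψ, decide_eq_true_eq]
    constructor
    · rintro ⟨x', y', hc, hQ⟩
      exact (h2 _ _ _ _ (same_of_codeF (gir_Ib hg) lam hc)).1 hQ
    · intro hQ; exact ⟨x, y, rfl, hQ⟩
  refine ⟨(La, π, F, Ψ), fun x y hxy => ?_⟩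
  simp only [hlab]
  rw [hΨ, hΨ]
  exact h3 x y hxy

theorem codeF_congr {W : Type} {Γ Γ' : SimpleGraph W} {p : ℕ} (hg : Gir Γ (2*p)) (hg' : Gir Γ' (2*p))
    (lam : W → Fin p) {x y : W}
    (h : ∀ k u, k ≤ p → u 0 = x → u k = y → (NB Γ k u ↔ NB Γ' k u)) :
    codeF Γ lam x y = codeF Γ' lam x y := by
  by_cases h1 : HasW Γ p x y
  · obtain ⟨k, u, hk, hu, hx, hy⟩ := h1
    rw [codeF_near hg lam hk hu hx hy, codeF_near hg' lam hk ((h k u hk hx hy).1 hu) hx hy]
  · have h2 : ¬ HasW Γ' p x y := by
      rintro ⟨k, u, hk, hu, hx, hy⟩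
      exact h1 ⟨k, u, hk, (h k u hk hx hy).2 hu, hx, hy⟩
    rw [codeF_far lam h1, codeF_far lam h2]

theorem count_succ {inc : E → Finset V} {z : E → V} {p a : ℕ} (hp : 1 ≤ p)
    (hg : Gir (incG (Ip inc)) (2*p+4)) (X Y : E → V) (hXY : ∀ e, X e ≠ Y e) (hX : ∀ e, X e ∈ inc e)
    (hY : ∀ e, Y e ∈ inc e)
    (hU1 : ∀ La : V → Fin p, (Finset.univ.filter (fun e =>
      ((inc e).filter (fun v => v ≠ z e ∧ La v = La (z e))).card < p)).card < a)
    (hU2 : ∀ π : V → V, (Finset.univ.filter (fun e => (Sum.inl (z e) : V ⊕ E) ∈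
      nodesOn (incG (Ip inc)) p (.inl (π (X e))) (.inl (π (Y e))))).card < a)
    (hE : 4*(2*p+3)*a ≤ Fintype.card E) :
    (Finset.univ.filter (fun b => Succ inc z p b)).card ≤
      Fintype.card (Dat V p) * 2^(Fintype.card E - 2*a) := by
  have hg2 : Gir (incG (Ip inc)) (2*p) := hg.mono (by omega)
  have hg4 : Gir (incG (Ip inc)) 4 := hg.mono (by omega)
  have hsub : Finset.univ.filter (fun b => Succ inc z p b) ⊆
      (Finset.univ : Finset (Dat V p)).biUnion (fun d => Finset.univ.filter (fun b => PD inc z d b)) := by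
    intro b hb
    obtain ⟨d, hd⟩ := succ_PD hp hg2 (Finset.mem_filter.1 hb).2
    exact Finset.mem_biUnion.2 ⟨d, Finset.mem_univ _, Finset.mem_filter.2 ⟨Finset.mem_univ _, hd⟩⟩
  refine (Finset.card_le_card hsub).trans ?_
  have hb := Finset.card_biUnion_le_card_mul (Finset.univ : Finset (Dat V p))
    (fun d => Finset.univ.filter (fun b => PD inc z d b)) (2^(Fintype.card E - 2*a)) ?_
  · simpa using hb
  rintro ⟨La, π, F, Ψ⟩ _
  -- the dependency digraph
  let T : E → Finset (V ⊕ E) := fun e =>
    nodesOn (incG (Ip inc)) p (.inl (π (X e))) (.inl (π (Y e)))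
  let Nb : E → Finset E := fun e => Finset.univ.filter (fun f => (.inr f : V ⊕ E) ∈ T e ∧
    (.inl (z f) : V ⊕ E) ∈ T e)
  have hNb : ∀ e, (Nb e).card ≤ p + 1 := by
    intro e
    refine le_trans ?_ (card_nodesOn (incG (Ip inc)) p (.inl (π (X e))) (.inl (π (Y e))))
    refine Finset.card_le_card_of_injOn Sum.inr ?_ (fun a _ b _ h => Sum.inr_injective h)
    intro f hf
    exact (Finset.mem_filter.1 hf).2.1
  let X0 : Finset E := Finset.univ.filter (fun e => e ∉ Nb e)
  have hX0 : Fintype.card E < X0.card + a := by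
    have h1 := Finset.card_filter_add_card_filter_not (s := (Finset.univ : Finset E))
      (fun e => e ∉ Nb e)
    rw [Finset.card_univ] at h1
    have h2 : (Finset.univ.filter (fun e => ¬ (e ∉ Nb e))).card < a := by
      refine lt_of_le_of_lt (Finset.card_le_card ?_) (hU2 π)
      intro e he
      simp only [Finset.mem_filter, Finset.mem_univ, true_and, not_not, Nb] at he ⊢
      exact he.2
    change Fintype.card E < (Finset.univ.filter (fun e => e ∉ Nb e)).card + a
    omega
  obtain ⟨I, hI1, hI2, hI3⟩ := exists_indep Nb (p+1) hNb X0.card X0 rfl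
    (fun e he => (Finset.mem_filter.1 he).2)
  let Rare : Finset E := Finset.univ.filter (fun e =>
      ((inc e).filter (fun v => v ≠ z e ∧ La v = La (z e))).card < p)
  have hRare : Rare.card < a := hU1 La
  let J : Finset E := I \ Rare
  have hJ : 2*a ≤ J.card := by
    have h1 : I.card ≤ J.card + Rare.card := by
      have := Finset.card_le_card (Finset.subset_union_left (s₁ := I) (s₂ := Rare))
      rw [← Finset.sdiff_union_self_eq_union] at this
      exact this.trans (Finset.card_union_le _ _)
    have h2 : 3 * a ≤ I.card := by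
      by_contra hcon
      push Not at hcon
      have h3 : (2*(p+1)+1) * I.card ≤ (2*p+3) * (3*a) := by
        have : 2*(p+1)+1 = 2*p+3 := by ring
        rw [this]; exact Nat.mul_le_mul_left _ hcon.le
      have h4 : 4*(2*p+3)*a = (2*p+3)*(3*a) + (2*p+3)*a := by ring
      have h5 : a ≤ (2*p+3)*a := Nat.le_mul_of_pos_left _ (by omega)
      omega
    omega
  -- restriction is injective
  have hinj : Set.InjOn (fun (b : E → Bool) => fun (e : {e // e ∉ J}) => b e)
      (Finset.univ.filter (fun b => PD inc z (La, π, F, Ψ) b) : Finset (E → Bool)) := by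
    intro b hb b' hb' hbb
    have hP := (Finset.mem_filter.1 (Finset.mem_coe.1 hb)).2
    have hP' := (Finset.mem_filter.1 (Finset.mem_coe.1 hb')).2
    have hagree : ∀ e, e ∉ J → b e = b' e := fun e he => congrFun hbb ⟨e, he⟩
    -- labels agree
    have hthr : ∀ e, thrc inc z La b e = thrc inc z La b' e := by
      intro e
      funext l
      apply Fin.ext
      simp only [thrc]
      by_cases he : e ∈ J
      · have heR : e ∉ Rare := (Finset.mem_sdiff.1 he).2
        have hbig : p ≤ ((inc e).filter (fun v => v ≠ z e ∧ La v = La (z e))).card := by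
          by_contra hcon
          exact heR (Finset.mem_filter.2 ⟨Finset.mem_univ _, by omega⟩)
        by_cases hl : l = La (z e)
        · have hb1 : ∀ b : E → Bool, p ≤
              (Finset.univ.filter (fun v : V => Ib inc z b v e ∧ La v = l)).card := by
            intro b
            refine hbig.trans (Finset.card_le_card ?_)
            intro v hv
            simp only [Finset.mem_filter, Finset.mem_univ, true_and] at hv ⊢
            exact ⟨⟨hv.1, fun h => absurd h hv.2.1⟩, by rw [hl]; exact hv.2.2⟩
          rw [min_eq_left (hb1 b), min_eq_left (hb1 b')]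
        · congr 2
          ext v
          simp only [Finset.mem_filter, Finset.mem_univ, true_and]
          constructor
          · rintro ⟨⟨h1, h2⟩, h3⟩
            exact ⟨⟨h1, fun h => absurd (by rw [← h3, h]) hl⟩, h3⟩
          · rintro ⟨⟨h1, h2⟩, h3⟩
            exact ⟨⟨h1, fun h => absurd (by rw [← h3, h]) hl⟩, h3⟩
      · simp only [Ib, hagree e he]
    have hlab : labF inc z La F b = labF inc z La F b' := by
      funext w
      rcases w with v | e
      · rfl
      · simp only [labF, Sum.elim_inr, hthr e]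
    -- walks agree
    have hwalk : ∀ b b' : E → Bool, (∀ e, e ∉ J → b e = b' e) → ∀ e ∈ J, ∀ k u, k ≤ p →
        (∀ i, i ≤ k → u i ∈ T e) → NB (incG (Ib inc z b)) k u → NB (incG (Ib inc z b')) k u := by
      intro b b' hag e he k u hk hT hu
      have key : ∀ v f, (.inl v : V ⊕ E) ∈ T e → (.inr f : V ⊕ E) ∈ T e →
          Ib inc z b v f → Ib inc z b' v f := by
        rintro v f hv hf ⟨h1, h2⟩
        refine ⟨h1, fun h => ?_⟩
        by_cases hfJ : f ∈ J
        · exfalso
          apply hI3 e (Finset.mem_sdiff.1 he).1 f (Finset.mem_sdiff.1 hfJ).1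
          exact Finset.mem_filter.2 ⟨Finset.mem_univ _, hf, h ▸ hv⟩
        · rw [← hag f hfJ]; exact h2 h
      refine ⟨fun i hi => ?_, hu.2⟩
      have h1 := hu.1 i hi
      have h2 := hT i hi.le
      have h3 := hT (i+1) hi
      rcases hui : u i with v | f <;> rcases hui' : u (i+1) with w | g <;>
        rw [hui, hui'] at h1 <;> rw [hui] at h2 <;> rw [hui'] at h3
      · exact h1
      · exact key v g h2 h3 h1
      · exact key w f h3 h2 h1
      · exact h1
    have hsubNB : ∀ (b : E → Bool) k u, NB (incG (Ib inc z b)) k u → NB (incG (Ip inc)) k u := by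
      intro b k u hu
      refine ⟨fun i hi => ?_, hu.2⟩
      have h1 := hu.1 i hi
      rcases hui : u i with v | f <;> rcases hui' : u (i+1) with w | g <;>
        rw [hui, hui'] at h1
      · exact h1
      · exact h1.1
      · exact h1.1
      · exact h1
    have hcode : ∀ e ∈ J, codeF (incG (Ib inc z b)) (labF inc z La F b) (.inl (π (X e)))
          (.inl (π (Y e))) = codeF (incG (Ib inc z b')) (labF inc z La F b') (.inl (π (X e)))
          (.inl (π (Y e))) ∧
        codeF (incG (Ib inc z b)) (labF inc z La F b) (.inl (π (Y e)))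
          (.inl (π (X e))) = codeF (incG (Ib inc z b')) (labF inc z La F b') (.inl (π (Y e)))
          (.inl (π (X e))) := by
      intro e he
      rw [hlab]
      constructor
      · apply codeF_congr (gir_Ib hg2) (gir_Ib hg2)
        intro k u hk h0 hkk
        have hT : ∀ b : E → Bool, NB (incG (Ib inc z b)) k u → ∀ i, i ≤ k → u i ∈ T e :=
          fun b hu i hi => mem_nodesOn hg2 hk (hsubNB b k u hu) h0 hkk hi
        exact ⟨fun hu => hwalk b b' hagree e he k u hk (hT b hu) hu,
          fun hu => hwalk b' b (fun e he => (hagree e he).symm) e he k u hk (hT b' hu) hu⟩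
      · apply codeF_congr (gir_Ib hg2) (gir_Ib hg2)
        intro k u hk h0 hkk
        have hT : ∀ b : E → Bool, NB (incG (Ib inc z b)) k u → ∀ i, i ≤ k → u i ∈ T e := by
          intro b hu i hi
          have := mem_nodesOn hg2 hk (hsubNB b k u hu).rev (by simpa using hkk)
            (by simpa using h0) (i := k - i) (by omega)
          have e1 : k - (k - i) = i := by omega
          simpa [e1] using this
        exact ⟨fun hu => hwalk b b' hagree e he k u hk (hT b hu) hu,
          fun hu => hwalk b' b (fun e he => (hagree e he).symm) e he k u hk (hT b' hu) hu⟩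
    funext e
    by_cases he : e ∈ J
    · have h1 := hP (X e) (Y e) (hXY e)
      have h2 := hP' (X e) (Y e) (hXY e)
      rw [HB_iff hg4 (hXY e) (hX e) (hY e)] at h1 h2
      simp only at h1 h2
      rw [(hcode e he).1, (hcode e he).2, ← h2] at h1
      exact Bool.eq_iff_iff.2 h1
    · exact hagree e he
  have hcard := Finset.card_le_card_of_injOn (t := (Finset.univ : Finset ({e // e ∉ J} → Bool)))
    _ (fun _ _ => Finset.mem_univ _) hinj
  refine hcard.trans ?_
  rw [Finset.card_univ, Fintype.card_fun, Fintype.card_bool]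
  apply Nat.pow_le_pow_right (by norm_num)
  rw [Fintype.card_subtype_compl, Fintype.card_coe]
  omega

end FOMod384
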