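import Pool.Agent.FOMod384.Level

/-!
The parity side, and the levels of the counterexample.
-/

namespace FOMod384

open Classical

section parity

variable {V E : Type} [Fintype V] [Fintype E]

theorem common_nbr {inc : E → Finset V} (hg : Gir (incG (Ip inc)) 6) {x y w : V} {e e1 e2 : E}
    (hxy : x ≠ y) (hwx : w ≠ x) (hwy : w ≠ y) (hxe : x ∈ inc e) (hye : y ∈ inc e)
    (hx1 : x ∈ inc e1) (hw1 : w ∈ inc e1) (hw2 : w ∈ inc e2) (hy2 : y ∈ inc e2) : e1 = e := by
  have hg4 : Gir (incG (Ip inc)) 4 := hg.mono (by omega)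
  by_contra hne
  have h12 : e1 ≠ e2 := by
    rintro rfl
    exact hne (lin hg4 hxy hx1 hy2 hxe hye)
  have h2 : e2 ≠ e := by
    rintro rfl
    exact hne (lin hg4 hwx hw1 hx1 hw2 hxe)
  have hn : NB (incG (Ip inc)) 6 (fun i => if i = 0 then (.inl x : V ⊕ E) else
      if i = 1 then .inr e1 else if i = 2 then .inl w else if i = 3 then .inr e2 else
      if i = 4 then .inl y else if i = 5 then .inr e else .inl x) := by
    refine ⟨fun i hi => ?_, fun i hi => ?_⟩
    · interval_cases i <;> simp [hxe, hye, hx1, hw1, hw2, hy2]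
    · have : i ≤ 4 := by omega
      interval_cases i
      · simpa using hwx.symm
      · simpa using h12
      · simpa using hwy
      · simpa using h2
      · simpa using hxy.symm
  exact hg 6 _ (by omega) le_rfl hn (by simp)

theorem fomod_iff {inc : E → Finset V} {z : E → V} {b : E → Bool} {t : ℕ}
    (hinc : ∀ e, (inc e).card = t) (ht : t % 2 = 0) (ht4 : 4 ≤ t) (hz : ∀ e, z e ∈ inc e)
    (hg : Gir (incG (Ip inc)) 6) (x y : V) :
    (HB inc b).Adj x y ↔ (gG (Ib inc z b)).Adj x y ∧
      Nat.card {w // (gG (Ib inc z b)).Adj x w ∧ (gG (Ib inc z b)).Adj y w} % 2 = 0 := by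
  have hg4 : Gir (incG (Ip inc)) 4 := hg.mono (by omega)
  have key : ∀ e, x ≠ y → Ib inc z b x e → Ib inc z b y e →
      (Nat.card {w // (gG (Ib inc z b)).Adj x w ∧ (gG (Ib inc z b)).Adj y w} % 2 = 0 ↔
        b e = true) := by
    intro e hxy hx hy
    let S : Finset V := Finset.univ.filter (fun w => Ib inc z b w e)
    have hxS : x ∈ S := Finset.mem_filter.2 ⟨Finset.mem_univ _, hx⟩
    have hyS : y ∈ S := Finset.mem_filter.2 ⟨Finset.mem_univ _, hy⟩
    have h1 : Nat.card {w // (gG (Ib inc z b)).Adj x w ∧ (gG (Ib inc z b)).Adj y w} =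
        ((S.erase x).erase y).card := by
      rw [Nat.card_eq_fintype_card, Fintype.card_subtype]
      congr 1
      ext w
      simp only [Finset.mem_filter, Finset.mem_univ, true_and, Finset.mem_erase, S]
      constructor
      · rintro ⟨⟨hne1, e1, hx1, hw1⟩, hne2, e2, hy2, hw2⟩
        have he1 := common_nbr hg hxy hne1.symm hne2.symm hx.1 hy.1 hx1.1 hw1.1 hw2.1 hy2.1
        refine ⟨hne2.symm, hne1.symm, ?_⟩
        rw [← he1]; exact hw1
      · rintro ⟨hwy, hwx, hw⟩
        exact ⟨⟨hwx.symm, e, hx, hw⟩, hwy.symm, e, hy, hw⟩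
    rw [h1, Finset.card_erase_of_mem (Finset.mem_erase.2 ⟨hxy.symm, hyS⟩),
      Finset.card_erase_of_mem hxS]
    rcases hb : b e with _ | _
    · have hS : S = (inc e).erase (z e) := by
        ext w
        simp only [S, Ib, Finset.mem_filter, Finset.mem_univ, true_and, Finset.mem_erase, hb]
        constructor
        · rintro ⟨h2, h3⟩
          exact ⟨fun h => by simpa using h3 h, h2⟩
        · rintro ⟨h2, h3⟩
          exact ⟨h3, fun h => absurd h h2⟩
      rw [hS, Finset.card_erase_of_mem (hz e), hinc]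
      simp only [Bool.false_eq_true, iff_false]
      omega
    · have hS : S = inc e := by
        ext w
        simp only [S, Ib, Finset.mem_filter, Finset.mem_univ, true_and, hb, implies_true, and_true]
      rw [hS, hinc]
      simp only [iff_true]
      omega
  constructor
  · rintro ⟨hxy, e, hbe, hx, hy⟩
    have h1 : Ib inc z b x e := ⟨hx, fun _ => hbe⟩
    have h2 : Ib inc z b y e := ⟨hy, fun _ => hbe⟩
    exact ⟨⟨hxy, e, h1, h2⟩, (key e hxy h1 h2).2 hbe⟩
  · rintro ⟨⟨hxy, e, h1, h2⟩, h3⟩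
    exact ⟨hxy, e, (key e hxy h1 h2).1 h3, h1.1, h2.1⟩

end parity

/-- one level of the counterexample: an incidence structure and a graph on its points -/
structure Lev where
  /-- number of points -/
  N : ℕ
  /-- hyperedges -/
  E : Type
  /-- finiteness -/
  fE : Fintype E
  /-- incidence -/
  I : Fin N → E → Prop
  /-- the target graph -/
  H : SimpleGraph (Fin N)

attribute [instance] Lev.fE

/-- the properties of a level -/
def Lev.Good (L : Lev) (p g0 N0 : ℕ) : Prop :=
  N0 < L.N ∧ Gir (incG L.I) g0 ∧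
  (∀ x y, L.H.Adj x y ↔ (gG L.I).Adj x y ∧
    Nat.card {w // (gG L.I).Adj x w ∧ (gG L.I).Adj y w} % 2 = 0) ∧
  (¬ ∃ (π : Fin L.N → Fin L.N) (lam : Fin L.N ⊕ L.E → Fin p) (Q : Fin L.N → Fin L.N → Prop),
    DET L.I lam p ∧
    (∀ x y x' y', Same (incG L.I) lam p (.inl x) (.inl y) (.inl x') (.inl y') →
      (Q x y ↔ Q x' y')) ∧
    ∀ x y, x ≠ y → (L.H.Adj x y ↔ Q (π x) (π y) ∧ Q (π y) (π x))) ∧
  ¬ TW (Mtw p) (Ktw p) (fun x y => decide (L.H.Adj x y))

theorem exists_level (p g0 N0 : ℕ) (hp : 1 ≤ p) : ∃ L : Lev, L.Good p g0 N0 := by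
  have ht : 4 ≤ tsz p := by
    unfold tsz
    have h1 : 0 < p*p+p+1 := by omega
    have h2 : 2 ≤ 2^(16*(2*p+3)) := by
      calc 2 = 2^1 := by norm_num
        _ ≤ _ := Nat.pow_le_pow_right (by norm_num) (by omega)
    nlinarith
  obtain ⟨N, hN, H, h1, h2, h3, h4⟩ := exists_hyper (tsz p) (g0 + 2*p + 10) (Rcst p)
    (N0 + 4*(2*p+3)) (by omega) (by omega)
  let E : Type := {e // e ∈ H}
  let inc : E → Finset (Fin N) := fun e => e.1
  have hcE : Fintype.card E = H.card := Fintype.card_coe H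
  have hgir : Gir (incG (Ip inc)) (g0 + 2*p + 10) := by
    refine Gir.comap (Sum.map id Subtype.val) ?_ ?_ h2
    · exact Sum.map_injective.2 ⟨Function.injective_id, Subtype.val_injective⟩
    · rintro (v | e) (w | f) h
      · simp at h
      · exact ⟨f.2, h⟩
      · exact ⟨e.2, h⟩
      · simp at h
  have hinc : ∀ e : E, (inc e).card = tsz p := fun e => h1 e.1 e.2
  have hgir1 : Gir (incG (Ip inc)) (2*p+4) := hgir.mono (by omega)
  have hgir2 : Gir (incG (Ip inc)) 6 := hgir.mono (by omega)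
  have hgir3 : Gir (incG (Ip inc)) g0 := hgir.mono (by omega)
  obtain ⟨z, b, hz, hs, htw⟩ := level_aux inc p hp hinc hgir1
    (by rw [hcE, Fintype.card_fin]; exact h3) (by rw [hcE, Fintype.card_fin]; exact h4)
    (by rw [Fintype.card_fin]; omega)
  refine ⟨⟨N, E, inferInstance, Ib inc z b, HB inc b⟩, by simp only; omega,
    gir_Ib hgir3, ?_, hs, htw⟩
  intro x y
  exact fomod_iff hinc (by unfold tsz; omega) ht hz hgir2 x y

end FOMod384
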